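import Pool.Statements.S00560
import Pool.Agent.H75.ApolarExample

set_option autoImplicit false
open Pool Pool.MP_f758bb_ag

namespace Pool.Agent.S00560

/-- The negation of the preceding statement: For every degree-d form f over ℂ, any saturated homogeneous ideal killing f whose Hilbert function stabilizes at r, with r least among all such ideals (a minimal apolar scheme), already has Hilbert function equal to r in degree d. -/
theorem result :
    ¬ (∀ (n d : ℕ) (f : MvPolynomial (Fin (n + 1)) ℂ), f.IsHomogeneous d →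
      ∀ (I : Ideal (MvPolynomial (Fin (n + 1)) ℂ)),
        (∀ g ∈ I, ∀ t : ℕ, MvPolynomial.homogeneousComponent t g ∈ I) →
        (∀ g : MvPolynomial (Fin (n + 1)) ℂ,
            (∃ k : ℕ, ∀ i : Fin (n + 1), MvPolynomial.X i ^ k * g ∈ I) → g ∈ I) →
        (∀ g ∈ I, ∀ β : Fin (n + 1) →₀ ℕ,
            ∑ α ∈ g.support, g.coeff α * f.coeff (α + β) *
              ((α + β).prod (fun _ k => (k.factorial : ℂ)) /
                β.prod (fun _ k => (k.factorial : ℂ))) = 0) →
        ∀ r : ℕ,
        (∃ t₀ : ℕ, ∀ t ≥ t₀,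
            Module.finrank ℂ (MvPolynomial.homogeneousSubmodule (Fin (n + 1)) ℂ t) -
              Module.finrank ℂ (Submodule.restrictScalars ℂ I ⊓
                MvPolynomial.homogeneousSubmodule (Fin (n + 1)) ℂ t :
                  Submodule ℂ (MvPolynomial (Fin (n + 1)) ℂ)) = r) →
        (∀ (J : Ideal (MvPolynomial (Fin (n + 1)) ℂ)) (r' : ℕ),
            (∀ g ∈ J, ∀ t : ℕ, MvPolynomial.homogeneousComponent t g ∈ J) →
            (∀ g : MvPolynomial (Fin (n + 1)) ℂ,
                (∃ k : ℕ, ∀ i : Fin (n + 1), MvPolynomial.X i ^ k * g ∈ J) → g ∈ J) →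
            (∀ g ∈ J, ∀ β : Fin (n + 1) →₀ ℕ,
                ∑ α ∈ g.support, g.coeff α * f.coeff (α + β) *
                  ((α + β).prod (fun _ k => (k.factorial : ℂ)) /
                    β.prod (fun _ k => (k.factorial : ℂ))) = 0) →
            (∃ t₀ : ℕ, ∀ t ≥ t₀,
                Module.finrank ℂ (MvPolynomial.homogeneousSubmodule (Fin (n + 1)) ℂ t) -
                  Module.finrank ℂ (Submodule.restrictScalars ℂ J ⊓
                    MvPolynomial.homogeneousSubmodule (Fin (n + 1)) ℂ t :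
                      Submodule ℂ (MvPolynomial (Fin (n + 1)) ℂ)) = r') →
            r ≤ r') →
        Module.finrank ℂ (MvPolynomial.homogeneousSubmodule (Fin (n + 1)) ℂ d) -
          Module.finrank ℂ (Submodule.restrictScalars ℂ I ⊓
            MvPolynomial.homogeneousSubmodule (Fin (n + 1)) ℂ d :
              Submodule ℂ (MvPolynomial (Fin (n + 1)) ℂ)) = r) := by
  intro H
  let e : Fin 2 ⊕ (Fin 5 × Fin 136) ≃ Fin (681 + 1) :=
    Fintype.equivFinOfCardEq (by simp)
  refine Pool.Agent.H75.Apolar.hilb_three e (H 681 3 (Pool.Agent.H75.Apolar.fpoly e)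
    (Pool.Agent.H75.Apolar.fpoly_hom e) (Pool.Agent.H75.Apolar.idl e)
    (Pool.Agent.H75.Apolar.idl_sat e).hom (Pool.Agent.H75.Apolar.idl_sat e).sat
    ?_ (5 * 136 + 10) ?_ ?_)
  · intro g hg β
    rw [Pool.Agent.H75.Apolar.apolar_sum,
      Pool.Agent.H75.Apolar.idl_apolar e _ (Ideal.mul_mem_left _ _ hg), mul_zero]
  · refine ⟨6, fun t ht => ?_⟩
    rw [Pool.Agent.H75.Apolar.hilb_eq, Pool.Agent.H75.Apolar.EvS_surj e (by norm_num) t ht,
      finrank_top, Pool.Agent.H75.Apolar.finrank_target]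
  · intro J r' h1 h2 h3 ⟨t0, h4⟩
    refine Pool.Agent.H75.Apolar.lower_J le_rfl J ⟨h1, h2⟩ (Pool.Agent.H75.Apolar.pf e) ?_
      (Pool.Agent.H75.Apolar.tau0 e) (Pool.Agent.H75.Apolar.tau0_surj e)
      (Pool.Agent.H75.Apolar.tau0_hom e) (Pool.Agent.H75.Apolar.pf_tri e) r' t0 h4
    intro g hg
    have h5 := h3 g hg 0
    rw [Pool.Agent.H75.Apolar.apolar_sum] at h5
    simpa using h5


end Pool.Agent.S00560
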