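import Pool.Statements.S00755
import Pool.Agent.H76.Gen

set_option autoImplicit false
open Pool Pool.MP_10a497_al

namespace Pool.Agent.S00755

/-- Every finitely generated group that is not virtually cyclic, has an element loxodromic for some acylindrical isometric action on a hyperbolic space, and has no nontrivial finite normal subgroup, is generated by a finite set of such elements that pairwise do not commute. -/
theorem result :
  ∀ (G : Type) [Group G], Group.FG G →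
    (¬ ∃ H : Subgroup G, H.FiniteIndex ∧ IsCyclic H) →
    (∃ g : G, ∃ (X : Type) (_ : MetricSpace X) (_ : MulAction G X),
      (∀ (h : G) (x y : X), dist (h • x) (h • y) = dist x y) ∧
      (∃ δ : ℝ, ∀ x y z w : X,
        dist x y + dist z w ≤ max (dist x z + dist y w) (dist x w + dist y z) + 2 * δ) ∧
      (∀ ε : ℝ, 0 < ε → ∃ (R : ℝ) (N : ℕ), ∀ x y : X, R ≤ dist x y →
        {h : G | dist x (h • x) ≤ ε ∧ dist y (h • y) ≤ ε}.Finite ∧
        {h : G | dist x (h • x) ≤ ε ∧ dist y (h • y) ≤ ε}.ncard ≤ N) ∧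
      (∃ x : X, ∃ c : ℝ, 0 < c ∧ ∀ n : ℕ, c * (n : ℝ) ≤ dist x ((g ^ n) • x))) →
    (∀ N : Subgroup G, N.Normal → Finite N → N = ⊥) →
    ∃ S : Finset G, Subgroup.closure (S : Set G) = ⊤ ∧
      (∀ s ∈ S, ∃ (X : Type) (_ : MetricSpace X) (_ : MulAction G X),
        (∀ (h : G) (x y : X), dist (h • x) (h • y) = dist x y) ∧
        (∃ δ : ℝ, ∀ x y z w : X,
          dist x y + dist z w ≤ max (dist x z + dist y w) (dist x w + dist y z) + 2 * δ) ∧
        (∀ ε : ℝ, 0 < ε → ∃ (R : ℝ) (N : ℕ), ∀ x y : X, R ≤ dist x y →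
          {h : G | dist x (h • x) ≤ ε ∧ dist y (h • y) ≤ ε}.Finite ∧
          {h : G | dist x (h • x) ≤ ε ∧ dist y (h • y) ≤ ε}.ncard ≤ N) ∧
        (∃ x : X, ∃ c : ℝ, 0 < c ∧ ∀ n : ℕ, c * (n : ℝ) ≤ dist x ((s ^ n) • x))) ∧
      ∀ s ∈ S, ∀ t ∈ S, s ≠ t → s * t ≠ t * s := by
  intro G _ hFG hnvc hex _
  obtain ⟨g, X, iX, iA, hiso, ⟨δ, hδ⟩, hacyl, x, hlox⟩ := hex
  obtain ⟨S, hS1, hS2, hS3⟩ :=
    Pool.Agent.H76.Hyp.main (G := G) (X := X) hiso (δ := δ) hδ hacyl (g := g) (x := x) hlox hFG hnvc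
  exact ⟨S, hS1, fun s hs => ⟨X, iX, iA, hiso, ⟨δ, hδ⟩, hacyl, x, hS2 s hs⟩, hS3⟩

end Pool.Agent.S00755
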