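import Pool.Statements.S01179
import Pool.Agent.H43.PV.Main

set_option autoImplicit false
open Pool Pool.MP_36c61b_al

namespace Pool.Agent.S01179

/-- For every prime p, every variety of pro-p groups (closed under closed subgroups, closed quotients, products) that contains a non-nilpotent group has a subvariety in which all finitely generated groups are nilpotent but some group is not. -/
theorem result :
    ∀ p : ℕ, p.Prime →
    ∀ V : (G : Type) → [Group G] → [TopologicalSpace G] → Prop,
      ((∀ (G : Type) [Group G] [TopologicalSpace G], V G →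
          IsTopologicalGroup G ∧ CompactSpace G ∧ TotallyDisconnectedSpace G ∧ T2Space G) ∧
        (∀ (G H : Type) [Group G] [TopologicalSpace G] [Group H] [TopologicalSpace H],
          Nonempty (G ≃ₜ* H) → V G → V H) ∧
        (∀ (G : Type) [Group G] [TopologicalSpace G], V G →
          ∀ H : Subgroup G, IsClosed (H : Set G) → V (↥H)) ∧
        (∀ (G : Type) [Group G] [TopologicalSpace G], V G →
          ∀ (N : Subgroup G) [N.Normal], IsClosed (N : Set G) → V (G ⧸ N)) ∧
        (∀ (I : Type) (H : I → Type) [∀ i, Group (H i)] [∀ i, TopologicalSpace (H i)],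
          (∀ i, V (H i)) → V ((i : I) → H i))) →
      (∀ (G : Type) [Group G] [TopologicalSpace G], V G →
        ∀ N : Subgroup G, IsOpen (N : Set G) → N.Normal → ∃ k : ℕ, N.index = p ^ k) →
      (∃ (G : Type) (_ : Group G) (_ : TopologicalSpace G), V G ∧ ¬ Group.IsNilpotent G) →
      ∃ U : (G : Type) → [Group G] → [TopologicalSpace G] → Prop,
        ((∀ (G : Type) [Group G] [TopologicalSpace G], U G →
            IsTopologicalGroup G ∧ CompactSpace G ∧ TotallyDisconnectedSpace G ∧ T2Space G) ∧
          (∀ (G H : Type) [Group G] [TopologicalSpace G] [Group H] [TopologicalSpace H],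
            Nonempty (G ≃ₜ* H) → U G → U H) ∧
          (∀ (G : Type) [Group G] [TopologicalSpace G], U G →
            ∀ H : Subgroup G, IsClosed (H : Set G) → U (↥H)) ∧
          (∀ (G : Type) [Group G] [TopologicalSpace G], U G →
            ∀ (N : Subgroup G) [N.Normal], IsClosed (N : Set G) → U (G ⧸ N)) ∧
          (∀ (I : Type) (H : I → Type) [∀ i, Group (H i)] [∀ i, TopologicalSpace (H i)],
            (∀ i, U (H i)) → U ((i : I) → H i))) ∧
        (∀ (G : Type) [Group G] [TopologicalSpace G], U G → V G) ∧
        (∀ (G : Type) [Group G] [TopologicalSpace G], U G →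
          (∃ s : Finset G, closure ((Subgroup.closure (s : Set G) : Subgroup G) : Set G) = Set.univ) →
          Group.IsNilpotent G) ∧
        (∃ (G : Type) (_ : Group G) (_ : TopologicalSpace G), U G ∧ ¬ Group.IsNilpotent G) := by
  intro p hp V hV hVp hn
  obtain ⟨h1, h2, h3, h4, h5⟩ := hV
  have hV' : H89.ProP.IsVariety V := ⟨h1, h2, h3, h4, h5⟩
  obtain ⟨U, hU, hUV, hUl, hUn⟩ := H43.PV.main hp hV' hVp (by
    intro h
    obtain ⟨G, _, _, hG, hG'⟩ := hn
    exact hG' (h G hG))
  refine ⟨U, ⟨hU.profinite, hU.iso, hU.sub, hU.quot, hU.pi⟩, hUV, hUl, ?_⟩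
  by_contra hcon
  apply hUn
  intro G _ _ hG
  by_contra hG'
  exact hcon ⟨G, _, _, hG, hG'⟩

end Pool.Agent.S01179
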