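import Pool.Statements.S01769
import Pool.Agent.H80.LN.Main

set_option autoImplicit false
open Pool Pool.MP_689fa4_al

namespace Pool.Agent.S01769

/-- Let G be a Hausdorff locally compact group in which every finitely generated subgroup is nilpotent and every proper closed subgroup is compact. If G is not compact, then G is abelian. -/
theorem result :
    ∀ (G : Type) [Group G] [TopologicalSpace G] [IsTopologicalGroup G]
      [LocallyCompactSpace G] [T2Space G],
      (∀ s : Finset G, Group.IsNilpotent (Subgroup.closure (s : Set G))) →
      (∀ H : Subgroup G, IsClosed (H : Set G) → H ≠ ⊤ → IsCompact (H : Set G)) →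
      ¬ CompactSpace G →
      ∀ a b : G, a * b = b * a := by
  intro G _ _ _ _ _ hN hC hnc
  exact Pool.Agent.H80.LN.main G hN hC hnc

end Pool.Agent.S01769
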