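import Pool.Statements.S02089
import Pool.Agent.H82.Subrank.StepTwo
import Pool.Agent.H82.Subrank.StepThree
import Pool.Agent.H82.Subrank.StepFour

set_option autoImplicit false
open Pool Pool.MP_812d11_al

namespace Pool.Agent.S02089

/-- bound for the suborbits -/
def Cb (m : ℕ) : ℕ := 2 * m ^ (8 * m * 4 ^ (m ^ 3))

/-- bound for the point stabilizers -/
def Bb (m : ℕ) : ℕ := Cb m ^ H82.Subrank.tt (Cb m) (Cb m - 1)

/-- the rank is at most the degree -/
theorem orbits_le {H α : Type*} [Group H] [MulAction H α] [Finite α] :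
    Nat.card (MulAction.orbitRel.Quotient H α) ≤ Nat.card α :=
  Nat.card_le_card_of_surjective (Quotient.mk (MulAction.orbitRel H α)) Quotient.mk_surjective

/-- a regular suborbit bounds the point stabilizer -/
theorem regular_le {H α : Type*} [Group H] [Finite H] [MulAction H α] [Finite α] (y : α)
    (hy : MulAction.stabilizer H y = ⊥) {m : ℕ}
    (h : Set.ncard {O : Set α | ∃ z ∈ MulAction.orbit H y,
          O = MulAction.orbit (MulAction.stabilizer H y) z} ≤ m) :
    Nat.card H ≤ m := by
  classical
  refine le_trans ?_ h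
  rw [← Nat.card_coe_set_eq]
  have hsing : ∀ z : α, MulAction.orbit (MulAction.stabilizer H y) z = {z} := by
    intro z
    ext w
    rw [Set.mem_singleton_iff, MulAction.mem_orbit_iff]
    constructor
    · rintro ⟨u, rfl⟩
      have hu : (u : H) ∈ MulAction.stabilizer H y := u.2
      have hu1 : (u : H) ∈ (⊥ : Subgroup H) := by
        exact (le_of_eq hy) hu
      rw [Subgroup.mem_bot] at hu1
      change (u : H) • z = z
      rw [hu1, one_smul]
    · rintro rfl
      exact ⟨1, one_smul _ _⟩
  let F : H → {O : Set α | ∃ z ∈ MulAction.orbit H y,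
      O = MulAction.orbit (MulAction.stabilizer H y) z} :=
    fun g => ⟨MulAction.orbit (MulAction.stabilizer H y) (g • y),
      g • y, MulAction.mem_orbit _ _, rfl⟩
  apply Nat.card_le_card_of_injective F
  intro g g' hgg
  have h1 : MulAction.orbit (MulAction.stabilizer H y) (g • y)
      = MulAction.orbit (MulAction.stabilizer H y) (g' • y) := congrArg Subtype.val hgg
  rw [hsing, hsing, Set.singleton_eq_singleton_iff] at h1
  have h2 : g'⁻¹ * g ∈ MulAction.stabilizer H y := by
    rw [MulAction.mem_stabilizer_iff, mul_smul, h1, inv_smul_smul]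
  rw [hy, Subgroup.mem_bot] at h2
  exact (inv_mul_eq_one.1 h2).symm

/-- There is a function f such that for every finite primitive permutation group whose point stabilizer has transitive constituents of maximum rank m, either the rank of the group is at most f(m) or the point stabilizer has order at most m. -/
theorem result :
  ∃ f : ℕ → ℕ, ∀ (α : Type) [Fintype α] (G : Subgroup (Equiv.Perm α)),
    MulAction.IsPreprimitive G α → ∀ (a : α) (m : ℕ),
      (∀ δ : α, Set.ncard {O : Set α | ∃ y ∈ MulAction.orbit (MulAction.stabilizer G a) δ,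
          O = MulAction.orbit (MulAction.stabilizer (MulAction.stabilizer G a) δ) y} ≤ m) →
      (∃ δ : α, Set.ncard {O : Set α | ∃ y ∈ MulAction.orbit (MulAction.stabilizer G a) δ,
          O = MulAction.orbit (MulAction.stabilizer (MulAction.stabilizer G a) δ) y} = m) →
      Nat.card (MulAction.orbitRel.Quotient (MulAction.stabilizer G a) α) ≤ f m ∨
        Nat.card (MulAction.stabilizer G a) ≤ m := by
  refine ⟨fun m => m ^ 3 + Cb m + (Bb m ^ 2).factorial, ?_⟩
  intro α _ G hprim a m h1 h2
  classical
  have hGpre : MulAction.IsPretransitive G α := inferInstance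
  have hfin : Finite G := inferInstance
  have hfaith : FaithfulSMul G α := inferInstance
  by_cases hm : Nat.card (MulAction.stabilizer G a) ≤ m
  · exact Or.inr hm
  left
  have hm1 : 1 ≤ m := by
    refine le_trans ?_ (h1 a)
    rw [Nat.one_le_iff_ne_zero, ← Nat.pos_iff_ne_zero, Set.ncard_pos]
    exact ⟨_, a, MulAction.mem_orbit_self a, rfl⟩
  have hK := H82.Subrank.card_KK G a h1
  have hrank := H82.Subrank.rank_le_card G a
  show _ ≤ m ^ 3 + Cb m + (Bb m ^ 2).factorial
  rcases H82.Subrank.step_two G hm1 a hK with h3 | h3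
  · exact le_trans (le_trans hrank h3) (by omega)
  have hC : ∀ x y : α, Nat.card (MulAction.orbit (MulAction.stabilizer G x) y) ≤ Cb m := by
    intro x y
    refine le_trans ?_ (h3 (H82.Subrank.orb G x y) x)
    rw [Nat.card_coe_set_eq, ← Set.ncard_coe_finset]
    apply Set.ncard_le_ncard _ (Finset.finite_toSet _)
    rintro z ⟨g, rfl⟩
    rw [Finset.mem_coe, H82.Subrank.mem_DD]
    rw [H82.Subrank.orb_eq_iff]
    exact ⟨(g : G), g.2, rfl⟩
  have hdeg : Nat.card (MulAction.orbitRel.Quotient (MulAction.stabilizer G a) α) ≤ Nat.card α :=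
    orbits_le
  by_cases hαC : Nat.card α ≤ Cb m
  · omega
  have hB : ∀ x : α, Nat.card (MulAction.stabilizer G x) ≤ Bb m := by
    intro x
    exact (H82.Subrank.step_three x hC).resolve_left hαC
  have h4 := H82.Subrank.step_four a hB (fun y hy => hm (regular_le y hy (h1 y)))
  omega

end Pool.Agent.S02089
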