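import Pool.Statements.S02581
import Pool.Agent.H86.FS.Main

set_option autoImplicit false
open Pool Pool.MP_a4b3b2_al

namespace Pool.Agent.S02581

/-- For every n, the free solvable group of rank n and derived length 3 embeds injectively into some solvable group given by finitely many generators and finitely many relations. -/
theorem result :
    ∀ n : ℕ, ∃ (m k : ℕ) (rels : Fin k → FreeGroup (Fin m)),
      IsSolvable (PresentedGroup (Set.range rels)) ∧
      ∃ f : (FreeGroup (Fin n) ⧸ derivedSeries (FreeGroup (Fin n)) 3) →*
          PresentedGroup (Set.range rels),
        Function.Injective f :=
  fun n => Pool.Agent.H86.FS.main n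

end Pool.Agent.S02581
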