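import Pool.Statements.S03593
import Pool.Agent.H88.Amalg.Final
import Pool.Agent.H88.Amalg.SMALL

set_option autoImplicit false
open scoped Manifold
open Pool Pool.MP_f8bbe3_al

namespace Pool.Agent.S03593

/-- Some nonabelian connected compact Lie group A has this property: whenever A embeds in two compact groups B and C, both embed in one compact group D by embeddings that agree on A. -/
theorem result :
    ∃ (A : Type) (_ : Group A) (_ : TopologicalSpace A) (_ : IsTopologicalGroup A)
      (_ : CompactSpace A) (_ : T2Space A) (_ : ConnectedSpace A) (n : ℕ)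
      (_ : ChartedSpace (EuclideanSpace ℝ (Fin n)) A)
      (_ : IsManifold (modelWithCornersSelf ℝ (EuclideanSpace ℝ (Fin n)))
        ((⊤ : ℕ∞) : WithTop ℕ∞) A)
      (_ : LieGroup (modelWithCornersSelf ℝ (EuclideanSpace ℝ (Fin n)))
        ((⊤ : ℕ∞) : WithTop ℕ∞) A),
      (∃ x y : A, x * y ≠ y * x) ∧
      ∀ (B C : Type) [Group B] [TopologicalSpace B] [IsTopologicalGroup B]
        [CompactSpace B] [T2Space B]
        [Group C] [TopologicalSpace C] [IsTopologicalGroup C]
        [CompactSpace C] [T2Space C]
        (f : ContinuousMonoidHom A B) (g : ContinuousMonoidHom A C),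
        Function.Injective f → Function.Injective g →
        ∃ (D : Type) (_ : Group D) (_ : TopologicalSpace D) (_ : IsTopologicalGroup D)
          (_ : CompactSpace D) (_ : T2Space D)
          (h : ContinuousMonoidHom B D) (k : ContinuousMonoidHom C D),
          Function.Injective h ∧ Function.Injective k ∧ ∀ a : A, h (f a) = k (g a) := by
  obtain ⟨hc, n, cs, im, lg, hne⟩ := Pool.Agent.H88.lie_S3
  exact ⟨Pool.Agent.H88.S3, inferInstance, inferInstance, inferInstance, inferInstance,
    inferInstance, hc, n, cs, im, lg, hne,
    fun B C _ _ _ _ _ _ _ _ _ _ f g hf hg => Pool.Agent.H88.amalgam B C f g hf hg⟩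

end Pool.Agent.S03593
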