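import Pool.Statements.S03798
import Pool.Agent.H99.PC.Tree

set_option autoImplicit false
open scoped MeasureTheory
open Pool Pool.MP_0c60fc_an

namespace Pool.Agent.S03798


/-- evaluation of a polynomial is entire -/
lemma eval_differentiable (p : MvPolynomial (Fin 2) ℂ) :
    Differentiable ℂ (fun x : ℂ × ℂ => MvPolynomial.eval ![x.1, x.2] p) := by
  induction p using MvPolynomial.induction_on with
  | C a => simp
  | add p q hp hq => simp only [map_add]; exact hp.add hq
  | mul_X p i hp =>
    simp only [map_mul, MvPolynomial.eval_X]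
    apply hp.mul
    fin_cases i
    · simpa using differentiable_fst
    · simpa using differentiable_snd

/-- the linear homeomorphism `ℂ × ℂ ≃ EuclideanSpace ℂ (Fin 2)` -/
noncomputable def ee : (ℂ × ℂ) ≃L[ℂ] EuclideanSpace ℂ (Fin 2) :=
  (ContinuousLinearEquiv.finTwoArrow ℂ ℂ).symm.trans
    (PiLp.continuousLinearEquiv 2 ℂ (fun _ : Fin 2 => ℂ)).symm

lemma ee_apply (x : ℂ × ℂ) (i : Fin 2) : WithLp.ofLp (ee x) i = ![x.1, x.2] i := by
  simp [ee]

/-- The negation of the preceding statement: For every n, every compact totally disconnected set X in C^n with finite 1-dimensional Hausdorff measure is polynomially convex: each point outside X is separated from X by a polynomial whose modulus there exceeds its modulus everywhere on X. -/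
theorem result :
    ¬ (∀ (n : ℕ) (X : Set (EuclideanSpace ℂ (Fin n))),
      IsCompact X → IsTotallyDisconnected X → μH[1] X < ⊤ →
      ∀ z : EuclideanSpace ℂ (Fin n), z ∉ X →
        ∃ p : MvPolynomial (Fin n) ℂ,
          ∀ x ∈ X, ‖MvPolynomial.eval (fun i => WithLp.ofLp x i) p‖ <
            ‖MvPolynomial.eval (fun i => WithLp.ofLp z i) p‖) := by
  intro H
  have hc : IsCompact (ee '' Pool.Agent.H99.PC.XX) :=
    Pool.Agent.H99.PC.XX_compact.image ee.continuous
  have htd : IsTotallyDisconnected (ee '' Pool.Agent.H99.PC.XX) :=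
    (ee.toHomeomorph.isEmbedding.isTotallyDisconnected_image).2 Pool.Agent.H99.PC.XX_td
  have hlen : μH[1] (ee '' Pool.Agent.H99.PC.XX) < ⊤ := by
    have hlip : LipschitzWith ‖(ee : (ℂ × ℂ) →L[ℂ] EuclideanSpace ℂ (Fin 2))‖₊ ee :=
      (ee : (ℂ × ℂ) →L[ℂ] EuclideanSpace ℂ (Fin 2)).lipschitz
    refine lt_of_le_of_lt (hlip.hausdorffMeasure_image_le (by norm_num) _) ?_
    apply ENNReal.mul_lt_top
    · simp
    · exact Pool.Agent.H99.PC.XX_length
  have hz : ee (0, 0) ∉ ee '' Pool.Agent.H99.PC.XX := by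
    rintro ⟨x, hx, hxe⟩
    have := ee.injective hxe
    rw [this] at hx
    exact Pool.Agent.H99.PC.XX_zero hx
  obtain ⟨p, hp⟩ := H 2 _ hc htd hlen (ee (0, 0)) hz
  obtain ⟨x, hx, hle⟩ := Pool.Agent.H99.PC.XX_hull (eval_differentiable p)
  have h1 := hp (ee x) ⟨x, hx, rfl⟩
  have e1 : ∀ y : ℂ × ℂ, (fun i => WithLp.ofLp (ee y) i) = ![y.1, y.2] := by
    intro y; funext i; exact ee_apply y i
  rw [e1, e1] at h1
  exact absurd hle (not_le.2 h1)

end Pool.Agent.S03798
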