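import Pool.Statements.S03934
import Pool.Agent.H51.SM.Final

set_option autoImplicit false
open Pool Pool.MP_1785cf_an

namespace Pool.Agent.S03934

/-- The negation of the preceding statement: For 1<p<∞ and a Schauder basis of a real Banach space X: if every spreading model generated by any normalized block sequence is isometrically the ℓ_p unit vector basis, then X contains a sequence equivalent to the ℓ_p unit vector basis. -/
theorem result :
    ¬ (∀ (X : Type) [NormedAddCommGroup X] [NormedSpace ℝ X] [CompleteSpace X] (p : ℝ), 1 < p →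
  ∀ (e : ℕ → X) (f : ℕ → X →L[ℝ] ℝ),
    (∀ i j, f i (e j) = if i = j then 1 else 0) →
    (∀ x : X, Filter.Tendsto (fun n => ∑ i ∈ Finset.range n, f i x • e i) Filter.atTop (nhds x)) →
    (∀ (x : ℕ → X),
      (∃ m : ℕ → ℕ, StrictMono m ∧ ∃ c : ℕ → ℝ,
        ∀ n, x n = ∑ i ∈ Finset.Ico (m n) (m (n + 1)), c i • e i) →
      (∀ n, ‖x n‖ = 1) →
      ∀ L : (k : ℕ) → (Fin k → ℝ) → ℝ,
        (∀ (k : ℕ) (a : Fin k → ℝ), ∀ ε > 0, ∃ N : ℕ, ∀ n : Fin k → ℕ, StrictMono n →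
          (∀ i, N ≤ n i) → |‖∑ i, a i • x (n i)‖ - L k a| < ε) →
        ∀ (k : ℕ) (a : Fin k → ℝ), L k a = (∑ i, |a i| ^ p) ^ (1 / p)) →
    ∃ (y : ℕ → X) (C : ℝ), 0 < C ∧ ∀ (n : ℕ) (a : ℕ → ℝ),
      (∑ i ∈ Finset.range n, |a i| ^ p) ^ (1 / p) ≤ C * ‖∑ i ∈ Finset.range n, a i • y i‖ ∧
      ‖∑ i ∈ Finset.range n, a i • y i‖ ≤ C * (∑ i ∈ Finset.range n, |a i| ^ p) ^ (1 / p)) := by
  exact Pool.Agent.H51.SM.final

end Pool.Agent.S03934
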