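import Pool.Statements.S03954
import Pool.Agent.H45.SigmaMain

set_option autoImplicit false
open Pool Pool.MP_196b75_an

namespace Pool.Agent.S03954

open Complex Pool.Agent.H45.SigmaMain Polynomial

lemma iter_poly (p : ℂ[X]) (n : ℕ) :
    iteratedDeriv n (fun z : ℂ => p.eval z) = fun z => (derivative^[n] p).eval z := by
  induction n with
  | zero => simp
  | succ n ih =>
    rw [iteratedDeriv_succ, ih]
    funext z
    rw [Polynomial.deriv, Function.iterate_succ_apply']

lemma iter_poly_zero (p : ℂ[X]) (n : ℕ) :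
    iteratedDeriv n (fun z : ℂ => p.eval z) 0 / (n.factorial : ℂ) = p.coeff n := by
  rw [iter_poly]
  simp only
  rw [← Polynomial.coeff_zero_eq_eval_zero, Polynomial.coeff_iterate_derivative]
  have : (n.factorial : ℂ) ≠ 0 := by exact_mod_cast n.factorial_ne_zero
  simp only [zero_add, Nat.descFactorial_self, nsmul_eq_mul]
  field_simp

/-- the evaluation point -/
noncomputable def r : ℂ := 999999 / 1000000

noncomputable def L : ℂ :=
  3 * A 1 * r - 2 * I * (A 2 / 2) * r ^ 2 - I * (A 3 / 6) * r ^ 3 + (A 4 / 24) * r ^ 4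

lemma A1 : A 1 = ⟨2048/1025, 64/1025⟩ := by
  simp only [A, Finset.prod_range_succ, Finset.prod_range_zero, one_mul]
  apply Complex.ext <;> simp [mu]

lemma A2 : A 2 / 2 = ⟨3144704/1050625, 163872/1050625⟩ := by
  rw [show (2:ℕ) = 1 + 1 from rfl, A_succ, A1]
  apply Complex.ext <;> simp [mu] <;> norm_num

lemma A3 : A 3 / 6 = ⟨4292169728/1076890625, 872808512/3230671875⟩ := by
  have h2 : A 2 = 2 * ⟨3144704/1050625, 163872/1050625⟩ := by rw [← A2]; ring
  rw [show (3:ℕ) = 2 + 1 from rfl, A_succ, h2]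
  apply Complex.ext <;> simp [mu] <;> norm_num

lemma A4 : A 4 / 24 = ⟨16477624201216/3311438671875, 1323873648688/3311438671875⟩ := by
  have h3 : A 3 = 6 * ⟨4292169728/1076890625, 872808512/3230671875⟩ := by rw [← A3]; ring
  rw [show (4:ℕ) = 3 + 1 from rfl, A_succ, h3]
  apply Complex.ext <;> simp [mu] <;> norm_num

lemma L_big : 886 < 4 * ‖L‖ ^ 2 := by
  rw [Complex.sq_norm, Complex.normSq_apply]
  unfold L r
  rw [A1, A2, A3, A4]
  simp [pow_succ]
  norm_num

lemma L_ne : L ≠ 0 := by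
  intro h
  have := L_big
  rw [h] at this
  norm_num at this

/-- the polynomial `g(z) = z - (3 z^2 - 2 i z^3 - i z^4 + z^5) / L` -/
noncomputable def gp : ℂ[X] :=
  X - C (3 / L) * X ^ 2 + C (2 * I / L) * X ^ 3 + C (I / L) * X ^ 4 - C (1 / L) * X ^ 5

lemma gp_eval (z : ℂ) : gp.eval z =
    z - (1 / L) * (3 * z ^ 2 - 2 * I * z ^ 3 - I * z ^ 4 + z ^ 5) := by
  simp only [gp, eval_add, eval_sub, eval_mul, eval_C, eval_X, eval_pow]
  ring

lemma gp_deriv (z : ℂ) : deriv (fun w : ℂ => gp.eval w) z =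
    1 - (1 / L) * (6 * z - 6 * I * z ^ 2 - 4 * I * z ^ 3 + 5 * z ^ 4) := by
  rw [Polynomial.deriv]
  simp only [gp, derivative_add, derivative_sub, derivative_mul, derivative_C, derivative_X,
    derivative_X_pow, eval_add, eval_sub, eval_mul, eval_C, eval_X, eval_pow, eval_one, eval_zero,
    Nat.cast_ofNat]
  ring

lemma gp_coeff (n : ℕ) : gp.coeff n = (if 1 = n then 1 else 0) - (3 / L) * (if n = 2 then 1 else 0)
    + (2 * I / L) * (if n = 3 then 1 else 0) + (I / L) * (if n = 4 then 1 else 0)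
    - (1 / L) * (if n = 5 then 1 else 0) := by
  simp only [gp, coeff_add, coeff_sub, coeff_C_mul, coeff_X_pow, coeff_X]

lemma gp_coeff0 : gp.coeff 0 = 0 := by rw [gp_coeff]; norm_num
lemma gp_coeff1 : gp.coeff 1 = 1 := by rw [gp_coeff]; norm_num
lemma gp_coeff2 : gp.coeff 2 = - (3 / L) := by rw [gp_coeff]; norm_num
lemma gp_coeff3 : gp.coeff 3 = 2 * I / L := by rw [gp_coeff]; norm_num
lemma gp_coeff4 : gp.coeff 4 = I / L := by rw [gp_coeff]; norm_num
lemma gp_coeff5 : gp.coeff 5 = - (1 / L) := by rw [gp_coeff]; norm_num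
lemma gp_coeff_big (n : ℕ) (hn : 6 ≤ n) : gp.coeff n = 0 := by
  have h1 : (1:ℕ) ≠ n := by omega
  have h2 : n ≠ 2 := by omega
  have h3 : n ≠ 3 := by omega
  have h4 : n ≠ 4 := by omega
  have h5 : n ≠ 5 := by omega
  rw [gp_coeff]
  simp [h1, h2, h3, h4, h5]

/-- The negation of the preceding statement: Every normalized analytic g on the unit disk with ∣(g'−1)−(g−z)/z∣+∣(g'−1)+(g−z)/z∣<2 throughout the disk has Hadamard product with every normalized univalent h nonvanishing for 0<∣z∣<1. -/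
theorem result :
    ¬ (∀ g : ℂ → ℂ, DifferentiableOn ℂ g (Metric.ball (0 : ℂ) 1) → g 0 = 0 → deriv g 0 = 1 →
      (∀ z : ℂ, z ∈ Metric.ball (0 : ℂ) 1 → z ≠ 0 →
        ‖(deriv g z - 1) - (g z - z) / z‖ + ‖(deriv g z - 1) + (g z - z) / z‖ < 2) →
      ∀ h : ℂ → ℂ, DifferentiableOn ℂ h (Metric.ball (0 : ℂ) 1) → h 0 = 0 → deriv h 0 = 1 →
        Set.InjOn h (Metric.ball (0 : ℂ) 1) →
        ∀ z : ℂ, 0 < ‖z‖ → ‖z‖ < 1 →
          (∑' n : ℕ, (iteratedDeriv n g 0 / (n.factorial : ℂ)) *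
              (iteratedDeriv n h 0 / (n.factorial : ℂ)) * z ^ n) ≠ 0) := by
  intro H
  have hr : ‖r‖ = 999999 / 1000000 := by
    unfold r
    rw [norm_div]
    simp
  refine H (fun z => gp.eval z) ?_ ?_ ?_ ?_ hh hh_diff (by simp [hh]) ?_ hh_inj r ?_ ?_ ?_
  · exact gp.differentiable.differentiableOn
  · simp [gp_eval]
  · rw [gp_deriv]; simp
  · intro z hz hz0
    have hz' : ‖z‖ < 1 := by simpa using hz
    rw [gp_deriv, gp_eval]
    have e1 : (1 - (1 / L) * (6 * z - 6 * I * z ^ 2 - 4 * I * z ^ 3 + 5 * z ^ 4) - 1) -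
        (z - (1 / L) * (3 * z ^ 2 - 2 * I * z ^ 3 - I * z ^ 4 + z ^ 5) - z) / z
        = - (1 / L) * (z * U z) := by
      unfold U
      field_simp
      ring
    have e2 : (1 - (1 / L) * (6 * z - 6 * I * z ^ 2 - 4 * I * z ^ 3 + 5 * z ^ 4) - 1) +
        (z - (1 / L) * (3 * z ^ 2 - 2 * I * z ^ 3 - I * z ^ 4 + z ^ 5) - z) / z
        = - (1 / L) * (z * V z) := by
      unfold V
      field_simp
      ring
    rw [e1, e2, norm_mul _ (z * U z), norm_mul _ (z * V z), ← mul_add, norm_neg, norm_div, norm_one]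
    have hb := disc_bound z hz'
    have hL := L_big
    have hLpos : 0 < ‖L‖ := norm_pos_iff.mpr L_ne
    rw [one_div, inv_mul_lt_iff₀ hLpos]
    apply lt_of_pow_lt_pow_left₀ 2 (by positivity)
    calc (‖z * U z‖ + ‖z * V z‖) ^ 2 ≤ 886 := hb
      _ < 4 * ‖L‖ ^ 2 := hL
      _ = (‖L‖ * 2) ^ 2 := by ring
  · have := hh_coeff 0
    rw [zero_add, iteratedDeriv_one] at this
    rw [this]; simp [A]
  · rw [hr]; norm_num
  · rw [hr]; norm_num
  · -- the Hadamard product vanishes at r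
    rw [tsum_eq_sum (s := Finset.range 6)]
    · simp only [iter_poly_zero]
      rw [Finset.sum_range_succ, Finset.sum_range_succ, Finset.sum_range_succ, Finset.sum_range_succ,
        Finset.sum_range_succ, Finset.sum_range_one]
      have c1 := hh_coeff 0
      have c2 := hh_coeff 1
      have c3 := hh_coeff 2
      have c4 := hh_coeff 3
      have c5 := hh_coeff 4
      norm_num at c1 c2 c3 c4 c5
      rw [gp_coeff0, gp_coeff1, gp_coeff2, gp_coeff3, gp_coeff4, gp_coeff5, c2, c3, c4, c5]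
      have c1' : iteratedDeriv 1 hh 0 = 1 := by rw [iteratedDeriv_one, c1]; simp [A]
      rw [c1']
      simp only [Nat.factorial]
      have hL := L_ne
      have hLdef : L = 3 * A 1 * r - 2 * I * (A 2 / 2) * r ^ 2 - I * (A 3 / 6) * r ^ 3
        + (A 4 / 24) * r ^ 4 := rfl
      push_cast
      field_simp
      rw [hLdef]
      ring
    · intro n hn
      have hn' : 6 ≤ n := by simpa using hn
      rw [iter_poly_zero, gp_coeff_big n hn']
      ring

end Pool.Agent.S03954
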