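import Pool.Statements.S03980
import Pool.Agent.H46.Conj

set_option autoImplicit false
open Topology Asymptotics
open Pool Pool.MP_1bbffc_an

namespace Pool.Agent.S03980

/-- The negation of the preceding statement: If a holomorphic germ f(z)=z+P(z)+O(∣z∣^(ν+1)) in ℂⁿ, with P homogeneous of degree ν≥2 and P(v)=cv, v≠0 forcing c≠0, then a local homeomorphism h fixing 0 conjugates f to the time-1 flow map of ż=P(z). -/
theorem result :
    ¬ (∀ (n ν : ℕ) (f : (Fin n → ℂ) → (Fin n → ℂ)) (Q : Fin n → MvPolynomial (Fin n) ℂ),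
      2 ≤ ν →
      AnalyticAt ℂ f 0 →
      f 0 = 0 →
      (∀ i, (Q i).IsHomogeneous ν) →
      (fun z : Fin n → ℂ => f z - z - (fun i => MvPolynomial.eval z (Q i)))
        =O[𝓝 0] (fun z : Fin n → ℂ => ‖z‖ ^ (ν + 1)) →
      (∀ (v : Fin n → ℂ) (c : ℂ), v ≠ 0 →
        (fun i => MvPolynomial.eval v (Q i)) = c • v → c ≠ 0) →
      ∃ (U V : Set (Fin n → ℂ)) (h k : (Fin n → ℂ) → (Fin n → ℂ)),
        IsOpen U ∧ IsOpen V ∧ (0 : Fin n → ℂ) ∈ U ∧ h 0 = 0 ∧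
        ContinuousOn h U ∧ ContinuousOn k V ∧
        Set.MapsTo h U V ∧ Set.MapsTo k V U ∧
        Set.LeftInvOn k h U ∧ Set.RightInvOn k h V ∧
        ∀ᶠ z in 𝓝 (0 : Fin n → ℂ),
          ∃ γ : ℝ → (Fin n → ℂ), γ 0 = h z ∧ γ 1 = h (f z) ∧
            ∀ t ∈ Set.Icc (0 : ℝ) 1,
              HasDerivWithinAt γ (fun i => MvPolynomial.eval (γ t) (Q i)) (Set.Icc 0 1) t) := by
  intro H
  obtain ⟨U, V, h, k, hU, hV, h0U, hh0, -, hkc, hhUV, -, hleft, hright, hconj⟩ :=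
    H 2 3 Pool.Agent.H46.hen Pool.Agent.H46.vfQ (by norm_num) Pool.Agent.H46.hen_analyticAt
      Pool.Agent.H46.hen_map_zero Pool.Agent.H46.vfQ_hom Pool.Agent.H46.hen_isBigO
      Pool.Agent.H46.vf_nondeg
  simp only [Pool.Agent.H46.eval_vfQ] at hconj
  exact Pool.Agent.H46.not_conj U V h k hU hV h0U hh0 hkc hhUV hleft hright hconj

end Pool.Agent.S03980
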