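import Pool.Statements.S04098
import Pool.Agent.H46.BeadMain

set_option autoImplicit false
open Pool Pool.MP_268976_an

namespace Pool.Agent.S04098

/-- The negation of the preceding statement: For a Jacobi operator with positive off-diagonals a, diagonal b tending to infinity, a_n^2/(b_n b_{n+1}) tending to 1/4 and zero deficiency: if its essential spectrum has a least point ρ, then the essential spectrum equals [ρ, ∞). -/
theorem result :
    ¬ (∀ (a b : ℕ → ℝ), (∀ n, 0 < a n) →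
      Filter.Tendsto b Filter.atTop Filter.atTop →
      Filter.Tendsto (fun n => a n ^ 2 / (b n * b (n + 1))) Filter.atTop (nhds (1 / 4 : ℝ)) →
      (∀ u : ℕ → ℂ, Summable (fun k => ‖u k‖ ^ 2) →
        (∀ k : ℕ, (if k = 0 then (0 : ℂ) else (a (k - 1) : ℂ) * u (k - 1))
            + (b k : ℂ) * u k + (a k : ℂ) * u (k + 1) = Complex.I * u k) → u = 0) →
      ∀ S : Set ℝ,
        S = {t : ℝ | ∀ ε : ℝ, 0 < ε → ∀ n : ℕ, ∃ V : Submodule ℂ (ℕ →₀ ℂ),
              Module.finrank ℂ V = n ∧ ∀ x ∈ V,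
                ∑' k : ℕ, ‖(if k = 0 then (0 : ℂ) else (a (k - 1) : ℂ) * x (k - 1))
                    + (b k : ℂ) * x k + (a k : ℂ) * x (k + 1) - (t : ℂ) * x k‖ ^ 2
                  ≤ ε ^ 2 * ∑' k : ℕ, ‖x k‖ ^ 2} →
        ∀ ρ : ℝ, IsLeast S ρ → S = Set.Ici ρ) := by
  intro H
  have h := H Pool.Agent.H46.ja Pool.Agent.H46.jb Pool.Agent.H46.ja_pos
    Pool.Agent.H46.jb_tendsto
    (by
      simp only [Pool.Agent.H46.ratio_eq]
      exact tendsto_const_nhds)
    Pool.Agent.H46.selfadj Pool.Agent.H46.essSet rfl 0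
    ⟨Pool.Agent.H46.zero_mem_essSet, fun t ht => Pool.Agent.H46.essSet_nonneg t ht⟩
  have h1 : (1 : ℝ) ∈ Pool.Agent.H46.essSet := by
    rw [h]
    exact Set.mem_Ici.mpr zero_le_one
  exact Pool.Agent.H46.one_not_mem_essSet h1

end Pool.Agent.S04098
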