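import Pool.Statements.S04332
import Pool.Agent.H47.BiebCoeff

set_option autoImplicit false
open Pool Pool.MP_36a5e2_an

namespace Pool.Agent.S04332

/-- The negation of the preceding statement: For every map f of the unit ball of C^2 that starts a Loewner chain F(.,t) with e^(-t)F(.,t) locally uniformly bounded, and every m at least 3, the coefficient of z1^m in the first component of f has modulus at most m. -/
theorem result :
    ¬ (∀ f : EuclideanSpace ℂ (Fin 2) → EuclideanSpace ℂ (Fin 2),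
      (∃ F : ℝ → EuclideanSpace ℂ (Fin 2) → EuclideanSpace ℂ (Fin 2),
        (∀ z, F 0 z = f z) ∧
        (∀ t : ℝ, 0 ≤ t →
          DifferentiableOn ℂ (F t) (Metric.ball (0 : EuclideanSpace ℂ (Fin 2)) 1) ∧
          Set.InjOn (F t) (Metric.ball (0 : EuclideanSpace ℂ (Fin 2)) 1) ∧
          F t 0 = 0 ∧
          fderiv ℂ (F t) 0 =
            ((Real.exp t : ℝ) : ℂ) • ContinuousLinearMap.id ℂ (EuclideanSpace ℂ (Fin 2))) ∧
        (∀ s t : ℝ, 0 ≤ s → s ≤ t →
          F s '' Metric.ball (0 : EuclideanSpace ℂ (Fin 2)) 1 ⊆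
            F t '' Metric.ball (0 : EuclideanSpace ℂ (Fin 2)) 1) ∧
        (∀ r : ℝ, r < 1 → ∃ C : ℝ, ∀ t : ℝ, 0 ≤ t →
          ∀ z : EuclideanSpace ℂ (Fin 2), ‖z‖ ≤ r → ‖F t z‖ ≤ C * Real.exp t)) →
      ∀ m : ℕ, 3 ≤ m →
        ‖EuclideanSpace.proj (0 : Fin 2)
            (iteratedFDeriv ℂ m f 0 (fun _ => EuclideanSpace.single (0 : Fin 2) (1 : ℂ)))‖
          / (m.factorial : ℝ) ≤ (m : ℝ)) := by
  intro H
  have h := H (Pool.Agent.H47.chain 0) ⟨Pool.Agent.H47.chain, fun _ => rfl,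
    fun t _ => ⟨Pool.Agent.H47.chain_differentiableOn t, Pool.Agent.H47.chain_injOn t,
      Pool.Agent.H47.chain_zero t, Pool.Agent.H47.chain_fderiv t⟩,
    fun s t _ hst => Pool.Agent.H47.chain_image s t hst,
    fun r hr => Pool.Agent.H47.chain_bound r hr⟩ 3 le_rfl
  rw [show (fun _ => EuclideanSpace.single (0 : Fin 2) (1 : ℂ) : Fin 3 →
    EuclideanSpace ℂ (Fin 2)) = fun _ => Pool.Agent.H47.e0 from rfl,
    Pool.Agent.H47.coeff_eq] at h
  have e : (15 / 4 * (1 - 291 / 50) : ℂ) = ((-(723 / 40) : ℝ) : ℂ) := by push_cast; norm_num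
  rw [e, Complex.norm_real, Real.norm_eq_abs, abs_neg, abs_of_pos (by norm_num)] at h
  norm_num [Nat.factorial] at h

end Pool.Agent.S04332
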