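import Pool.Statements.S04488
import Pool.Agent.H48.Natural

set_option autoImplicit false
open MeasureTheory
open Pool Pool.MP_42c941_an

namespace Pool.Agent.S04488

open Pool.Agent.H48 in
theorem main_aux :
    ¬ (∀ (Γ : Type) [Group Γ], Group.FG Γ →
    (∀ (F : Finset Γ) (ε : ℝ), 0 < ε → ∃ S : Finset Γ, S.Nonempty ∧
        ∀ g ∈ F, ((((fun x => g * x) '' (S : Set Γ)) \ (S : Set Γ)).ncard : ℝ) < ε * (S.card : ℝ)) →
    {a : {a : Γ → C(ℕ → Bool, ℕ → Bool) //
          a 1 = ContinuousMap.id (ℕ → Bool) ∧ ∀ g h : Γ, a (g * h) = (a g).comp (a h)} |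
      IsClosed {ν : {μ : ProbabilityMeasure (ℕ → Bool) //
                  ∀ g : Γ, (μ : Measure (ℕ → Bool)).map (⇑(a.1 g)) = (μ : Measure (ℕ → Bool))} |
        ∀ s : Set (ℕ → Bool), MeasurableSet s → (∀ g : Γ, ⇑(a.1 g) ⁻¹' s = s) →
          (ν.1 : Measure (ℕ → Bool)) s = 0 ∨ (ν.1 : Measure (ℕ → Bool)) s = 1}} ∈ residual _) := by
  intro hall
  obtain ⟨X, hcl, hne, hX, hC⟩ := exists_subshift
  have hres := hall (Gam hX) (gam_fg hX) (gam_folner hX)
  have hcount : Countable (Gam hX) := by
    have : (Set.univ : Set (Gam hX)) ⊆ ⋃ k : ℤ, ⋃ R : ℕ, tile hX k R := by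
      intro g _
      obtain ⟨R, hR⟩ := exists_tile hX g
      exact Set.mem_iUnion₂.2 ⟨_, R, hR⟩
    rw [← Set.countable_univ_iff]
    exact (Set.countable_iUnion fun k => Set.countable_iUnion fun R =>
      (tile_finite hX k R).countable).mono this
  have hbaire := baireSpace_act (Gam hX)
  have hdense := dense_of_mem_residual hres
  -- the natural action
  have hXc : CompactSpace X := isCompact_iff_compactSpace.1 hcl.isCompact
  have hXn : Nonempty X := hne.to_subtype
  obtain ⟨h⟩ := exists_homeo_prod (Sp X)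
  set P : (ℕ → Bool) → Lab := fun y =>
    ((h.symm y).1.1.1 0, (h.symm y).1.2.1, (h.symm y).1.2.2) with hP
  have hc0 : Continuous fun y => (h.symm y).1 := continuous_fst.comp h.symm.continuous
  have hci : Continuous fun y => (h.symm y).1.1.1 0 :=
    (continuous_apply (A := fun _ : ℤ => Bool) 0).comp
      (continuous_subtype_val.comp (continuous_fst.comp hc0))
  have hcf : Continuous fun y => (h.symm y).1.2.1 :=
    continuous_fst.comp (continuous_snd.comp hc0)
  have hcf' : Continuous fun y => (h.symm y).1.2.2 :=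
    continuous_snd.comp (continuous_snd.comp hc0)
  have hPc : Continuous P := hci.prodMk (hcf.prodMk hcf')
  -- the open set
  have hopen : IsOpen {a : {a : Gam hX → C(ℕ → Bool, ℕ → Bool) //
      a 1 = ContinuousMap.id (ℕ → Bool) ∧ ∀ g h : Gam hX, a (g * h) = (a g).comp (a h)} |
      (∀ y, lrel (Sum.inl ()) (P y) (P (a.1 (gT hX) y))) ∧
      (∀ j σ y, lrel (Sum.inr (Sum.inl (j, σ))) (P y) (P (a.1 (gS hX j σ) y))) ∧
      (∀ j y, lrel (Sum.inr (Sum.inr j)) (P y) (P (a.1 (gR hX j) y)))} := by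
    have hev : ∀ g : Gam hX, Continuous fun a : {a : Gam hX → C(ℕ → Bool, ℕ → Bool) //
        a 1 = ContinuousMap.id (ℕ → Bool) ∧ ∀ g h : Gam hX, a (g * h) = (a g).comp (a h)} =>
        a.1 g := fun g =>
      (continuous_apply (A := fun _ : Gam hX => C(ℕ → Bool, ℕ → Bool)) g).comp
        continuous_subtype_val
    refine IsOpen.inter ?_ (IsOpen.inter ?_ ?_)
    · exact (isOpen_rel P hPc _).preimage (hev (gT hX))
    · have : {a : {a : Gam hX → C(ℕ → Bool, ℕ → Bool) //
          a 1 = ContinuousMap.id (ℕ → Bool) ∧ ∀ g h : Gam hX, a (g * h) = (a g).comp (a h)} |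
          ∀ j σ y, lrel (Sum.inr (Sum.inl (j, σ))) (P y) (P (a.1 (gS hX j σ) y))} =
          ⋂ j, ⋂ σ, {a : {a : Gam hX → C(ℕ → Bool, ℕ → Bool) //
          a 1 = ContinuousMap.id (ℕ → Bool) ∧ ∀ g h : Gam hX, a (g * h) = (a g).comp (a h)} |
          ∀ y, lrel (Sum.inr (Sum.inl (j, σ))) (P y) (P (a.1 (gS hX j σ) y))} := by
        ext a; simp only [Set.mem_iInter]; rfl
      change IsOpen {a : {a : Gam hX → C(ℕ → Bool, ℕ → Bool) //
          a 1 = ContinuousMap.id (ℕ → Bool) ∧ ∀ g h : Gam hX, a (g * h) = (a g).comp (a h)} |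
          ∀ j σ y, lrel (Sum.inr (Sum.inl (j, σ))) (P y) (P (a.1 (gS hX j σ) y))}
      rw [this]
      exact isOpen_iInter_of_finite fun j => isOpen_iInter_of_finite fun σ =>
        (isOpen_rel P hPc _).preimage (hev (gS hX j σ))
    · have : {a : {a : Gam hX → C(ℕ → Bool, ℕ → Bool) //
          a 1 = ContinuousMap.id (ℕ → Bool) ∧ ∀ g h : Gam hX, a (g * h) = (a g).comp (a h)} |
          ∀ j y, lrel (Sum.inr (Sum.inr j)) (P y) (P (a.1 (gR hX j) y))} =
          ⋂ j, {a : {a : Gam hX → C(ℕ → Bool, ℕ → Bool) //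
          a 1 = ContinuousMap.id (ℕ → Bool) ∧ ∀ g h : Gam hX, a (g * h) = (a g).comp (a h)} |
          ∀ y, lrel (Sum.inr (Sum.inr j)) (P y) (P (a.1 (gR hX j) y))} := by
        ext a; simp only [Set.mem_iInter]; rfl
      change IsOpen {a : {a : Gam hX → C(ℕ → Bool, ℕ → Bool) //
          a 1 = ContinuousMap.id (ℕ → Bool) ∧ ∀ g h : Gam hX, a (g * h) = (a g).comp (a h)} |
          ∀ j y, lrel (Sum.inr (Sum.inr j)) (P y) (P (a.1 (gR hX j) y))}
      rw [this]
      exact isOpen_iInter_of_finite fun j => (isOpen_rel P hPc _).preimage (hev (gR hX j))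
  -- the natural action belongs to the open set
  obtain ⟨a, ⟨ha1, ha2, ha3⟩, hacl⟩ := hdense.inter_open_nonempty _ hopen
    ⟨⟨natAct hX h, natAct_one hX h, natAct_mul hX h⟩, by
      refine ⟨fun y => ?_, fun j σ y => ?_, fun j y => ?_⟩
      · constructor
        · change (h.symm (h (_, _))).1.2.1 = (h.symm y).1.2.1
          rw [Homeomorph.symm_apply_apply]
          rfl
        · change (h.symm (h (_, _))).1.2.2 = (h.symm y).1.2.2
          rw [Homeomorph.symm_apply_apply]
          rfl
      · constructor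
        · change (h.symm (h (_, _))).1.2.1 = if (h.symm y).1.1.1 0 = j then σ (h.symm y).1.2.1 else
            (h.symm y).1.2.1
          rw [Homeomorph.symm_apply_apply]
          change (ee 0 j σ (h.symm y).1.1) (h.symm y).1.2.1 = _
          unfold ee
          split_ifs <;> rfl
        · change (h.symm (h (_, _))).1.2.2 = (h.symm y).1.2.2
          rw [Homeomorph.symm_apply_apply]
          rfl
      · constructor
        · change (h.symm (h (_, _))).1.2.1 = (h.symm y).1.2.1
          rw [Homeomorph.symm_apply_apply]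
          rfl
        · change (h.symm (h (_, _))).1.2.2 = if (h.symm y).1.1.1 0 = j then !(h.symm y).1.2.2 else
            (h.symm y).1.2.2
          rw [Homeomorph.symm_apply_apply]
          change (ee' 0 j (h.symm y).1.1) (h.symm y).1.2.2 = _
          unfold ee'
          split_ifs <;> rfl⟩
  refine not_closed hX hcl hC a.1 a.2.1 a.2.2 (fun y => (P y).1) (fun y => (P y).2.1)
    (fun y => (P y).2.2) ?_ hci hacl
  let _ := actOf a.1 a.2.1 a.2.2
  exact
    { T_f := fun y => (ha1 y).1
      T_f' := fun y => (ha1 y).2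
      S_f := fun j σ y => (ha2 j σ y).1
      S_f' := fun j σ y => (ha2 j σ y).2
      R_f := fun j y => (ha3 j y).1
      R_f' := fun j y => (ha3 j y).2 }

/-- The negation of the preceding statement: For every finitely generated group with Følner sets, comeager many continuous actions on Cantor space have the set of ergodic invariant probability measures closed in the space of invariant probability measures (weak topology). -/
theorem result :
    ¬ (∀ (Γ : Type) [Group Γ], Group.FG Γ →
    (∀ (F : Finset Γ) (ε : ℝ), 0 < ε → ∃ S : Finset Γ, S.Nonempty ∧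
        ∀ g ∈ F, ((((fun x => g * x) '' (S : Set Γ)) \ (S : Set Γ)).ncard : ℝ) < ε * (S.card : ℝ)) →
    {a : {a : Γ → C(ℕ → Bool, ℕ → Bool) //
          a 1 = ContinuousMap.id (ℕ → Bool) ∧ ∀ g h : Γ, a (g * h) = (a g).comp (a h)} |
      IsClosed {ν : {μ : ProbabilityMeasure (ℕ → Bool) //
                  ∀ g : Γ, (μ : Measure (ℕ → Bool)).map (⇑(a.1 g)) = (μ : Measure (ℕ → Bool))} |
        ∀ s : Set (ℕ → Bool), MeasurableSet s → (∀ g : Γ, ⇑(a.1 g) ⁻¹' s = s) →
          (ν.1 : Measure (ℕ → Bool)) s = 0 ∨ (ν.1 : Measure (ℕ → Bool)) s = 1}} ∈ residual _) := by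
  exact main_aux

end Pool.Agent.S04488
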