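import Pool.Statements.S05544
import Pool.Agent.H28.Sum.Main

set_option autoImplicit false
open Pool Pool.MP_9cd69f_an

namespace Pool.Agent.S05544

/-- The negation of the preceding statement: On a real Banach space, take A a maximally monotone operator into the dual whose graph is a linear subspace, and B maximally monotone, with the positive cone of dom A minus dom B equal to the whole space; then A+B is maximally monotone. -/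
theorem result :
    ¬ (∀ (X : Type) [NormedAddCommGroup X] [NormedSpace ℝ X] [CompleteSpace X]
    (A B : X → Set (X →L[ℝ] ℝ)),
    (∃ S : Submodule ℝ (X × (X →L[ℝ] ℝ)), ∀ (x : X) (f : X →L[ℝ] ℝ), f ∈ A x ↔ (x, f) ∈ S) →
    ((∀ (x y : X) (f g : X →L[ℝ] ℝ), f ∈ A x → g ∈ A y → 0 ≤ (f - g) (x - y)) ∧
      (∀ (x : X) (f : X →L[ℝ] ℝ),
        (∀ (y : X) (g : X →L[ℝ] ℝ), g ∈ A y → 0 ≤ (f - g) (x - y)) → f ∈ A x)) →
    ((∀ (x y : X) (f g : X →L[ℝ] ℝ), f ∈ B x → g ∈ B y → 0 ≤ (f - g) (x - y)) ∧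
      (∀ (x : X) (f : X →L[ℝ] ℝ),
        (∀ (y : X) (g : X →L[ℝ] ℝ), g ∈ B y → 0 ≤ (f - g) (x - y)) → f ∈ B x)) →
    (∀ z : X, ∃ t : ℝ, 0 < t ∧ ∃ a b : X, (A a).Nonempty ∧ (B b).Nonempty ∧ z = t • (a - b)) →
    ((∀ (x y : X) (f g : X →L[ℝ] ℝ),
        (∃ f₁ ∈ A x, ∃ f₂ ∈ B x, f = f₁ + f₂) →
        (∃ g₁ ∈ A y, ∃ g₂ ∈ B y, g = g₁ + g₂) → 0 ≤ (f - g) (x - y)) ∧
      (∀ (x : X) (f : X →L[ℝ] ℝ),
        (∀ (y : X) (g : X →L[ℝ] ℝ), (∃ g₁ ∈ A y, ∃ g₂ ∈ B y, g = g₁ + g₂) →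
          0 ≤ (f - g) (x - y)) →
        ∃ f₁ ∈ A x, ∃ f₂ ∈ B x, f = f₁ + f₂))) := by
  exact Pool.Agent.H28.Sum.counterexample

end Pool.Agent.S05544
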