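import Pool.Statements.S05864
import Pool.Agent.H50.RC.Main

set_option autoImplicit false
open Pool Pool.MP_b365ef_an

namespace Pool.Agent.S05864

/-- The negation of the preceding statement: For every infinite subset M of the Euclidean plane with base point p, the space of Lipschitz functions on M vanishing at p is linearly isomorphic, with bounded map and inverse, to Lip_0 of the real line or to Lip_0 of the plane. -/
theorem result :
    ¬ (∀ (M : Set (EuclideanSpace ℝ (Fin 2))), M.Infinite → ∀ p : ↥M,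
      (∃ T : (↥M → ℝ) → (ℝ → ℝ), ∃ C c : NNReal,
        (∀ f g : ↥M → ℝ, (∃ K : NNReal, LipschitzWith K f) → f p = 0 →
            (∃ K : NNReal, LipschitzWith K g) → g p = 0 → T (f + g) = T f + T g) ∧
        (∀ (a : ℝ) (f : ↥M → ℝ), (∃ K : NNReal, LipschitzWith K f) → f p = 0 →
            T (a • f) = a • T f) ∧
        (∀ f : ↥M → ℝ, (∃ K : NNReal, LipschitzWith K f) → f p = 0 → T f 0 = 0) ∧
        (∀ (f : ↥M → ℝ) (K : NNReal), f p = 0 → LipschitzWith K f →
            LipschitzWith (C * K) (T f)) ∧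
        (∀ (f : ↥M → ℝ) (K : NNReal), f p = 0 → (∃ K' : NNReal, LipschitzWith K' f) →
            LipschitzWith K (T f) → LipschitzWith (c * K) f) ∧
        (∀ g : ℝ → ℝ, (∃ K : NNReal, LipschitzWith K g) → g 0 = 0 →
            ∃ f : ↥M → ℝ, (∃ K : NNReal, LipschitzWith K f) ∧ f p = 0 ∧ T f = g)) ∨
      (∃ T : (↥M → ℝ) → (EuclideanSpace ℝ (Fin 2) → ℝ), ∃ C c : NNReal,
        (∀ f g : ↥M → ℝ, (∃ K : NNReal, LipschitzWith K f) → f p = 0 →
            (∃ K : NNReal, LipschitzWith K g) → g p = 0 → T (f + g) = T f + T g) ∧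
        (∀ (a : ℝ) (f : ↥M → ℝ), (∃ K : NNReal, LipschitzWith K f) → f p = 0 →
            T (a • f) = a • T f) ∧
        (∀ f : ↥M → ℝ, (∃ K : NNReal, LipschitzWith K f) → f p = 0 → T f 0 = 0) ∧
        (∀ (f : ↥M → ℝ) (K : NNReal), f p = 0 → LipschitzWith K f →
            LipschitzWith (C * K) (T f)) ∧
        (∀ (f : ↥M → ℝ) (K : NNReal), f p = 0 → (∃ K' : NNReal, LipschitzWith K' f) →
            LipschitzWith K (T f) → LipschitzWith (c * K) f) ∧
        (∀ g : EuclideanSpace ℝ (Fin 2) → ℝ, (∃ K : NNReal, LipschitzWith K g) → g 0 = 0 →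
            ∃ f : ↥M → ℝ, (∃ K : NNReal, LipschitzWith K f) ∧ f p = 0 ∧ T f = g))) := by
  intro h
  have p : H50LP.strip H50RC.cA := ⟨WithLp.toLp 2 ![0, 0], by
    show (WithLp.toLp 2 ![(0 : ℝ), 0] : EuclideanSpace ℝ (Fin 2)) 1 ∈ H50RC.cA
    exact H50RC.cA0.2⟩
  have hinf : (H50LP.strip H50RC.cA).Infinite := by
    refine Set.infinite_of_injective_forall_mem
      (f := fun n : ℕ => (WithLp.toLp 2 ![(n : ℝ), 0] : EuclideanSpace ℝ (Fin 2))) ?_ ?_
    · intro a b hab
      have h1 := congrArg (fun z : EuclideanSpace ℝ (Fin 2) => z 0) hab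
      simpa using h1
    · intro n
      exact H50RC.cA0.2
  rcases h (H50LP.strip H50RC.cA) hinf p with h1 | h1
  · exact H50RC.not_lipIso_line p (H50RC.lipIso_of_frozen _ p ℝ 0 h1)
  · exact H50RC.not_lipIso_plane p (H50RC.lipIso_of_frozen _ p (EuclideanSpace ℝ (Fin 2)) 0 h1)

end Pool.Agent.S05864
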