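import Pool.Statements.S06114
import Pool.Agent.H55.Sim7
import Pool.Agent.H55.SimBan
import Pool.Agent.H55.SimEx

set_option autoImplicit false
open MeasureTheory Filter Topology
open scoped InnerProductSpace BoundedContinuousFunction
open Pool Pool.MP_c88e0f_an

namespace Pool.Agent.S06114

/-- The negation of the preceding statement: If T is a power bounded C_11 Hilbert space operator and its unitary asymptote W (built from any Banach limit, with XT = WX and ‖Xx‖² = L(‖Tⁿx‖²)) has singular spectral measures, then T is similar to W. -/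
theorem result :
    ¬ (∀ (H : Type) [NormedAddCommGroup H] [InnerProductSpace ℂ H] [CompleteSpace H]
    (T : H →L[ℂ] H),
    (∃ C : ℝ, ∀ n : ℕ, ‖T ^ n‖ ≤ C) →
    (∀ x : H, x ≠ 0 → ¬ Tendsto (fun n : ℕ => (T ^ n) x) atTop (𝓝 0)) →
    (∀ x : H, x ≠ 0 →
      ¬ Tendsto (fun n : ℕ => (ContinuousLinearMap.adjoint T ^ n) x) atTop (𝓝 0)) →
    ∀ L : (ℕ →ᵇ ℝ) →L[ℝ] ℝ,
    (∀ f : ℕ →ᵇ ℝ, (∀ n, 0 ≤ f n) → 0 ≤ L f) →
    L (BoundedContinuousFunction.const ℕ (1 : ℝ)) = 1 →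
    (∀ f g : ℕ →ᵇ ℝ, (∀ n, g n = f (n + 1)) → L g = L f) →
    ∀ (K : Type) [NormedAddCommGroup K] [InnerProductSpace ℂ K] [CompleteSpace K]
      (W : K →L[ℂ] K) (X : H →L[ℂ] K),
      W ∈ unitary (K →L[ℂ] K) → DenseRange X → X.comp T = W.comp X →
      (∀ (x : H) (f : ℕ →ᵇ ℝ), (∀ n, f n = ‖(T ^ n) x‖ ^ 2) → ‖X x‖ ^ 2 = L f) →
      (∀ (y : K) (μ : Measure ℂ), IsFiniteMeasure μ →
        μ (Metric.sphere (0 : ℂ) 1)ᶜ = 0 →
        (∀ n : ℕ, ∫ z, z ^ n ∂μ = ⟪y, (W ^ n) y⟫_ℂ) →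
        μ ⟂ₘ Measure.map (fun t : ℝ => Complex.exp ((t : ℂ) * Complex.I))
          (volume.restrict (Set.Ioc 0 (2 * Real.pi)))) →
      ∃ S : H ≃L[ℂ] K, ∀ v : H, S (T v) = W (S v)) := by
  intro Hall
  -- the parameters
  let s : ℕ → ℝ := fun i => 1 / ((i : ℝ) + 2)
  let c : ℕ → ℝ := fun i => Real.sqrt (1 - s i ^ 2)
  have hs0 : ∀ i, 0 < s i := fun i => by positivity
  have hs1 : ∀ i, s i ≤ 1 / 2 := by
    intro i
    apply one_div_le_one_div_of_le (by norm_num)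
    have : (0 : ℝ) ≤ i := Nat.cast_nonneg i
    linarith
  have hc2 : ∀ i, c i ^ 2 = 1 - s i ^ 2 := by
    intro i
    apply Real.sq_sqrt
    have := hs0 i
    have := hs1 i
    nlinarith
  have hsc : ∀ i, s i < c i := by
    intro i
    apply Real.lt_sqrt_of_sq_lt
    have := hs0 i
    have := hs1 i
    nlinarith
  have hslim : Tendsto s atTop (𝓝 0) := by
    have h1 : Tendsto (fun i : ℕ => (i : ℝ) + 2) atTop atTop :=
      tendsto_atTop_add_const_right _ _ tendsto_natCast_atTop_atTop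
    have h2 := h1.inv_tendsto_atTop
    refine h2.congr fun i => ?_
    show ((i : ℝ) + 2)⁻¹ = 1 / ((i : ℝ) + 2)
    rw [one_div]
  have hex := fun i => H55.exists_RSys (c i) (s i) (by rw [hc2 i]; ring) (hs0 i) (hsc i)
  choose K i1 i2 i3 R0 using hex
  have R : ∀ i, H55.RSys (K i) (c i) (s i) := fun i => (R0 i).some
  obtain ⟨L, hL1, hL2, hL3, hL4⟩ := H55.exists_banach_limit H55.wdw
  have hfin := Hall (lp K 2) (H55.TT R) ⟨2, H55.norm_TT_pow_op R⟩ (H55.TT_C1 R) (H55.TT_C2 R) L hL1 hL2 hL3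
    (lp K 2) (H55.WW R) (H55.XX R) (H55.WW_unitary R) (H55.XX_dense R) (H55.XX_comp R) (by
      intro x f hf
      symm
      apply hL4
      intro ε hε
      filter_upwards [H55.window_norm R x hε] with l hl n h1 h2
      rw [hf n]
      exact hl n h1 h2) (by
      intro y μ hμf hμ hmom
      exact H55.singular R y μ hμ hmom)
  exact H55.no_similarity R hslim hfin

end Pool.Agent.S06114
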