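import Pool.Statements.S06331
import Pool.Agent.H57.Final

set_option autoImplicit false
open Filter Topology
open Pool Pool.MP_d75d7a_an

namespace Pool.Agent.S06331

/-- There is a divergent real series, convergent under some rearrangement, such that some real number is a sum of it under a λ-permutation and some real number is not. -/
theorem result :
    ∃ a : ℕ → ℝ,
      (¬ ∃ L : ℝ, Tendsto (fun n => ∑ i ∈ Finset.range n, a i) atTop (𝓝 L)) ∧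
      (∃ τ : Equiv.Perm ℕ, ∃ L : ℝ,
        Tendsto (fun n => ∑ i ∈ Finset.range n, a (τ i)) atTop (𝓝 L)) ∧
      (∃ L : ℝ, ∃ σ : Equiv.Perm ℕ,
        ((∀ b : ℕ → ℝ,
            (∃ M : ℝ, Tendsto (fun n => ∑ i ∈ Finset.range n, b i) atTop (𝓝 M)) →
            ∃ M : ℝ, Tendsto (fun n => ∑ i ∈ Finset.range n, b (σ i)) atTop (𝓝 M)) ∧
          (∃ b : ℕ → ℝ,
            (¬ ∃ M : ℝ, Tendsto (fun n => ∑ i ∈ Finset.range n, b i) atTop (𝓝 M)) ∧
            ∃ M : ℝ, Tendsto (fun n => ∑ i ∈ Finset.range n, b (σ i)) atTop (𝓝 M))) ∧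
        Tendsto (fun n => ∑ i ∈ Finset.range n, a (σ i)) atTop (𝓝 L)) ∧
      (∃ L : ℝ, ¬ ∃ σ : Equiv.Perm ℕ,
        ((∀ b : ℕ → ℝ,
            (∃ M : ℝ, Tendsto (fun n => ∑ i ∈ Finset.range n, b i) atTop (𝓝 M)) →
            ∃ M : ℝ, Tendsto (fun n => ∑ i ∈ Finset.range n, b (σ i)) atTop (𝓝 M)) ∧
          (∃ b : ℕ → ℝ,
            (¬ ∃ M : ℝ, Tendsto (fun n => ∑ i ∈ Finset.range n, b i) atTop (𝓝 M)) ∧
            ∃ M : ℝ, Tendsto (fun n => ∑ i ∈ Finset.range n, b (σ i)) atTop (𝓝 M))) ∧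
        Tendsto (fun n => ∑ i ∈ Finset.range n, a (σ i)) atTop (𝓝 L)) := by
  refine ⟨Pool.Agent.H57.as, Pool.Agent.H57.as_diverges, ?_, ?_, ?_⟩
  · exact ⟨Pool.Agent.H57.sig0, 0, Pool.Agent.H57.s0_converges⟩
  · refine ⟨0, Pool.Agent.H57.sig0, ⟨?_, ?_⟩, Pool.Agent.H57.s0_converges⟩
    · rintro b ⟨M, hM⟩
      exact ⟨M, Pool.Agent.H57.s0_preserves b M hM⟩
    · exact ⟨Pool.Agent.H57.as, Pool.Agent.H57.as_diverges, 0, Pool.Agent.H57.s0_converges⟩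
  · refine ⟨1, ?_⟩
    rintro ⟨σ, ⟨hσ, _⟩, hL⟩
    exact one_ne_zero (Pool.Agent.H57.sum_eq_zero σ hσ 1 hL)

end Pool.Agent.S06331
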