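import Pool.Statements.S06556
import Pool.Agent.H46.Eg.Core

set_option autoImplicit false
open MeasureTheory
open Pool Pool.MP_eaca18_an

namespace Pool.Agent.S06556

/-- The negation of the preceding statement: Some bounded connected open polygonal region, with two boundary segments at an angle not a rational multiple of pi, admits a measurable set of (position, direction) states closed under straight motion and elastic reflection, having positive measure and positive co-measure. -/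
theorem result :
    ¬ (∃ U : Set ℂ, IsOpen U ∧ IsConnected U ∧ Bornology.IsBounded U ∧
    (∃ S : Finset (ℂ × ℂ), frontier U = ⋃ p ∈ S, segment ℝ p.1 p.2) ∧
    (∃ a b c d : ℂ, a ≠ b ∧ c ≠ d ∧ segment ℝ a b ⊆ frontier U ∧
      segment ℝ c d ⊆ frontier U ∧
      ¬ ∃ q : ℚ, Complex.arg ((b - a) / (d - c)) = (q : ℝ) * Real.pi) ∧
    ∃ A : Set (ℂ × ℝ), MeasurableSet A ∧
      (∀ x : ℂ, ∀ θ : ℝ, (x, θ) ∈ A ↔ (x, θ + 2 * Real.pi) ∈ A) ∧
      (∀ x : ℂ, ∀ θ t : ℝ, 0 ≤ t →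
        (∀ s ∈ Set.Icc (0:ℝ) t, x + (s : ℂ) * Complex.exp ((θ : ℂ) * Complex.I) ∈ U) →
        ((x, θ) ∈ A ↔ (x + (t : ℂ) * Complex.exp ((θ : ℂ) * Complex.I), θ) ∈ A)) ∧
      (∀ x w : ℂ, ∀ θ θ' t ε s : ℝ, 0 < t → 0 < ε → 0 < s → ‖w‖ = 1 →
        (∀ r ∈ Set.Ico (0:ℝ) t, x + (r : ℂ) * Complex.exp ((θ : ℂ) * Complex.I) ∈ U) →
        frontier U ∩ Metric.ball (x + (t : ℂ) * Complex.exp ((θ : ℂ) * Complex.I)) ε =
          {z : ℂ | ∃ r : ℝ, z = x + (t : ℂ) * Complex.exp ((θ : ℂ) * Complex.I) + (r : ℂ) * w} ∩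
            Metric.ball (x + (t : ℂ) * Complex.exp ((θ : ℂ) * Complex.I)) ε →
        Complex.exp ((θ' : ℂ) * Complex.I) =
          w ^ 2 * (starRingEnd ℂ) (Complex.exp ((θ : ℂ) * Complex.I)) →
        (∀ r ∈ Set.Ioc (0:ℝ) s, x + (t : ℂ) * Complex.exp ((θ : ℂ) * Complex.I)
            + (r : ℂ) * Complex.exp ((θ' : ℂ) * Complex.I) ∈ U) →
        ((x, θ) ∈ A ↔ (x + (t : ℂ) * Complex.exp ((θ : ℂ) * Complex.I)
            + (s : ℂ) * Complex.exp ((θ' : ℂ) * Complex.I), θ') ∈ A)) ∧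
      (volume : Measure (ℂ × ℝ)).restrict (U ×ˢ Set.Ico (0:ℝ) (2 * Real.pi)) A ≠ 0 ∧
      (volume : Measure (ℂ × ℝ)).restrict (U ×ˢ Set.Ico (0:ℝ) (2 * Real.pi)) Aᶜ ≠ 0) := by
  classical
  rintro ⟨U, hopen, hconn, hbdd, hpoly, hirr, A, hA, hper, hstr, hrfl, h1, h2⟩
  have hP : Pool.H46.Bi.Poly U := ⟨hopen, hconn, hbdd, hpoly⟩
  have hind : ∀ q q' : ℂ × ℝ, (q ∈ A ↔ q' ∈ A) →
      A.indicator (fun _ => (1 : ℝ)) q = A.indicator (fun _ => (1 : ℝ)) q' := by
    intro q q' h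
    by_cases hq : q ∈ A
    · rw [Set.indicator_of_mem hq, Set.indicator_of_mem (h.mp hq)]
    · rw [Set.indicator_of_notMem hq, Set.indicator_of_notMem (fun h' => hq (h.mpr h'))]
  have hf : Measurable (A.indicator fun _ => (1 : ℝ)) := measurable_const.indicator hA
  obtain ⟨F, hFm, hFf, hinv⟩ := Pool.H46.Eg.inv_desc hopen hf
    (fun x θ => hind _ _ (hper x θ))
    (fun x θ t ht hs => hind _ _ (hstr x θ t ht hs))
    (fun x w θ θ' t ε s a1 a2 a3 a4 a5 a6 a7 a8 => hind _ _ (hrfl x w θ θ' t ε s a1 a2 a3 a4 a5 a6 a7 a8))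
  have hFM : ∀ q : ℂ × Pool.H46.Bi.Tor, |F q| ≤ 1 := by
    rintro ⟨x, θ⟩
    induction θ using QuotientAddGroup.induction_on with
    | H θ =>
      have e1 := hFf x θ
      have e2 : |A.indicator (fun _ => (1 : ℝ)) (x, θ)| ≤ 1 := by
        by_cases hq : (x, θ) ∈ A
        · rw [Set.indicator_of_mem hq]; simp
        · rw [Set.indicator_of_notMem hq]; simp
      rw [← e1] at e2
      exact e2
  obtain ⟨c, hc⟩ := Pool.H46.Eg.core_irr hP hirr hFm hFM hinv
  have hae := Pool.H46.Bi.ae_back hopen hFm hFf hc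
  by_cases hc1 : c = 1
  · apply h2
    refine ae_iff.mp ?_
    filter_upwards [hae] with q hq
    by_contra hn
    rw [Set.indicator_of_notMem hn, hc1] at hq
    exact zero_ne_one hq
  · apply h1
    have h3 : ∀ᵐ q : ℂ × ℝ ∂((volume : Measure (ℂ × ℝ)).restrict
        (U ×ˢ Set.Ico (0:ℝ) (2 * Real.pi))), q ∉ A := by
      filter_upwards [hae] with q hq hn
      rw [Set.indicator_of_mem hn] at hq
      exact hc1 hq.symm
    have h4 := ae_iff.mp h3
    simpa using h4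

end Pool.Agent.S06556
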