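import Pool.Statements.S06742
import Pool.Agent.H59.TTO

set_option autoImplicit false
open Pool Pool.MP_f70052_an

namespace Pool.Agent.S06742

/-- The negation of the preceding statement: For every complex n×n matrix A, A ⊕ Aᵀ is unitarily equivalent to a direct sum of truncated Toeplitz operators with continuous symbols on model spaces of finite Blaschke products, written in the basis z^j/∏(1−conj(a)z). -/
theorem result :
    ¬ (∀ (n : ℕ) (A : Matrix (Fin n) (Fin n) ℂ),
    ∃ (r : ℕ) (m : Fin r → ℕ) (a : (i : Fin r) → Fin (m i) → ℂ) (φ : Fin r → ℝ → ℂ)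
      (S : Matrix (Fin n ⊕ Fin n) (Σ i : Fin r, Fin (m i)) ℂ),
      ∑ i, m i = 2 * n ∧
      (∀ i j, ‖a i j‖ < 1) ∧
      (∀ i, Continuous (φ i)) ∧
      Matrix.conjTranspose S * S = Matrix.blockDiagonal' (fun i => Matrix.of (fun (j k : Fin (m i)) =>
          ∫ t in (0:ℝ)..(2 * Real.pi),
            Complex.exp ((((k : ℕ) : ℂ) - ((j : ℕ) : ℂ)) * (t : ℂ) * Complex.I) /
              ((Complex.normSq (∏ l : Fin (m i),
                  (1 - starRingEnd ℂ (a i l) * Complex.exp ((t : ℂ) * Complex.I))) : ℝ) : ℂ))) ∧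
      Matrix.conjTranspose S * Matrix.fromBlocks A 0 0 (Matrix.transpose A) * S =
        Matrix.blockDiagonal' (fun i => Matrix.of (fun (j k : Fin (m i)) =>
          ∫ t in (0:ℝ)..(2 * Real.pi),
            φ i t * Complex.exp ((((k : ℕ) : ℂ) - ((j : ℕ) : ℂ)) * (t : ℂ) * Complex.I) /
              ((Complex.normSq (∏ l : Fin (m i),
                  (1 - starRingEnd ℂ (a i l) * Complex.exp ((t : ℂ) * Complex.I))) : ℝ) : ℂ)))) := by
  intro h
  have hn : 16 * 32 + 2 < (32 + 1).choose 2 := by decide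
  obtain ⟨A, hA⟩ := Pool.Agent.H59.TTO.not_all_rep 32 hn
  exact hA (h 32 A)

end Pool.Agent.S06742
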