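import Pool.Statements.S06801
import Pool.Agent.H51.BJ.FIN

set_option autoImplicit false
open Pool Pool.MP_fbd3e7_an

namespace Pool.Agent.S06801

/-- For every n and every nonzero complex polynomial P in n variables, the map sending an entire f on ℂⁿ to P*(D)(P·f), where P* has conjugated coefficients and D is the vector of partial derivatives, is a bijection of entire functions onto entire functions. -/
theorem result :
  ∀ n : ℕ, ∀ P : MvPolynomial (Fin n) ℂ, P ≠ 0 →
    Set.BijOn
      (fun f : (Fin n → ℂ) → ℂ => fun z : Fin n → ℂ =>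
        ∑ m ∈ P.support, (starRingEnd ℂ) (P.coeff m) *
          ((List.finRange n).foldr
            (fun (j : Fin n) (g : (Fin n → ℂ) → ℂ) =>
              (fun h : (Fin n → ℂ) → ℂ => fun w : Fin n → ℂ =>
                fderiv ℂ h w (Pi.single j (1 : ℂ) : Fin n → ℂ))^[m j] g)
            (fun w : Fin n → ℂ => MvPolynomial.eval w P * f w)) z)
      {f : (Fin n → ℂ) → ℂ | Differentiable ℂ f}
      {f : (Fin n → ℂ) → ℂ | Differentiable ℂ f} := by
  intro n P hP
  exact Pool.Agent.H51.BJ.bij_all n P hP

end Pool.Agent.S06801
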