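import Pool.Statements.S07114
import Pool.Agent.H14.ManyColorTendsto

set_option autoImplicit false
open Filter Topology
open Pool Pool.MP_0b90e2_co

namespace Pool.Agent.S07114

/-- The negation of the preceding statement: For all k≥3, 3≤s≤C(k,2), r≥s: the number of r-colorings of the edges of K_n in which every k-vertex set spans fewer than s colors, divided by C(r,s-1)·(s-1)^{C(n,2)}, tends to 1 as n→∞. -/
theorem result :
    ¬ (∀ k s r : ℕ, 3 ≤ k → 3 ≤ s → s ≤ k.choose 2 → s ≤ r →
      Tendsto
        (fun n : ℕ =>
          (Nat.card {c : {e : Sym2 (Fin n) // ¬ e.IsDiag} → Fin r //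
              ∀ S : Finset (Fin n), S.card = k →
                ((Finset.univ.filter
                    (fun e : {e : Sym2 (Fin n) // ¬ e.IsDiag} => e.1 ∈ S.sym2)).image c).card < s} : ℝ)
            / ((r.choose (s - 1) : ℝ) * ((s : ℝ) - 1) ^ (n.choose 2)))
        atTop (𝓝 1)) := by
  intro H
  exact not_tendsto_nhds_of_tendsto_atTop
    (Pool.Agent.H14.ManyColor.ratio_tendsto_atTop 4 6 25 (by norm_num) (by norm_num) (by norm_num))
    1 (H 4 6 25 (by norm_num) (by norm_num) (by decide) (by norm_num))

end Pool.Agent.S07114
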