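import Pool.Statements.S08012
import Pool.Agent.H18.Cage.Main

set_option autoImplicit false
open Classical
open Pool Pool.MP_335cf6_co

namespace Pool.Agent.S08012

/-- The negation of the preceding statement: For every k ≥ 3 there is a constant c such that for infinitely many g ≥ 3 some k-regular graph of girth exactly g has at most M(k,g)+c vertices, M(k,g) being the Moore bound. -/
theorem result :
    ¬ (∀ k : ℕ, 3 ≤ k → ∃ c : ℕ,
      Set.Infinite {g : ℕ | 3 ≤ g ∧ ∃ n : ℕ,
        n ≤ (if Even g then 2 * ∑ i ∈ Finset.range (g / 2), (k - 1) ^ i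
             else 1 + k * ∑ i ∈ Finset.range ((g - 1) / 2), (k - 1) ^ i) + c ∧
        ∃ G : SimpleGraph (Fin n), G.IsRegularOfDegree k ∧ G.girth = g}) := by
  intro h
  apply Pool.Agent.H18.Cage.main
  intro k hk
  obtain ⟨c, hc⟩ := h k hk
  refine ⟨c, hc.mono ?_⟩
  rintro g ⟨hg, n, hn, G, h1, h2⟩
  exact ⟨hg, n, hn, G, ⟨_, h1⟩, h2⟩

end Pool.Agent.S08012
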