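import Pool.Statements.S08258

set_option autoImplicit false
open Pool Pool.MP_3d7919_co

namespace Pool.Agent.S08258

/-- The coordinates of the seven points (the point with index `i` has label `i + 1`). -/
def cx : Fin 7 → ℤ := ![5, 5, 4, 6, 0, 3, 2]
/-- The second coordinates of the seven points. -/
def cy : Fin 7 → ℤ := ![5, 1, 4, 0, 3, 2, 3]

/-- Integer orientation determinant. -/
def dt (i j k : Fin 7) : ℤ :=
  (cx j - cx i) * (cy k - cy i) - (cy j - cy i) * (cx k - cx i)

/-- The seven points. -/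
noncomputable def pt (i : Fin 7) : EuclideanSpace ℝ (Fin 2) :=
  !₂[(cx i : ℝ), (cy i : ℝ)]

lemma pt_zero (i : Fin 7) : pt i 0 = (cx i : ℝ) := by simp [pt]
lemma pt_one (i : Fin 7) : pt i 1 = (cy i : ℝ) := by simp [pt]

lemma dt_ne : ∀ i j k : Fin 7, i ≠ j → j ≠ k → i ≠ k → dt i j k ≠ 0 := by
  decide +kernel

lemma pt_inj : Function.Injective pt := by
  intro i j hij
  have h0 : cx i = cx j := by
    have := congrArg (fun v : EuclideanSpace ℝ (Fin 2) => v 0) hij
    simp only [pt_zero] at this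
    exact_mod_cast this
  have h1 : cy i = cy j := by
    have := congrArg (fun v : EuclideanSpace ℝ (Fin 2) => v 1) hij
    simp only [pt_one] at this
    exact_mod_cast this
  have key : ∀ i j : Fin 7, cx i = cx j → cy i = cy j → i = j := by decide +kernel
  exact key i j h0 h1

lemma not_collinear (i j k : Fin 7) (hij : i ≠ j) (hjk : j ≠ k) (hik : i ≠ k) :
    ¬ Collinear ℝ ({pt i, pt j, pt k} : Set (EuclideanSpace ℝ (Fin 2))) := by
  intro hc
  rw [collinear_iff_of_mem (p₀ := pt i) (by simp)] at hc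
  obtain ⟨v, hv⟩ := hc
  obtain ⟨r, hr⟩ := hv (pt j) (by simp)
  obtain ⟨t, ht⟩ := hv (pt k) (by simp)
  have j0 : (cx j : ℝ) = r * v 0 + cx i := by
    have := congrArg (fun w : EuclideanSpace ℝ (Fin 2) => w 0) hr
    simpa [pt_zero] using this
  have j1 : (cy j : ℝ) = r * v 1 + cy i := by
    have := congrArg (fun w : EuclideanSpace ℝ (Fin 2) => w 1) hr
    simpa [pt_one] using this
  have k0 : (cx k : ℝ) = t * v 0 + cx i := by
    have := congrArg (fun w : EuclideanSpace ℝ (Fin 2) => w 0) ht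
    simpa [pt_zero] using this
  have k1 : (cy k : ℝ) = t * v 1 + cy i := by
    have := congrArg (fun w : EuclideanSpace ℝ (Fin 2) => w 1) ht
    simpa [pt_one] using this
  have hd : ((dt i j k : ℤ) : ℝ) = 0 := by
    unfold dt
    push_cast
    rw [j0, j1, k0, k1]
    ring
  exact dt_ne i j k hij hjk hik (by exact_mod_cast hd)

/-- A point strictly inside the triangle of three points of a convex set lies in that set. -/
lemma mem_of_inside {S : Set (EuclideanSpace ℝ (Fin 2))} (hS : Convex ℝ S) (a b c d : Fin 7)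
    (ha : pt a ∈ S) (hb : pt b ∈ S) (hc : pt c ∈ S)
    (h1 : 0 < dt b c d) (h2 : 0 < dt c a d) (h3 : 0 < dt a b d) : pt d ∈ S := by
  have h1' : (0 : ℝ) < ((dt b c d : ℤ) : ℝ) := by exact_mod_cast h1
  have h2' : (0 : ℝ) < ((dt c a d : ℤ) : ℝ) := by exact_mod_cast h2
  have h3' : (0 : ℝ) < ((dt a b d : ℤ) : ℝ) := by exact_mod_cast h3
  set x : ℝ := ((dt b c d : ℤ) : ℝ) with hx
  set y : ℝ := ((dt c a d : ℤ) : ℝ) with hy
  set z : ℝ := ((dt a b d : ℤ) : ℝ) with hz
  have hpos : 0 < x + y + z := by positivity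
  have hne : x + y + z ≠ 0 := hpos.ne'
  have hcomb : pt d = (x / (x + y + z)) • pt a + (y / (x + y + z)) • pt b
      + (z / (x + y + z)) • pt c := by
    ext l
    fin_cases l
    · simp only [Fin.zero_eta, Fin.isValue, PiLp.add_apply, PiLp.smul_apply, pt_zero, smul_eq_mul]
      field_simp
      rw [hx, hy, hz]
      unfold dt
      push_cast
      ring
    · simp only [Fin.mk_one, Fin.isValue, PiLp.add_apply, PiLp.smul_apply, pt_one, smul_eq_mul]
      field_simp
      rw [hx, hy, hz]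
      unfold dt
      push_cast
      ring
  rw [hcomb]
  have hsum : x / (x + y + z) + y / (x + y + z) + z / (x + y + z) = 1 := by
    field_simp
  have := hS.sum_mem (t := (Finset.univ : Finset (Fin 3)))
    (w := ![x / (x + y + z), y / (x + y + z), z / (x + y + z)])
    (z := ![pt a, pt b, pt c]) ?_ ?_ ?_
  · simpa [Fin.sum_univ_three] using this
  · intro i _
    fin_cases i <;> simp <;> positivity
  · simpa [Fin.sum_univ_three] using hsum
  · intro i _
    fin_cases i <;> simp [ha, hb, hc]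

/-- Every subset of weight `14` has three members whose triangle contains a non-member. -/
lemma blocked : ∀ s : Finset (Fin 7), ∑ i ∈ s, (i.val + 1) = 14 →
    ∃ w ∈ ([(1, 2, 4, 5), (0, 5, 3, 1), (0, 4, 1, 2), (2, 4, 5, 6), (0, 6, 1, 2),
        (2, 6, 3, 1), (1, 6, 4, 5), (0, 6, 5, 2)] : List (Fin 7 × Fin 7 × Fin 7 × Fin 7)),
      w.1 ∈ s ∧ w.2.1 ∈ s ∧ w.2.2.1 ∈ s ∧ w.2.2.2 ∉ s ∧
      0 < dt w.2.1 w.2.2.1 w.2.2.2 ∧ 0 < dt w.2.2.1 w.1 w.2.2.2 ∧
      0 < dt w.1 w.2.1 w.2.2.2 := by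
  decide +kernel

/-- The negation of the preceding statement: For every n ≥ 5 and n distinct plane points with no three collinear, labelled 1..n, some subset cut out by a convex set has label sum exactly 2n. -/
theorem result :
    ¬ (∀ n : ℕ, 5 ≤ n →
      ∀ p : Fin n → EuclideanSpace ℝ (Fin 2),
        Function.Injective p →
        (∀ i j k : Fin n, i ≠ j → j ≠ k → i ≠ k →
          ¬ Collinear ℝ ({p i, p j, p k} : Set (EuclideanSpace ℝ (Fin 2)))) →
        ∃ s : Finset (Fin n),
          (∃ S : Set (EuclideanSpace ℝ (Fin 2)), Convex ℝ S ∧ ∀ i : Fin n, p i ∈ S ↔ i ∈ s) ∧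
          ∑ i ∈ s, (i.val + 1) = 2 * n) := by
  intro h
  obtain ⟨s, ⟨S, hS, hmem⟩, hsum⟩ := h 7 (by norm_num) pt pt_inj not_collinear
  obtain ⟨w, _, h1, h2, h3, h4, h5, h6, h7⟩ := blocked s hsum
  exact h4 ((hmem _).1 (mem_of_inside hS w.1 w.2.1 w.2.2.1 w.2.2.2 ((hmem _).2 h1)
    ((hmem _).2 h2) ((hmem _).2 h3) h5 h6 h7))

end Pool.Agent.S08258
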