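import Pool.Statements.S08923
import Pool.Agent.H23.VW.Frozen
import Pool.Agent.H62.VW.W

set_option autoImplicit false
open Pool Pool.MP_5a0b46_co

namespace Pool.Agent.S08923

/-- As n grows, the least N₀ such that Maker (moving first) can claim a full n-term AP in the Maker–Breaker game on {1..N} for every N ≥ N₀, divided by the van der Waerden number W(n), tends to 0. -/
theorem result :
    ∀ ε : ℝ, 0 < ε → ∃ n₀ : ℕ, ∀ n : ℕ, n₀ ≤ n → ∀ ww W : ℕ,
      IsLeast {N₀ : ℕ | ∀ N : ℕ, N₀ ≤ N → ∀ P : Finset ℕ → Finset ℕ → Prop,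
          (∀ M B : Finset ℕ, (∃ a d : ℕ, 0 < d ∧ ∀ i < n, a + i * d ∈ M) → P M B) →
          (∀ M B : Finset ℕ, M.card = B.card →
              (∃ x ∈ Finset.Icc 1 N, x ∉ M ∧ x ∉ B ∧ P (insert x M) B) → P M B) →
          (∀ M B : Finset ℕ, M.card = B.card + 1 →
              (∃ y ∈ Finset.Icc 1 N, y ∉ M ∧ y ∉ B) →
              (∀ y ∈ Finset.Icc 1 N, y ∉ M → y ∉ B → P M (insert y B)) → P M B) →
          P ∅ ∅} ww →
      IsLeast {N : ℕ | ∀ c : ℕ → Bool, ∃ a d : ℕ, 0 < d ∧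
          ∀ i < n, a + i * d ∈ Finset.Icc 1 N ∧ c (a + i * d) = c a} W →
      (ww : ℝ) / (W : ℝ) < ε := by
  intro ε hε
  obtain ⟨n0, hn0⟩ := Pool.Agent.H23.VW.ww_mem (δ := ε / 16) (by positivity)
  obtain ⟨n1, hn1⟩ := Pool.Agent.H23.VW.growth_one (16 / ε + 1)
  refine ⟨max (max n0 n1) 8, fun n hn ww W hww hW => ?_⟩
  have h0 : n0 ≤ n := ((le_max_left _ _).trans (le_max_left _ _)).trans hn
  have h1 : n1 ≤ n := ((le_max_right _ _).trans (le_max_left _ _)).trans hn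
  have h8 : 8 ≤ n := (le_max_right _ _).trans hn
  have hwwle : ww ≤ ⌈ε / 16 * n * 2 ^ n⌉₊ := hww.2 (hn0 n h0)
  have hWge := Pool.Agent.H62.VW.W_lower n h8 W hW.1
  have h8R : (8 : ℝ) ≤ n := by exact_mod_cast h8
  have hg := hn1 n h1
  have hbig : 1 < ε / 16 * n * 2 ^ n := by
    have h2 : 16 / ε < 2 ^ n := by linarith
    rw [div_lt_iff₀ hε] at h2
    have h3 : ε / 16 * 2 ^ n * 1 ≤ ε / 16 * 2 ^ n * n :=
      mul_le_mul_of_nonneg_left (by linarith) (by positivity)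
    linarith
  have hwwR : (ww : ℝ) < ε / 16 * n * 2 ^ n + 1 := by
    have h4 : (ww : ℝ) ≤ (⌈ε / 16 * n * 2 ^ n⌉₊ : ℝ) := by exact_mod_cast hwwle
    have h5 := Nat.ceil_lt_add_one (by positivity : 0 ≤ ε / 16 * n * 2 ^ n)
    linarith
  have hWpos : (0 : ℝ) < W := lt_of_lt_of_le (by positivity) hWge
  rw [div_lt_iff₀ hWpos]
  have h6 := mul_le_mul_of_nonneg_left hWge hε.le
  linarith

end Pool.Agent.S08923
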