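import Pool.Statements.S09191
import Pool.Agent.H23.PeakMain

set_option autoImplicit false
open Pool Pool.MP_63b2dc_co

namespace Pool.Agent.S09191

/-- For every nonempty admissible peak set S (elements at least 2, no two consecutive), every complex root z of its peak polynomial p_S satisfies ∣z∣ ≤ max S and Re z ≥ −3. -/
theorem result :
    ∀ (S : Finset ℕ) (hS : S.Nonempty),
      (∀ i ∈ S, 2 ≤ i ∧ i + 1 ∉ S) →
      ∀ p : Polynomial ℂ,
        (∃ N : ℕ, ∀ n : ℕ, N ≤ n →
          ((Nat.card {π : Equiv.Perm (Fin n) //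
              ∀ j : Fin n, (j.val + 1 ∈ S ↔
                ∃ h : j.val + 1 < n, 0 < j.val ∧
                  π ⟨j.val - 1, lt_of_le_of_lt (Nat.sub_le j.val 1) j.isLt⟩ < π j ∧
                  π ⟨j.val + 1, h⟩ < π j)} : ℂ)
            = p.eval (n : ℂ) * 2 ^ (n - S.card - 1))) →
        ∀ z : ℂ, p.IsRoot z → ‖z‖ ≤ (S.max' hS : ℝ) ∧ -3 ≤ z.re := by
  intro S hS hadm p hp z hz
  exact Pool.Agent.H23.Peak.final S hS hadm p hp z hz

end Pool.Agent.S09191
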