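import Pool.Statements.S09377
import Pool.Agent.H25.Grid7

set_option autoImplicit false
open Asymptotics
open Pool Pool.MP_6e13ab_co

namespace Pool.Agent.S09377

/-- Let G(r) be the least n such that every r-colouring of the n-by-n grid graph's edges has a rectangle whose opposite sides share colours; then G(r) is little-o of r to the power (r+1 choose 2). -/
theorem result :
    (fun r : ℕ => ((sInf {n : ℕ | ∀ (h v : Fin n → Fin n → Fin n → Fin r),
        ∃ i i' j j' : Fin n, i < i' ∧ j < j' ∧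
          h i j j' = h i' j j' ∧ v j i i' = v j' i i'} : ℕ) : ℝ))
      =o[Filter.atTop] (fun r : ℕ => (r : ℝ) ^ ((r + 1).choose 2)) := by
  rw [isLittleO_iff]
  intro c hc
  obtain ⟨b, hb⟩ := exists_nat_gt (1024 / c)
  have hc1 : 0 < 1024 / c := by positivity
  have hbpos : 0 < b := by
    have : (0 : ℝ) < b := lt_trans hc1 hb
    exact_mod_cast this
  have hb' : (0 : ℝ) < b := by exact_mod_cast hbpos
  obtain ⟨r₀, hr₀⟩ := exists_nat_gt (18 / c)
  filter_upwards [Filter.eventually_ge_atTop (128 * b ^ 3 + 4 * b + r₀ + 3)] with r hr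
  have hrpos : (0 : ℝ) < r := by
    have : 0 < r := by omega
    exact_mod_cast this
  have hr3 : (3 : ℝ) ≤ r := by
    have : 3 ≤ r := by omega
    exact_mod_cast this
  set T : ℝ := (r : ℝ) ^ ((r + 1).choose 2) with hT
  have hTpos : 0 < T := by rw [hT]; positivity
  rw [Real.norm_of_nonneg (Nat.cast_nonneg _), Real.norm_of_nonneg hTpos.le]
  -- the polynomial part is small
  have hpoly : ((r : ℝ) + 1) ^ 3 + 1 ≤ c / 2 * T := by
    have h1 : ((r : ℝ) + 1) ^ 3 + 1 ≤ 9 * (r : ℝ) ^ 3 := by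
      nlinarith [mul_pos hrpos hrpos, mul_nonneg (sub_nonneg.2 hr3) (mul_pos hrpos hrpos).le,
        mul_nonneg (sub_nonneg.2 hr3) hrpos.le]
    have h2 : (r : ℝ) ^ 6 ≤ T := by
      rw [hT]
      apply pow_le_pow_right₀ (by linarith)
      have : (4 : ℕ).choose 2 ≤ (r + 1).choose 2 := Nat.choose_le_choose 2 (by omega)
      simpa [Nat.choose] using this
    have h3 : 18 / c ≤ (r : ℝ) := by
      have : r₀ ≤ r := by omega
      have h4 : (r₀ : ℝ) ≤ r := by exact_mod_cast this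
      linarith
    have h5 : (18 : ℝ) ≤ c * (r : ℝ) ^ 3 := by
      rw [div_le_iff₀ hc] at h3
      have h6 : (r : ℝ) ≤ (r : ℝ) ^ 3 := by
        nlinarith [mul_pos hrpos hrpos]
      nlinarith
    have h7 : 9 * (r : ℝ) ^ 3 ≤ c / 2 * (r : ℝ) ^ 6 := by
      have h8 : c / 2 * (r : ℝ) ^ 6 = (c * (r : ℝ) ^ 3) / 2 * (r : ℝ) ^ 3 := by ring
      rw [h8]
      apply mul_le_mul_of_nonneg_right _ (by positivity)
      linarith
    calc ((r : ℝ) + 1) ^ 3 + 1 ≤ 9 * (r : ℝ) ^ 3 := h1
      _ ≤ c / 2 * (r : ℝ) ^ 6 := h7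
      _ ≤ c / 2 * T := mul_le_mul_of_nonneg_left h2 (by positivity)
  -- the main part
  have hmainT : 4 * T / (1 + 3 * (b : ℝ) / 128) ≤ c / 2 * T := by
    rw [div_le_iff₀ (by positivity)]
    have h1 : 1024 < b * c := by
      rwa [div_lt_iff₀ hc] at hb
    have h2 : (4 : ℝ) ≤ c / 2 * (1 + 3 * (b : ℝ) / 128) := by nlinarith
    calc 4 * T ≤ (c / 2 * (1 + 3 * (b : ℝ) / 128)) * T :=
          mul_le_mul_of_nonneg_right h2 hTpos.le
      _ = c / 2 * T * (1 + 3 * (b : ℝ) / 128) := by ring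
  set S : Set ℕ := {n : ℕ | ∀ (h v : Fin n → Fin n → Fin n → Fin r),
        ∃ i i' j j' : Fin n, i < i' ∧ j < j' ∧
          h i j j' = h i' j j' ∧ v j i i' = v j' i i'} with hS
  rcases Nat.eq_zero_or_pos (sInf S) with h0 | hpos
  · rw [h0]
    simp only [Nat.cast_zero]
    positivity
  · obtain ⟨n, hn⟩ : ∃ n, sInf S = n + 1 := ⟨sInf S - 1, by omega⟩
    have hnS : n ∉ S := Nat.notMem_of_lt_sInf (by omega)
    rw [hS, Set.mem_ofPred_eq] at hnS
    push Not at hnS
    obtain ⟨h, v, hno⟩ := hnS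
    rw [hn]
    push_cast
    rcases Nat.eq_zero_or_pos n with hn0 | hnpos
    · rw [hn0]
      simp only [Nat.cast_zero, zero_add]
      have : (0 : ℝ) ≤ ((r : ℝ) + 1) ^ 3 := by positivity
      have h2 : 0 ≤ c / 2 * T := by positivity
      linarith
    · have hb1 := Pool.Agent.H25.grid_bound r n b hbpos (by omega) (by omega) hnpos h v
        (fun i i' j j' hi hj hh => hno i i' j j' hi hj hh.1 hh.2)
      rw [← hT] at hb1
      linarith

end Pool.Agent.S09377
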