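import Pool.Statements.S09765
import Pool.Agent.H27.PCFinal

set_option autoImplicit false
open Pool Pool.MP_80f2b6_co

namespace Pool.Agent.S09765

/-- For every n ≥ 1 and k, the number of 23-1-4-avoiding permutations of [n] with k right-to-left minima equals the number of 110-avoiding inversion sequences of length n with exactly k zero entries. -/
theorem result :
    ∀ n : ℕ, 1 ≤ n → ∀ k : ℕ,
      Nat.card {π : Equiv.Perm (Fin n) //
        (¬ ∃ i i' j l : Fin n, i'.val = i.val + 1 ∧ i' < j ∧ j < l ∧
            π j < π i ∧ π i < π i' ∧ π i' < π l) ∧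
        Nat.card {i : Fin n // ∀ j : Fin n, i < j → π i < π j} = k} =
      Nat.card {e : Fin n → Fin n //
        (∀ i : Fin n, (e i).val ≤ i.val) ∧
        (¬ ∃ i j l : Fin n, i < j ∧ j < l ∧ e i = e j ∧ e l < e j) ∧
        Nat.card {i : Fin n // (e i).val = 0} = k} := by
  intro n _ k
  exact Pool.Agent.H27.PC.final n k

end Pool.Agent.S09765
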