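import Pool.Statements.S09803
import Pool.Agent.H27.STSMain

set_option autoImplicit false
open Pool Pool.MP_828a2e_co

namespace Pool.Agent.S09803

open Pool.Agent.H27 in
/-- The main construction for a nontrivial group. -/
theorem exists_sts (G : Type) [Group G] [Fintype G] (hG : 2 ≤ Fintype.card G) :
    ∃ (V : Type) (_ : Fintype V) (_ : DecidableEq V) (B : Finset (Finset V)),
        (∀ b ∈ B, b.card = 3) ∧
        (∀ x y : V, x ≠ y → ∃! b, b ∈ B ∧ x ∈ b ∧ y ∈ b) ∧
        Fintype.card V ≤ (Fintype.card G) ^ 10 ∧
        ∃ φ : G →* Equiv.Perm V, Function.Injective φ ∧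
          ∀ g : G, ∀ b ∈ B, b.image (⇑(φ g)) ∈ B := by
  classical
  let H := G × Multiplicative (ZMod 3)
  have hH : Fintype.card H = 3 * Fintype.card G := by
    simp only [H, Fintype.card_prod, Fintype.card_multiplicative, ZMod.card]
    ring
  let k := Nat.log 2 (Fintype.card H) + 1
  let K := Fin k → ZMod 2
  have hKcard : Fintype.card K = 2 ^ k := by
    simp [K, ZMod.card]
  have hK1 : Fintype.card H ≤ Fintype.card K := by
    rw [hKcard]
    exact (Nat.lt_pow_succ_log_self (by norm_num) _).le
  have hK2 : Fintype.card K ≤ 2 * Fintype.card H := by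
    rw [hKcard, pow_succ]
    have := Nat.pow_log_le_self 2 (x := Fintype.card H) (by omega)
    omega
  obtain ⟨ι⟩ := Function.Embedding.nonempty_of_card_le hK1
  have hne : Nonempty H := ⟨1⟩
  let D : Dat H K :=
    { ω := (1, Multiplicative.ofAdd 1)
      hω := by
        refine Prod.ext ?_ ?_
        · show (1 : G) * 1 * 1 = 1
          simp
        · show Multiplicative.ofAdd (1 : ZMod 3) * Multiplicative.ofAdd 1 *
            Multiplicative.ofAdd 1 = 1
          decide
      hω1 := by
        intro e
        have h2 : Multiplicative.ofAdd (1 : ZMod 3) = 1 := congrArg Prod.snd e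
        revert h2
        decide
      hK := by
        intro x
        funext i
        have h2 : ∀ a : ZMod 2, a + a = 0 := by decide
        exact h2 (x i)
      ι := ι
      κ := Function.invFun ι
      hι := Function.leftInverse_invFun ι.injective
      q := fun h => (Fintype.equivFin H h : ℕ)
      hq := fun a b e => (Fintype.equivFin H).injective (Fin.ext e)
      r := fun h => (Fintype.equivFin (JJ K) h : ℕ)
      hr := fun a b e => (Fintype.equivFin (JJ K)).injective (Fin.ext e) }
  have h3 : 3 ∣ Fintype.card H := ⟨_, hH⟩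
  obtain ⟨m, hm⟩ := exists_squag_of_card D.FF (D.card_FF h3)
  have hsq := D.op_squag m hm
  refine ⟨D.VV, inferInstance, fun a b => Classical.propDecidable (a = b), blocks (D.op m),
    blocks_card hsq, blocks_unique hsq, ?_, D.rep.comp (MonoidHom.inl G _), ?_, ?_⟩
  · have h4 := D.card_VV_le
    have h5 : 8 * (Fintype.card K * Fintype.card H) ≤ 144 * (Fintype.card G) ^ 2 := by
      calc 8 * (Fintype.card K * Fintype.card H)
          ≤ 8 * ((2 * Fintype.card H) * Fintype.card H) := by gcongr
        _ = 144 * (Fintype.card G) ^ 2 := by rw [hH]; ring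
    have h6 : 144 * (Fintype.card G) ^ 2 ≤ (Fintype.card G) ^ 10 := by
      have : 144 ≤ (Fintype.card G) ^ 8 := by
        calc 144 ≤ 2 ^ 8 := by norm_num
          _ ≤ (Fintype.card G) ^ 8 := Nat.pow_le_pow_left hG 8
      calc 144 * (Fintype.card G) ^ 2 ≤ (Fintype.card G) ^ 8 * (Fintype.card G) ^ 2 := by gcongr
        _ = (Fintype.card G) ^ 10 := by ring
    omega
  · intro a b e
    have h4 := D.rep_injective e
    exact congrArg Prod.fst h4
  · intro g b hb
    exact blocks_image _ (fun x y => D.op_act m _ x y) b hb

/-- There is a constant c such that every finite group of order n embeds in the automorphism group of some Steiner triple system on at most n^c points. -/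
theorem result :
    ∃ c : ℕ, ∀ (G : Type) [Group G] [Fintype G],
      ∃ (V : Type) (_ : Fintype V) (_ : DecidableEq V) (B : Finset (Finset V)),
        (∀ b ∈ B, b.card = 3) ∧
        (∀ x y : V, x ≠ y → ∃! b, b ∈ B ∧ x ∈ b ∧ y ∈ b) ∧
        Fintype.card V ≤ (Fintype.card G) ^ c ∧
        ∃ φ : G →* Equiv.Perm V, Function.Injective φ ∧
          ∀ g : G, ∀ b ∈ B, b.image (⇑(φ g)) ∈ B := by
  refine ⟨10, ?_⟩
  intro G _ _
  by_cases hG : 2 ≤ Fintype.card G
  · exact exists_sts G hG
  · have h1 : Fintype.card G = 1 := by
      have := Fintype.card_pos (α := G)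
      omega
    have hs : Subsingleton G := Fintype.card_le_one_iff_subsingleton.mp h1.le
    refine ⟨Unit, inferInstance, inferInstance, ∅, by simp, ?_, by simp [h1], 1, ?_, by simp⟩
    · intro x y hxy
      exact absurd (Subsingleton.elim x y) hxy
    · intro a b _
      exact Subsingleton.elim a b

end Pool.Agent.S09803
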