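-- Proof of the frozen negation: no finite graph has clique number 2, chromatic number 4 and
-- Grundy, achromatic and pseudoachromatic numbers all equal to 4.
import Pool.Statements.S09896
import Pool.Agent.H28.Psi

set_option autoImplicit false
open Pool Pool.MP_86c288_co

namespace Pool.Agent.S09896

/-- The negation of the preceding statement: For all integers 2 ≤ a ≤ b ≤ c ≤ d ≤ e there is a finite graph with clique number a, chromatic number b, Grundy number c, achromatic number d and pseudoachromatic number e. -/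
theorem result :
    ¬ (∀ a b c d e : ℕ, 2 ≤ a → a ≤ b → b ≤ c → c ≤ d → d ≤ e →
  ∃ n : ℕ, ∃ G : SimpleGraph (Fin n),
    ((∃ s : Finset (Fin n), G.IsNClique a s) ∧ ∀ s : Finset (Fin n), ¬ G.IsNClique (a + 1) s) ∧
    G.chromaticNumber = (b : ℕ∞) ∧
    ((∃ f : Fin n → Fin c, Function.Surjective f ∧ (∀ u v, G.Adj u v → f u ≠ f v) ∧
        ∀ v, ∀ j : Fin c, j < f v → ∃ u, G.Adj v u ∧ f u = j) ∧
      ∀ k : ℕ, c < k → ¬ ∃ f : Fin n → Fin k, Function.Surjective f ∧ (∀ u v, G.Adj u v → f u ≠ f v) ∧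
        ∀ v, ∀ j : Fin k, j < f v → ∃ u, G.Adj v u ∧ f u = j) ∧
    ((∃ f : Fin n → Fin d, Function.Surjective f ∧ (∀ u v, G.Adj u v → f u ≠ f v) ∧
        ∀ i j : Fin d, i ≠ j → ∃ u v, G.Adj u v ∧ f u = i ∧ f v = j) ∧
      ∀ k : ℕ, d < k → ¬ ∃ f : Fin n → Fin k, Function.Surjective f ∧ (∀ u v, G.Adj u v → f u ≠ f v) ∧
        ∀ i j : Fin k, i ≠ j → ∃ u v, G.Adj u v ∧ f u = i ∧ f v = j) ∧
    ((∃ f : Fin n → Fin e, Function.Surjective f ∧
        ∀ i j : Fin e, i ≠ j → ∃ u v, G.Adj u v ∧ f u = i ∧ f v = j) ∧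
      ∀ k : ℕ, e < k → ¬ ∃ f : Fin n → Fin k, Function.Surjective f ∧
        ∀ i j : Fin k, i ≠ j → ∃ u v, G.Adj u v ∧ f u = i ∧ f v = j)) := by
  intro H
  obtain ⟨n, G, ⟨-, hcl⟩, hchi, -, -, -, hpsi⟩ := H 2 4 4 4 4 le_rfl (by norm_num) le_rfl le_rfl le_rfl
  have tf : ∀ a b d, G.Adj a b → G.Adj b d → ¬ G.Adj a d := by
    intro a b d hab hbd had
    exact hcl {a, b, d} (SimpleGraph.is3Clique_triple_iff.mpr ⟨hab, had, hbd⟩)
  have h3 : ¬ G.Colorable 3 := by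
    intro h
    have := h.chromaticNumber_le
    rw [hchi] at this
    norm_cast at this
  obtain ⟨f, hf⟩ := Pool.Agent.H28.Psi.hasK5_of_not_colorable G tf h3
  refine hpsi 5 (by norm_num) ⟨f, ?_, hf⟩
  intro i
  have : ∃ j : Fin 5, i ≠ j := by
    fin_cases i
    · exact ⟨1, by decide⟩
    all_goals exact ⟨0, by decide⟩
  obtain ⟨j, hj⟩ := this
  obtain ⟨u, v, huv, hu, hv⟩ := hf i j hj
  exact ⟨u, hu⟩

end Pool.Agent.S09896
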