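import Pool.Statements.S10509
import Pool.Agent.H9.MD.Final

set_option autoImplicit false
open Pool Pool.MP_a20e8c_co

namespace Pool.Agent.S10509

/-- For every finite connected graph not on exactly two vertices (i.e. not K2), the metric dimension and the edge metric dimension differ by at most the cyclomatic number, edges minus vertices plus one. -/
theorem result :
  ∀ (V : Type) [Fintype V] [DecidableEq V] (G : SimpleGraph V) [DecidableRel G.Adj],
    G.Connected → Fintype.card V ≠ 2 →
    |((sInf {k : ℕ | ∃ S : Finset V, S.card = k ∧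
          ∀ u v : V, u ≠ v → ∃ w ∈ S, G.dist u w ≠ G.dist v w} : ℕ) : ℤ)
      - ((sInf {k : ℕ | ∃ S : Finset V, S.card = k ∧
          ∀ a b c d : V, G.Adj a b → G.Adj c d → s(a, b) ≠ s(c, d) →
            ∃ w ∈ S, min (G.dist a w) (G.dist b w) ≠ min (G.dist c w) (G.dist d w)} : ℕ) : ℤ)|
      ≤ (G.edgeFinset.card : ℤ) - (Fintype.card V : ℤ) + 1 := by
  intro V _ _ G _ hG hcard
  obtain ⟨v₀⟩ := hG.nonempty
  -- reformulation of the two kinds of resolving sets
  have toV : ∀ S : Finset V, (∀ u v : V, u ≠ v → ∃ w ∈ S, G.dist u w ≠ G.dist v w) ↔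
      (∀ x y : V, (∀ w ∈ S, G.dist x w = G.dist y w) → x = y) := by
    intro S
    constructor
    · intro h x y hxy
      by_contra hne
      obtain ⟨w, hw, h'⟩ := h x y hne
      exact h' (hxy w hw)
    · intro h u v huv
      by_contra hcon
      push Not at hcon
      exact huv (h u v hcon)
  have toE : ∀ S : Finset V, (∀ a b c d : V, G.Adj a b → G.Adj c d → s(a, b) ≠ s(c, d) →
      ∃ w ∈ S, min (G.dist a w) (G.dist b w) ≠ min (G.dist c w) (G.dist d w)) ↔
      (∀ f ∈ G.edgeSet, ∀ g ∈ G.edgeSet,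
        (∀ w ∈ S, H9.MD.ed G f w = H9.MD.ed G g w) → f = g) := by
    intro S
    constructor
    · intro h f hf g hg
      induction f using Sym2.ind with
      | _ a b =>
        induction g using Sym2.ind with
        | _ c d =>
          intro hfg
          by_contra hne
          obtain ⟨w, hw, h'⟩ := h a b c d hf hg hne
          have h2 := hfg w hw
          rw [H9.MD.ed_mk, H9.MD.ed_mk] at h2
          exact h' h2
    · intro h a b c d hab hcd hne
      by_contra hcon
      push Not at hcon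
      exact hne (h s(a, b) hab s(c, d) hcd hcon)
  -- both sets of sizes are nonempty
  have neV : ({k : ℕ | ∃ S : Finset V, S.card = k ∧
      ∀ u v : V, u ≠ v → ∃ w ∈ S, G.dist u w ≠ G.dist v w}).Nonempty := by
    refine ⟨_, Finset.univ, rfl, fun u v huv => ⟨u, Finset.mem_univ _, ?_⟩⟩
    rw [SimpleGraph.dist_self]
    intro h
    exact huv (H9.MD.dist_zero hG h.symm).symm
  have neE : ({k : ℕ | ∃ S : Finset V, S.card = k ∧
      ∀ a b c d : V, G.Adj a b → G.Adj c d → s(a, b) ≠ s(c, d) →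
        ∃ w ∈ S, min (G.dist a w) (G.dist b w) ≠ min (G.dist c w) (G.dist d w)}).Nonempty := by
    refine ⟨_, Finset.univ, rfl, (toE _).2 fun f hf g hg hfg => ?_⟩
    have hsub : ∀ x ∈ f, x ∈ g := by
      intro x hx
      apply H9.MD.mem_of_ed_eq_zero hG
      rw [← hfg x (Finset.mem_univ _)]
      exact H9.MD.ed_self_eq_zero hx
    induction f using Sym2.ind with
    | _ a b =>
      have hab : a ≠ b := ((SimpleGraph.mem_edgeSet G).1 hf).ne
      exact ((Sym2.mem_and_mem_iff hab).1 ⟨hsub a (by simp), hsub b (by simp)⟩).symm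
  have hV := Nat.sInf_mem neV
  have hE := Nat.sInf_mem neE
  obtain ⟨S, hS1, hS2⟩ := hV
  obtain ⟨T, hT1, hT2⟩ := hE
  have hpos : 0 < Fintype.card V := Fintype.card_pos_iff.2 ⟨v₀⟩
  by_cases h1 : Fintype.card V = 1
  · have hsub : Subsingleton V := Fintype.card_le_one_iff_subsingleton.1 h1.le
    have a1 : sInf {k : ℕ | ∃ S : Finset V, S.card = k ∧
        ∀ u v : V, u ≠ v → ∃ w ∈ S, G.dist u w ≠ G.dist v w} = 0 := by
      apply Nat.sInf_eq_zero.2
      left
      exact ⟨∅, rfl, fun u v huv => absurd (Subsingleton.elim u v) huv⟩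
    have a2 : sInf {k : ℕ | ∃ S : Finset V, S.card = k ∧
        ∀ a b c d : V, G.Adj a b → G.Adj c d → s(a, b) ≠ s(c, d) →
          ∃ w ∈ S, min (G.dist a w) (G.dist b w) ≠ min (G.dist c w) (G.dist d w)} = 0 := by
      apply Nat.sInf_eq_zero.2
      left
      exact ⟨∅, rfl, fun a b c d hab => absurd (Subsingleton.elim a b) hab.ne⟩
    rw [a1, a2, h1]
    simp
  · have h3 : 3 ≤ Fintype.card V := by omega
    have hSne : S.Nonempty := by
      obtain ⟨u, v, huv⟩ := Fintype.exists_pair_of_one_lt_card (by omega : 1 < Fintype.card V)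
      obtain ⟨w, hw, -⟩ := hS2 u v huv
      exact ⟨w, hw⟩
    have hTne : T.Nonempty := by
      have h4 := hG.card_vert_le_card_edgeSet_add_one
      rw [Nat.card_eq_fintype_card, Nat.card_eq_fintype_card,
        ← SimpleGraph.edgeFinset_card] at h4
      obtain ⟨f, hf, g, hg, hfg⟩ := Finset.one_lt_card.1 (by omega : 1 < G.edgeFinset.card)
      rw [SimpleGraph.mem_edgeFinset] at hf hg
      by_contra hcon
      rw [Finset.not_nonempty_iff_eq_empty] at hcon
      subst hcon
      exact hfg ((toE _).1 hT2 f hf g hg (by simp))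
    obtain ⟨W, hW1, hW2, hW3, -⟩ := H9.MD.main hG S hSne
    obtain ⟨U, hU1, hU2, -, hU3⟩ := H9.MD.main hG T hTne
    have b1 : sInf {k : ℕ | ∃ S : Finset V, S.card = k ∧
        ∀ a b c d : V, G.Adj a b → G.Adj c d → s(a, b) ≠ s(c, d) →
          ∃ w ∈ S, min (G.dist a w) (G.dist b w) ≠ min (G.dist c w) (G.dist d w)} ≤ W.card :=
      Nat.sInf_le ⟨W, rfl, (toE _).2 (hW3 ((toV _).1 hS2))⟩
    have b2 : sInf {k : ℕ | ∃ S : Finset V, S.card = k ∧
        ∀ u v : V, u ≠ v → ∃ w ∈ S, G.dist u w ≠ G.dist v w} ≤ U.card :=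
      Nat.sInf_le ⟨U, rfl, (toV _).2 (hU3 ((toE _).1 hT2))⟩
    rw [hS1] at hW2
    rw [hT1] at hU2
    rw [abs_le]
    constructor <;> omega

end Pool.Agent.S10509
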