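import Pool.Statements.S10752
import Pool.Agent.H31.Rado

set_option autoImplicit false
open MeasureTheory
open Pool Pool.MP_ac9a20_co

namespace Pool.Agent.S10752

open Pool.Agent.H31.Rado

/-- The orbits of a group on non-diagonal pairs. -/
abbrev Orb (Ω : Type) (G : Subgroup (Equiv.Perm Ω)) : Type :=
  {S : Set (Sym2 Ω) // ∃ e : Sym2 Ω, ¬ e.IsDiag ∧
            S = {e' : Sym2 Ω | ∃ g ∈ G, Sym2.map (⇑g) e = e'}}

/-- The orbit of a pair of distinct points. -/
def orb {Ω : Type} (G : Subgroup (Equiv.Perm Ω)) (x y : Ω) (h : x ≠ y) : Orb Ω G :=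
  ⟨{e' : Sym2 Ω | ∃ g ∈ G, Sym2.map (⇑g) s(x, y) = e'}, s(x, y), by simpa using h, rfl⟩

theorem mem_orb_self {Ω : Type} (G : Subgroup (Equiv.Perm Ω)) (x y : Ω) (h : x ≠ y) :
    s(x, y) ∈ (orb G x y h).1 := ⟨1, G.one_mem, by simp⟩

theorem orb_unique {Ω : Type} (G : Subgroup (Equiv.Perm Ω)) (x y : Ω) (h : x ≠ y)
    (S : Orb Ω G) (hS : s(x, y) ∈ S.1) : S = orb G x y h := by
  obtain ⟨S, e, he, rfl⟩ := S
  obtain ⟨g, hg, hge⟩ := hS
  apply Subtype.ext
  ext e'
  constructor
  · rintro ⟨k, hk, hke⟩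
    refine ⟨k * g⁻¹, G.mul_mem hk (G.inv_mem hg), ?_⟩
    rw [← hge, Sym2.map_map]
    rw [← hke]
    congr 1
    ext z
    simp
  · rintro ⟨k, hk, hke⟩
    refine ⟨k * g, G.mul_mem hk hg, ?_⟩
    rw [← hke, ← hge, Sym2.map_map]
    rfl

theorem orb_comm {Ω : Type} (G : Subgroup (Equiv.Perm Ω)) (x y : Ω) (h : x ≠ y) :
    orb G x y h = orb G y x h.symm := by
  apply orb_unique
  have := mem_orb_self G x y h
  rwa [Sym2.eq_swap] at this

theorem orb_map {Ω : Type} (G : Subgroup (Equiv.Perm Ω)) (x y x' y' : Ω) (h : x ≠ y)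
    (h' : x' ≠ y') (g : Equiv.Perm Ω) (hg : g ∈ G) (hx : g x = x') (hy : g y = y') :
    orb G x y h = orb G x' y' h' := by
  apply orb_unique
  exact ⟨g, hg, by simp [hx, hy]⟩

/-- The random graph attached to a choice of coins. -/
abbrev rg {Ω : Type} (G : Subgroup (Equiv.Perm Ω)) (c : Orb Ω G → Bool) : SimpleGraph Ω :=
  SimpleGraph.fromRel (fun x y : Ω => ∃ S : {S : Set (Sym2 Ω) // ∃ e : Sym2 Ω, ¬ e.IsDiag ∧
                S = {e' : Sym2 Ω | ∃ g ∈ G, Sym2.map (⇑g) e = e'}},
              s(x, y) ∈ S.1 ∧ c S = true)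

theorem rg_adj {Ω : Type} (G : Subgroup (Equiv.Perm Ω)) (c : Orb Ω G → Bool) (x y : Ω)
    (h : x ≠ y) : (rg G c).Adj x y ↔ c (orb G x y h) = true := by
  rw [rg, SimpleGraph.fromRel_adj]
  constructor
  · rintro ⟨-, ⟨S, hS, hc⟩ | ⟨S, hS, hc⟩⟩
    · rwa [orb_unique G x y h S hS] at hc
    · rw [orb_unique G y x h.symm S hS] at hc
      rwa [orb_comm]
  · intro hc
    exact ⟨h, Or.inl ⟨orb G x y h, mem_orb_self G x y h, hc⟩⟩

/-- The index set of coins for the counterexample. -/
abbrev I : Type := Orb ℕ GG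

theorem exists_data : ∃ z : ℕ, col z = 0 ∧ ∃ b b' : ℕ → ℕ, ∀ j, col (b j) = j + 1 ∧
    col (b' j) = j + 1 ∧ bit.Adj z (b j) ∧ ¬ bit.Adj z (b' j) := by
  obtain ⟨z, -, -, hz, -, -⟩ := bit_ext_col 0 ∅ ∅ (by simp)
  refine ⟨z, hz, ?_⟩
  have h1 : ∀ j : ℕ, ∃ b, col b = j + 1 ∧ bit.Adj z b := by
    intro j
    obtain ⟨b, -, -, hb, hb1, -⟩ := bit_ext_col (j + 1) {z} ∅ (by simp)
    exact ⟨b, hb, (hb1 z (by simp)).symm⟩
  have h2 : ∀ j : ℕ, ∃ b, col b = j + 1 ∧ ¬ bit.Adj z b := by
    intro j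
    obtain ⟨b, -, -, hb, -, hb1⟩ := bit_ext_col (j + 1) ∅ {z} (by simp)
    exact ⟨b, hb, fun h => hb1 z (by simp) h.symm⟩
  choose b hb using h1
  choose b' hb' using h2
  exact ⟨b, b', fun j => ⟨(hb j).1, (hb' j).1, (hb j).2, (hb' j).2⟩⟩

theorem coin_half (x : Bool) : (PMF.uniformOfFintype Bool).toMeasure {x} = 2⁻¹ := by
  rw [PMF.toMeasure_apply_singleton _ _ (by measurability)]
  simp

/-- If all the pairs of coins differ, then we are in a null set. -/
theorem null_set {ι : Type} (f f' : ℕ → ι) (hf : Function.Injective f)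
    (hf' : Function.Injective f') (hff' : ∀ i j, f i ≠ f' j) :
    (Measure.infinitePi (fun _ : ι => (PMF.uniformOfFintype Bool).toMeasure))
      {c : ι → Bool | ∀ j, c (f j) ≠ c (f' j)} = 0 := by
  classical
  set μ := Measure.infinitePi (fun _ : ι => (PMF.uniformOfFintype Bool).toMeasure)
  have key : ∀ n : ℕ, μ {c : ι → Bool | ∀ j, c (f j) ≠ c (f' j)} ≤ (2⁻¹ : ENNReal) ^ n := by
    intro n
    -- target boxes
    let t : (Fin n → Bool) → ι → Set Bool := fun ε i =>
      {b | (∀ j : Fin n, i = f j → b = ε j) ∧ (∀ j : Fin n, i = f' j → b = !(ε j))}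
    let s : Finset ι := (Finset.univ : Finset (Fin n)).image (fun j : Fin n => f (j : ℕ)) ∪
      (Finset.univ : Finset (Fin n)).image (fun j : Fin n => f' (j : ℕ))
    have hsub : {c : ι → Bool | ∀ j, c (f j) ≠ c (f' j)} ⊆
        ⋃ ε : Fin n → Bool, Set.pi s (t ε) := by
      intro c hc
      refine Set.mem_iUnion.2 ⟨fun j => c (f j), ?_⟩
      intro i hi
      refine ⟨?_, ?_⟩
      · rintro j rfl
        rfl
      · rintro j rfl
        have h1 : c (f (j : ℕ)) ≠ c (f' (j : ℕ)) := hc (j : ℕ)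
        show c (f' (j : ℕ)) = !(c (f (j : ℕ)))
        revert h1
        cases c (f (j : ℕ)) <;> cases c (f' (j : ℕ)) <;> simp
    have hbox : ∀ ε : Fin n → Bool, μ (Set.pi s (t ε)) = (2⁻¹ : ENNReal) ^ (2 * n) := by
      intro ε
      rw [Measure.infinitePi_pi _ (fun i _ => by measurability)]
      have hdisj : Disjoint ((Finset.univ : Finset (Fin n)).image (fun j : Fin n => f (j : ℕ)))
          ((Finset.univ : Finset (Fin n)).image (fun j : Fin n => f' (j : ℕ))) := by
        rw [Finset.disjoint_left]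
        intro x hx hx'
        obtain ⟨i, -, rfl⟩ := Finset.mem_image.1 hx
        obtain ⟨j, -, hj⟩ := Finset.mem_image.1 hx'
        exact hff' i j hj.symm
      rw [Finset.prod_union hdisj, Finset.prod_image, Finset.prod_image]
      · have e1 : ∀ j : Fin n, t ε (f j) = {ε j} := by
          intro j
          ext b
          simp only [t, Set.mem_ofPred_eq, Set.mem_singleton_iff]
          constructor
          · rintro ⟨h, -⟩
            exact h j rfl
          · rintro rfl
            refine ⟨?_, ?_⟩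
            · intro k hk
              have : j = k := Fin.ext (hf hk)
              rw [this]
            · intro k hk
              exact absurd hk (hff' _ _)
        have e2 : ∀ j : Fin n, t ε (f' j) = {!(ε j)} := by
          intro j
          ext b
          simp only [t, Set.mem_ofPred_eq, Set.mem_singleton_iff]
          constructor
          · rintro ⟨-, h⟩
            exact h j rfl
          · rintro rfl
            refine ⟨?_, ?_⟩
            · intro k hk
              exact absurd hk.symm (hff' _ _)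
            · intro k hk
              have : j = k := Fin.ext (hf' hk)
              rw [this]
        simp only [e1, e2, coin_half, Finset.prod_const, Finset.card_univ, Fintype.card_fin]
        rw [← pow_add, two_mul]
      · intro i _ j _ h
        exact Fin.ext (hf' h)
      · intro i _ j _ h
        exact Fin.ext (hf h)
    calc μ {c : ι → Bool | ∀ j, c (f j) ≠ c (f' j)} ≤ μ (⋃ ε : Fin n → Bool, Set.pi s (t ε)) :=
          measure_mono hsub
      _ ≤ ∑ ε : Fin n → Bool, μ (Set.pi s (t ε)) := measure_iUnion_fintype_le _ _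
      _ = ∑ _ε : Fin n → Bool, (2⁻¹ : ENNReal) ^ (2 * n) := by simp only [hbox]
      _ = (2 : ENNReal) ^ n * (2⁻¹ : ENNReal) ^ (2 * n) := by
          simp [Finset.sum_const, Finset.card_univ]
      _ = (2⁻¹ : ENNReal) ^ n := by
          rw [two_mul, pow_add, ← mul_assoc, ← mul_pow, ENNReal.mul_inv_cancel (by simp) (by simp),
            one_pow, one_mul]
  have hlim : Filter.Tendsto (fun n : ℕ => (2⁻¹ : ENNReal) ^ n) Filter.atTop (nhds 0) :=
    ENNReal.tendsto_pow_atTop_nhds_zero_of_lt_one (by simp)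
  exact le_antisymm (ge_of_tendsto' hlim key) bot_le

/-- The negation of the preceding statement: For every permutation group G on a countable set: some G-invariant graph is isomorphic to the Rado graph iff flipping an independent fair coin per G-orbit on 2-subsets gives a graph isomorphic to the Rado graph with positive probability. -/
theorem result :
    ¬ (∀ (Ω : Type) [Countable Ω] (G : Subgroup (Equiv.Perm Ω)),
    (∃ Γ : SimpleGraph Ω, (∀ g ∈ G, ∀ x y : Ω, Γ.Adj (g x) (g y) ↔ Γ.Adj x y) ∧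
        Nonempty (Γ ≃g SimpleGraph.fromRel (fun i j : ℕ => Nat.testBit j i = true))) ↔
    (Measure.infinitePi
        (fun _ : {S : Set (Sym2 Ω) // ∃ e : Sym2 Ω, ¬ e.IsDiag ∧
            S = {e' : Sym2 Ω | ∃ g ∈ G, Sym2.map (⇑g) e = e'}} =>
          (PMF.uniformOfFintype Bool).toMeasure))
      {c : {S : Set (Sym2 Ω) // ∃ e : Sym2 Ω, ¬ e.IsDiag ∧
            S = {e' : Sym2 Ω | ∃ g ∈ G, Sym2.map (⇑g) e = e'}} → Bool |
        Nonempty (SimpleGraph.fromRel
            (fun x y : Ω => ∃ S : {S : Set (Sym2 Ω) // ∃ e : Sym2 Ω, ¬ e.IsDiag ∧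
                S = {e' : Sym2 Ω | ∃ g ∈ G, Sym2.map (⇑g) e = e'}},
              s(x, y) ∈ S.1 ∧ c S = true)
          ≃g SimpleGraph.fromRel (fun i j : ℕ => Nat.testBit j i = true))} > 0) := by
  intro H
  obtain ⟨z, hz, b, b', hbb⟩ := exists_data
  have hzb : ∀ j, z ≠ b j := fun j h => by
    have := (hbb j).1
    rw [← h, hz] at this
    exact Nat.succ_ne_zero _ this.symm
  have hzb' : ∀ j, z ≠ b' j := fun j h => by
    have := (hbb j).2.1
    rw [← h, hz] at this
    exact Nat.succ_ne_zero _ this.symm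
  have hbb' : ∀ j, b j ≠ b' j := fun j h => by
    have h1 := (hbb j).2.2.1
    have h2 := (hbb j).2.2.2
    rw [h] at h1
    exact h2 h1
  have hpos := (H ℕ GG).1 ⟨Γ, fun g hg x y => hg.2 x y, iso_of_ext Γ bit Γ_ext bit_ext⟩
  -- colours are invariants of orbits
  let f : ℕ → I := fun j => orb GG z (b j) (hzb j)
  let f' : ℕ → I := fun j => orb GG z (b' j) (hzb' j)
  have horb : ∀ x y x' y' : ℕ, ∀ h : x ≠ y, ∀ h' : x' ≠ y', orb GG x y h = orb GG x' y' h' →
      ∃ g ∈ GG, (g x = x' ∧ g y = y') ∨ (g x = y' ∧ g y = x') := by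
    intro x y x' y' h h' heq
    have hm := mem_orb_self GG x' y' h'
    rw [← heq] at hm
    obtain ⟨g, hg, hge⟩ := hm
    refine ⟨g, hg, ?_⟩
    simpa using hge
  have hcol : ∀ x y x' y' : ℕ, ∀ h : x ≠ y, ∀ h' : x' ≠ y', col x = 0 → col x' = 0 →
      orb GG x y h = orb GG x' y' h' → col y = col y' := by
    intro x y x' y' h h' hx hx' heq
    obtain ⟨g, hg, ⟨h1, h2⟩ | ⟨h1, h2⟩⟩ := horb x y x' y' h h' heq
    · rw [← h2, hg.1]
    · rw [← hg.1 y, h2, hx', ← h1, hg.1, hx]
  have hf : Function.Injective f := by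
    intro i j hij
    have := hcol _ _ _ _ _ _ hz hz hij
    rw [(hbb i).1, (hbb j).1] at this
    exact Nat.succ_injective this
  have hf' : Function.Injective f' := by
    intro i j hij
    have := hcol _ _ _ _ _ _ hz hz hij
    rw [(hbb i).2.1, (hbb j).2.1] at this
    exact Nat.succ_injective this
  have hff' : ∀ i j, f i ≠ f' j := by
    intro i j hij
    obtain ⟨g, hg, hgg⟩ := horb _ _ _ _ _ _ hij
    have h1 : Γ.Adj z (b i) := ⟨Or.inl hz, (hbb i).2.2.1⟩
    have h2 : ¬ Γ.Adj z (b' j) := fun h => (hbb j).2.2.2 h.2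
    rw [← hg.2] at h1
    rcases hgg with ⟨h3, h4⟩ | ⟨h3, h4⟩
    · rw [h3, h4] at h1
      exact h2 h1
    · rw [h3, h4] at h1
      exact h2 h1.symm
  have hnull := null_set f f' hf hf' hff'
  refine hpos.ne' (measure_mono_null ?_ hnull)
  rintro c ⟨φ⟩ j hj
  -- the two vertices `b j`, `b' j` are twins
  have htwin : ∀ w, w ≠ b j → w ≠ b' j → ((rg GG c).Adj w (b j) ↔ (rg GG c).Adj w (b' j)) := by
    intro w h1 h2
    rw [rg_adj _ _ _ _ h1, rg_adj _ _ _ _ h2]
    have hcb := (hbb j).1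
    have hcb' := (hbb j).2.1
    by_cases hw : col w = 0
    · -- both orbits are among `f j`, `f' j`
      have hor : ∀ x, ∀ h : w ≠ x, col x = j + 1 → orb GG w x h = f j ∨ orb GG w x h = f' j := by
        intro x h hx
        by_cases hadj : Γ.Adj w x
        · left
          obtain ⟨g, hg, hg1, hg2⟩ := exists_map_pair (x := w) (y := x) (x' := z) (y' := b j)
            h (hzb j) (by rw [hw, hz]) (by rw [hx, hcb])
            ⟨fun _ => ⟨Or.inl hz, (hbb j).2.2.1⟩, fun _ => hadj⟩
          exact orb_map _ _ _ _ _ _ _ g hg hg1 hg2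
        · right
          obtain ⟨g, hg, hg1, hg2⟩ := exists_map_pair (x := w) (y := x) (x' := z) (y' := b' j)
            h (hzb' j) (by rw [hw, hz]) (by rw [hx, hcb'])
            ⟨fun h => absurd h hadj, fun h => absurd h.2 (hbb j).2.2.2⟩
          exact orb_map _ _ _ _ _ _ _ g hg hg1 hg2
      have e1 : c (orb GG w (b j) h1) = c (f j) := by
        rcases hor _ h1 hcb with h | h
        · rw [h]
        · rw [h, hj]
      have e2 : c (orb GG w (b' j) h2) = c (f j) := by
        rcases hor _ h2 hcb' with h | h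
        · rw [h]
        · rw [h, hj]
      rw [e1, e2]
    · have hn1 : ¬ Γ.Adj w (b j) := by
        rintro ⟨h | h, -⟩
        · exact hw h
        · rw [hcb] at h
          exact Nat.succ_ne_zero _ h
      have hn2 : ¬ Γ.Adj w (b' j) := by
        rintro ⟨h | h, -⟩
        · exact hw h
        · rw [hcb'] at h
          exact Nat.succ_ne_zero _ h
      obtain ⟨g, hg, hg1, hg2⟩ := exists_map_pair (x := w) (y := b j) (x' := w) (y' := b' j)
        h1 h2 rfl (by rw [hcb, hcb']) ⟨fun h => absurd h hn1, fun h => absurd h hn2⟩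
      rw [orb_map _ _ _ _ _ h1 h2 g hg hg1 hg2]
  -- contradiction in the Rado graph
  obtain ⟨y, hy1, hy2, hy3, hy4⟩ := bit_ext {φ (b j)} {φ (b' j)} (by
    simp only [Finset.disjoint_singleton]
    exact fun h => hbb' j (φ.injective h))
  have hw1 : φ.symm y ≠ b j := by
    intro h
    apply hy1
    rw [← h]
    simp
  have hw2 : φ.symm y ≠ b' j := by
    intro h
    apply hy2
    rw [← h]
    simp
  have hyy : φ (φ.symm y) = y := φ.apply_symm_apply y
  have h3 : (rg GG c).Adj (φ.symm y) (b j) := by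
    rw [← φ.map_adj_iff, hyy]
    exact hy3 _ (Finset.mem_singleton_self _)
  have h4 : ¬ (rg GG c).Adj (φ.symm y) (b' j) := by
    rw [← φ.map_adj_iff, hyy]
    exact hy4 _ (Finset.mem_singleton_self _)
  exact h4 ((htwin _ hw1 hw2).1 h3)

end Pool.Agent.S10752
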