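import Pool.Statements.S10761
import Pool.Agent.H32.LC.Limit

set_option autoImplicit false
open Pool Pool.MP_acfcdd_co

namespace Pool.Agent.S10761

/-- There is a metric space with Lion and Christian starting points joined by a path, and a time T, such that in the game up to time T with speed-1 paths, neither a no-lookahead Christian strategy avoiding capture nor a no-lookahead Lion strategy forcing capture exists. -/
theorem result :
  ∃ (X : Type) (_ : MetricSpace X) (x₀ y₀ : X) (T : NNReal),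
    Nonempty (Path x₀ y₀) ∧
    (¬ ∃ Φ : (NNReal → X) → (NNReal → X),
        (∀ f : NNReal → X, LipschitzWith 1 f → f 0 = x₀ →
          LipschitzWith 1 (Φ f) ∧ Φ f 0 = y₀) ∧
        (∀ f f' : NNReal → X, LipschitzWith 1 f → f 0 = x₀ →
          LipschitzWith 1 f' → f' 0 = x₀ →
          ∀ t : NNReal, (∀ s ≤ t, f s = f' s) → Φ f t = Φ f' t) ∧
        (∀ f : NNReal → X, LipschitzWith 1 f → f 0 = x₀ →
          ∀ t ≤ T, Φ f t ≠ f t)) ∧
    (¬ ∃ Ψ : (NNReal → X) → (NNReal → X),
        (∀ g : NNReal → X, LipschitzWith 1 g → g 0 = y₀ →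
          LipschitzWith 1 (Ψ g) ∧ Ψ g 0 = x₀) ∧
        (∀ g g' : NNReal → X, LipschitzWith 1 g → g 0 = y₀ →
          LipschitzWith 1 g' → g' 0 = y₀ →
          ∀ t : NNReal, (∀ s ≤ t, g s = g' s) → Ψ g t = Ψ g' t) ∧
        (∀ g : NNReal → X, LipschitzWith 1 g → g 0 = y₀ →
          ∃ t ≤ T, Ψ g t = g t)) :=
  ⟨Pool.Agent.H32.LC.Arena, inferInstance, Pool.Agent.H32.LC.xA, Pool.Agent.H32.LC.yA, 2,
    Pool.Agent.H32.LC.exists_path, Pool.Agent.H32.LC.christian_loses,
    Pool.Agent.H32.LC.lion_loses 2⟩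

end Pool.Agent.S10761
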