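import Pool.Statements.S11288
import Pool.Agent.H33.BentFinal

set_option autoImplicit false
open Pool Pool.MP_c42c89_co

namespace Pool.Agent.S11288

/-- The negation of the preceding statement: There are real constants c in [1,2] and d such that the number of bent Boolean functions in n = 2k variables, divided by 2^(2^(n−c) + d·C(n,n/2)), tends to 1 as k grows. -/
theorem result :
    ¬ (∃ c d : ℝ, 1 ≤ c ∧ c ≤ 2 ∧
      Filter.Tendsto
        (fun k : ℕ =>
          (Nat.card {f : (Fin (2 * k) → ZMod 2) → ZMod 2 //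
              ∀ a : Fin (2 * k) → ZMod 2,
                (∑ x : Fin (2 * k) → ZMod 2,
                    (-1 : ℤ) ^ (f x + ∑ i, a i * x i).val) ^ 2 = 2 ^ (2 * k)} : ℝ) /
            (2 : ℝ) ^ ((2 : ℝ) ^ ((2 * k : ℝ) - c) + d * ((Nat.choose (2 * k) k : ℕ) : ℝ)))
        Filter.atTop (nhds 1)) :=
  Pool.Agent.H33.Bent.final

end Pool.Agent.S11288
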