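import Pool.Statements.S11298
import Pool.Agent.H33.Chrom

set_option autoImplicit false
open Pool Pool.MP_c4704f_co

namespace Pool.Agent.S11298

/-- The negation of the preceding statement: There is c>0 such that for every finite graph G with an edge and every vertex v, the chromatic Ramsey number of G minus v is at least c times the chromatic Ramsey number of G. -/
theorem result :
    ¬ (∃ c : ℝ, 0 < c ∧
      ∀ (n : ℕ) (G : SimpleGraph (Fin (n + 1))) (v : Fin (n + 1)),
        G.edgeSet.Nonempty →
          c * ((sInf {N : ℕ | ∃ (m : ℕ) (H : SimpleGraph (Fin m)), H.Colorable N ∧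
                ∀ col : Fin m → Fin m → Bool, (∀ a b, col a b = col b a) →
                  ∃ (f : Fin (n + 1) → Fin m) (b : Bool),
                  Function.Injective f ∧
                  ∀ x y : Fin (n + 1), G.Adj x y →
                    H.Adj (f x) (f y) ∧ col (f x) (f y) = b} : ℕ) : ℝ)
            ≤ ((sInf {N : ℕ | ∃ (m : ℕ) (H : SimpleGraph (Fin m)), H.Colorable N ∧
                ∀ col : Fin m → Fin m → Bool, (∀ a b, col a b = col b a) →
                  ∃ (f : Fin n → Fin m) (b : Bool),
                  Function.Injective f ∧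
                  ∀ x y : Fin n, G.Adj (v.succAbove x) (v.succAbove y) →
                    H.Adj (f x) (f y) ∧ col (f x) (f y) = b} : ℕ) : ℝ)) := by
  rintro ⟨c, hc, hmain⟩
  -- choose k with c * 20^k > 16^k + 1
  obtain ⟨k, hk1, hk2⟩ : ∃ k : ℕ, 1 ≤ k ∧ ((16 : ℝ) ^ k + 1) < c * 20 ^ k := by
    have h1 : Filter.Tendsto (fun k : ℕ => ((20 : ℝ) / 16) ^ k) Filter.atTop Filter.atTop :=
      tendsto_pow_atTop_atTop_of_one_lt (by norm_num)
    obtain ⟨k, hk1, hk2⟩ := (h1.eventually_ge_atTop (2 / c + 1)).and
      (Filter.eventually_ge_atTop 1) |>.exists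
    refine ⟨k, hk2, ?_⟩
    have h16 : (1 : ℝ) ≤ 16 ^ k := one_le_pow₀ (by norm_num)
    have h2 : (20 : ℝ) ^ k = (20 / 16) ^ k * 16 ^ k := by
      rw [← mul_pow]; norm_num
    have h3 : c * (2 / c + 1) = 2 + c := by field_simp
    have h4 : 2 + c ≤ c * (20 / 16) ^ k := by
      rw [← h3]; exact mul_le_mul_of_nonneg_left hk1 hc.le
    rw [h2]
    nlinarith
  obtain ⟨n, G, hn, hup, hlow⟩ := Pool.Agent.H33.main_construction k hk1
  have hedge : (Pool.Agent.H33.cone G).edgeSet.Nonempty := by
    refine ⟨s(0, Fin.succ ⟨0, hn⟩), ?_⟩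
    rw [SimpleGraph.mem_edgeSet]
    exact Pool.Agent.H33.cone_adj_zero G _
  have hm := hmain n (Pool.Agent.H33.cone G) 0 hedge
  simp only [Fin.zero_succAbove, Pool.Agent.H33.cone_adj_succ] at hm
  have hne := Pool.Agent.H33.nonempty_host (Pool.Agent.H33.cone G)
  have h1 := hlow _ (Nat.sInf_mem hne)
  have h1' : ((20 : ℝ) ^ k) ≤ ((sInf {N : ℕ | ∃ (m : ℕ) (H : SimpleGraph (Fin m)), H.Colorable N ∧
                ∀ col : Fin m → Fin m → Bool, (∀ a b, col a b = col b a) →
                  ∃ (f : Fin (n + 1) → Fin m) (b : Bool),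
                  Function.Injective f ∧
                  ∀ x y : Fin (n + 1), (Pool.Agent.H33.cone G).Adj x y →
                    H.Adj (f x) (f y) ∧ col (f x) (f y) = b} : ℕ) : ℝ) := by
    have := h1.le
    exact_mod_cast this
  have h2' : ((sInf {N : ℕ | ∃ (m : ℕ) (H : SimpleGraph (Fin m)), H.Colorable N ∧
                ∀ col : Fin m → Fin m → Bool, (∀ a b, col a b = col b a) →
                  ∃ (f : Fin n → Fin m) (b : Bool),
                  Function.Injective f ∧
                  ∀ x y : Fin n, G.Adj x y →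
                    H.Adj (f x) (f y) ∧ col (f x) (f y) = b} : ℕ) : ℝ) ≤ 16 ^ k + 1 := by
    have h2 : sInf {N : ℕ | ∃ (m : ℕ) (H : SimpleGraph (Fin m)), H.Colorable N ∧
                ∀ col : Fin m → Fin m → Bool, (∀ a b, col a b = col b a) →
                  ∃ (f : Fin n → Fin m) (b : Bool),
                  Function.Injective f ∧
                  ∀ x y : Fin n, G.Adj x y →
                    H.Adj (f x) (f y) ∧ col (f x) (f y) = b} ≤ 16 ^ k + 1 := Nat.sInf_le hup
    exact_mod_cast h2
  have h3 := mul_le_mul_of_nonneg_left h1' hc.le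
  linarith

end Pool.Agent.S11298
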