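import Pool.Statements.S11549
import Pool.Agent.H34.OC.FINAL

set_option autoImplicit false
open Pool Pool.MP_cfb535_co

namespace Pool.Agent.S11549

/-- For odd k≥3 there is N so every 2-connected nonbipartite graph on n≥N vertices with min degree ≥2n/(k+2), not isomorphic to the (k+2)-cycle blow-up, has cycles of every odd length from k to 2⌈2n/(k+2)⌉−1. -/
theorem result :
    ∀ k : ℕ, 3 ≤ k → Odd k → ∃ N : ℕ, ∀ (V : Type) [Fintype V], N ≤ Fintype.card V →
      ∀ G : SimpleGraph V,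
        3 ≤ Fintype.card V →
        (∀ v : V, (G.induce ({v}ᶜ : Set V)).Connected) →
        ¬ G.Colorable 2 →
        (∀ v : V, (2 * (Fintype.card V : ℝ)) / ((k : ℝ) + 2) ≤ ((G.neighborSet v).ncard : ℝ)) →
        (∀ s : ℕ, IsEmpty (G ≃g (SimpleGraph.cycleGraph (k + 2)).comap
            (Prod.fst : Fin (k + 2) × Fin s → Fin (k + 2)))) →
        ∀ t : ℕ, k ≤ 2 * t + 1 →
          ((2 * t + 1 : ℕ) : ℤ) ≤ 2 * ⌈(2 * (Fintype.card V : ℝ)) / ((k : ℝ) + 2)⌉ - 1 →
          ∃ (u : V) (p : G.Walk u u), p.IsCycle ∧ p.length = 2 * t + 1 :=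
  Pool.Agent.H34.OC.final

end Pool.Agent.S11549
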