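import Pool.Statements.S11583
import Pool.Agent.H35.Asm

set_option autoImplicit false
open scoped Pointwise
open Pool Pool.MP_d0f6b1_co

namespace Pool.Agent.S11583

/-- For every finite generating set S of Z^d, there are infinitely many natural t such that U(t), the lattice points of t times conv(S with 0), has boundary (U(t)+S) minus U(t) no larger than that of any set of the same size. -/
theorem result :
    ∀ (d : ℕ) (S : Finset (Fin d → ℤ)),
      AddSubgroup.closure (S : Set (Fin d → ℤ)) = ⊤ →
      Set.Infinite {t : ℕ | ∀ B : Set (Fin d → ℤ),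
        B = {x : Fin d → ℤ | (fun i => (x i : ℝ)) ∈
              (t : ℝ) • convexHull ℝ (insert (0 : Fin d → ℝ)
                ((fun u : Fin d → ℤ => fun i => (u i : ℝ)) '' (S : Set (Fin d → ℤ))))} →
        ∀ A : Finset (Fin d → ℤ), A.card = B.ncard →
          ((B + (S : Set (Fin d → ℤ))) \ B).ncard ≤ ((A + S) \ A).card} := by
  exact fun d S hS => Pool.Agent.H35.main d S hS

end Pool.Agent.S11583
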