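import Pool.Statements.S12304
import Pool.Agent.H37.Incidence

set_option autoImplicit false
open Pool Pool.MP_ef9ee6_co

namespace Pool.Agent.S12304

/-- The negation of the preceding statement: For each s there is C such that any m points and n lines in 3-space, with no plane containing more than s of the lines, have at most C(m^(2/3) n^(1/2) + m + n) point-line incidences. -/
theorem result :
    ¬ (∀ s : ℕ, ∃ C : ℝ, ∀ (P : Finset (EuclideanSpace ℝ (Fin 3)))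
      (L : Finset (AffineSubspace ℝ (EuclideanSpace ℝ (Fin 3)))),
      (∀ l ∈ L, Module.finrank ℝ l.direction = 1) →
      (∀ π : AffineSubspace ℝ (EuclideanSpace ℝ (Fin 3)),
          Module.finrank ℝ π.direction = 2 →
          {l : AffineSubspace ℝ (EuclideanSpace ℝ (Fin 3)) | l ∈ L ∧ l ≤ π}.ncard ≤ s) →
      (({x : EuclideanSpace ℝ (Fin 3) × AffineSubspace ℝ (EuclideanSpace ℝ (Fin 3)) |
          x.1 ∈ P ∧ x.2 ∈ L ∧ x.1 ∈ x.2}.ncard : ℕ) : ℝ) ≤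
        C * ((P.card : ℝ) ^ ((2 : ℝ) / 3) * (L.card : ℝ) ^ ((1 : ℝ) / 2)
          + (P.card : ℝ) + (L.card : ℝ))) := by
  intro H
  obtain ⟨C, hC⟩ := H 2
  -- choose a large parameter
  obtain ⟨M, hM⟩ := exists_nat_gt (max (25 * |C|) 1)
  have hM1 : (1 : ℝ) < M := lt_of_le_of_lt (le_max_right _ _) hM
  have hMC : 25 * |C| < M := lt_of_le_of_lt (le_max_left _ _) hM
  obtain ⟨P, L, hL1, hL2, hP, hLc, hI⟩ := Pool.Agent.H37.construction (M ^ 6)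
  have hmain := hC P L hL1 hL2
  have hP' : (P.card : ℝ) ≤ 12 * (M : ℝ) ^ 48 := by
    have h1 : (P.card : ℝ) ≤ ((12 * (M ^ 6) ^ 8 : ℕ) : ℝ) := Nat.cast_le.2 hP
    calc (P.card : ℝ) ≤ ((12 * (M ^ 6) ^ 8 : ℕ) : ℝ) := h1
      _ = 12 * (M : ℝ) ^ 48 := by push_cast; ring
  have hL' : (L.card : ℝ) ≤ (M : ℝ) ^ 54 := by
    have h1 : (L.card : ℝ) ≤ (((M ^ 6) ^ 9 : ℕ) : ℝ) := Nat.cast_le.2 hLc
    calc (L.card : ℝ) ≤ (((M ^ 6) ^ 9 : ℕ) : ℝ) := h1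
      _ = (M : ℝ) ^ 54 := by push_cast; ring
  have hI' : (M : ℝ) ^ 60 ≤ (({x : EuclideanSpace ℝ (Fin 3) ×
      AffineSubspace ℝ (EuclideanSpace ℝ (Fin 3)) |
          x.1 ∈ P ∧ x.2 ∈ L ∧ x.1 ∈ x.2}.ncard : ℕ) : ℝ) := by
    have h1 : (((M ^ 6) ^ 10 : ℕ) : ℝ) ≤ (({x : EuclideanSpace ℝ (Fin 3) ×
      AffineSubspace ℝ (EuclideanSpace ℝ (Fin 3)) |
          x.1 ∈ P ∧ x.2 ∈ L ∧ x.1 ∈ x.2}.ncard : ℕ) : ℝ) := Nat.cast_le.2 hI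
    calc (M : ℝ) ^ 60 = (((M ^ 6) ^ 10 : ℕ) : ℝ) := by push_cast; ring
      _ ≤ _ := h1
  have hM0 : (0 : ℝ) ≤ M := by linarith
  have hPow : (P.card : ℝ) ^ ((2 : ℝ) / 3) ≤ 12 * (M : ℝ) ^ 32 := by
    have h1 : (P.card : ℝ) ^ ((2 : ℝ) / 3) ≤ (12 * (M : ℝ) ^ 48) ^ ((2 : ℝ) / 3) :=
      Real.rpow_le_rpow (Nat.cast_nonneg _) hP' (by norm_num)
    have h2 : (12 * (M : ℝ) ^ 48) ^ ((2 : ℝ) / 3)
        = (12 : ℝ) ^ ((2 : ℝ) / 3) * (M : ℝ) ^ 32 := by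
      rw [Real.mul_rpow (by norm_num) (by positivity)]
      congr 1
      rw [← Real.rpow_natCast, ← Real.rpow_mul hM0, ← Real.rpow_natCast]
      congr 1
      norm_num
    have h3 : (12 : ℝ) ^ ((2 : ℝ) / 3) ≤ (12 : ℝ) ^ (1 : ℝ) :=
      Real.rpow_le_rpow_of_exponent_le (by norm_num) (by norm_num)
    rw [Real.rpow_one] at h3
    calc (P.card : ℝ) ^ ((2 : ℝ) / 3) ≤ _ := h1
      _ = (12 : ℝ) ^ ((2 : ℝ) / 3) * (M : ℝ) ^ 32 := h2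
      _ ≤ 12 * (M : ℝ) ^ 32 := mul_le_mul_of_nonneg_right h3 (by positivity)
  have hLow : (L.card : ℝ) ^ ((1 : ℝ) / 2) ≤ (M : ℝ) ^ 27 := by
    have h1 : (L.card : ℝ) ^ ((1 : ℝ) / 2) ≤ ((M : ℝ) ^ 54) ^ ((1 : ℝ) / 2) :=
      Real.rpow_le_rpow (Nat.cast_nonneg _) hL' (by norm_num)
    have h2 : ((M : ℝ) ^ 54) ^ ((1 : ℝ) / 2) = (M : ℝ) ^ 27 := by
      rw [← Real.rpow_natCast, ← Real.rpow_mul hM0, ← Real.rpow_natCast]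
      congr 1
      norm_num
    linarith
  have hprod : (P.card : ℝ) ^ ((2 : ℝ) / 3) * (L.card : ℝ) ^ ((1 : ℝ) / 2)
      ≤ 12 * (M : ℝ) ^ 59 := by
    calc (P.card : ℝ) ^ ((2 : ℝ) / 3) * (L.card : ℝ) ^ ((1 : ℝ) / 2)
        ≤ (12 * (M : ℝ) ^ 32) * (M : ℝ) ^ 27 :=
          mul_le_mul hPow hLow (Real.rpow_nonneg (Nat.cast_nonneg _) _) (by positivity)
      _ = 12 * (M : ℝ) ^ 59 := by ring
  have hp48 : (M : ℝ) ^ 48 ≤ (M : ℝ) ^ 59 := pow_le_pow_right₀ hM1.le (by norm_num)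
  have hp54 : (M : ℝ) ^ 54 ≤ (M : ℝ) ^ 59 := pow_le_pow_right₀ hM1.le (by norm_num)
  have hsum : (P.card : ℝ) ^ ((2 : ℝ) / 3) * (L.card : ℝ) ^ ((1 : ℝ) / 2)
      + (P.card : ℝ) + (L.card : ℝ) ≤ 25 * (M : ℝ) ^ 59 := by linarith
  have hsum0 : 0 ≤ (P.card : ℝ) ^ ((2 : ℝ) / 3) * (L.card : ℝ) ^ ((1 : ℝ) / 2)
      + (P.card : ℝ) + (L.card : ℝ) := by positivity
  have h5 : C * ((P.card : ℝ) ^ ((2 : ℝ) / 3) * (L.card : ℝ) ^ ((1 : ℝ) / 2)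
      + (P.card : ℝ) + (L.card : ℝ)) ≤ |C| * (25 * (M : ℝ) ^ 59) := by
    calc _ ≤ |C| * ((P.card : ℝ) ^ ((2 : ℝ) / 3) * (L.card : ℝ) ^ ((1 : ℝ) / 2)
      + (P.card : ℝ) + (L.card : ℝ)) := mul_le_mul_of_nonneg_right (le_abs_self C) hsum0
      _ ≤ _ := mul_le_mul_of_nonneg_left hsum (abs_nonneg C)
  have h6 : (M : ℝ) ^ 60 ≤ |C| * (25 * (M : ℝ) ^ 59) := hI'.trans (hmain.trans h5)
  have hpos : (0 : ℝ) < (M : ℝ) ^ 59 := by positivity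
  have h7 : (M : ℝ) ^ 59 * M ≤ (M : ℝ) ^ 59 * (25 * |C|) := by
    calc (M : ℝ) ^ 59 * M = (M : ℝ) ^ 60 := by ring
      _ ≤ |C| * (25 * (M : ℝ) ^ 59) := h6
      _ = (M : ℝ) ^ 59 * (25 * |C|) := by ring
  have h8 : (M : ℝ) ≤ 25 * |C| := le_of_mul_le_mul_left h7 hpos
  linarith

end Pool.Agent.S12304
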