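import Pool.Statements.S12732
import Pool.Agent.H61.Comb2
import Pool.Agent.H61.CpBeta

set_option autoImplicit false
open Pool Pool.MP_0b3857_gt

namespace Pool.Agent.S12732

open Cardinal Set in
theorem counterexample :
    ∃ (κ : Type),
    ∃ 𝒰 : Set (Set {g : Ultrafilter κ → ℝ // Continuous g}),
        (∀ U ∈ 𝒰, IsOpen U) ∧ ⋃₀ 𝒰 = Set.univ ∧
        ¬ ∃ 𝒱 : ℕ → Set (Set {g : Ultrafilter κ → ℝ // Continuous g}),
          (∀ n, ∀ V ∈ 𝒱 n, IsOpen V ∧ ∃ U ∈ 𝒰, V ⊆ U) ∧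
          (∀ n, ⋃₀ 𝒱 n = Set.univ) ∧
          ∀ x : {g : Ultrafilter κ → ℝ // Continuous g}, ∃ n, {V ∈ 𝒱 n | x ∈ V}.Countable := by
  classical
  have h1 : (ℵ_ 1).IsRegular := by
    have := isRegular_aleph_succ 0
    rwa [Order.succ_eq_add_one, zero_add] at this
  have h2 : (ℵ_ 2).IsRegular := by
    have := isRegular_aleph_succ 1
    rwa [Order.succ_eq_add_one, one_add_one_eq_two] at this
  have c1 : Order.cof (ℵ_ 1).ord.ToType = ℵ_ 1 := by
    rw [Ordinal.cof_toType, h1.cof_ord]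
  have c2 : Order.cof (ℵ_ 2).ord.ToType = ℵ_ 2 := by
    rw [Ordinal.cof_toType, h2.cof_ord]
  have l01 : ℵ₀ < ℵ_ 1 := aleph0_lt_aleph_one
  have l12 : ℵ_ 1 < ℵ_ 2 := aleph_lt_aleph.mpr one_lt_two
  have m1 : #((ℵ_ 1).ord.ToType) = ℵ_ 1 := mk_ord_toType _
  haveI : NoMaxOrder (ℵ_ 1).ord.ToType := Cardinal.noMaxOrder l01.le
  haveI : NoMaxOrder (ℵ_ 2).ord.ToType := Cardinal.noMaxOrder (l01.trans l12).le
  haveI : Nonempty (ℵ_ 1).ord.ToType := by
    rw [← mk_ne_zero_iff, m1]; exact (aleph_pos 1).ne'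
  haveI : Nonempty (ℵ_ 2).ord.ToType := by
    rw [← mk_ne_zero_iff, mk_ord_toType]; exact (aleph_pos 2).ne'
  refine ⟨(ℵ_ 2).ord.ToType, H61.not_submetalindelof_of_comb ?_⟩
  intro F hF
  obtain ⟨A, e, he, hA⟩ := H61.comb (κ := (ℵ_ 2).ord.ToType) (W := (ℵ_ 1).ord.ToType)
    (by rw [c2]; exact l01.trans l12) (by rw [c2, m1]; exact l12) (by rw [c1]; exact l01)
    (by
      intro a
      rw [c2]
      exact (mk_Iio_toType_ord_lt a).trans l12)
    (fun x => ⋃ n, F n x) (fun x => countable_iUnion fun n => (hF n x).countable)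
  refine ⟨A, fun n hc => ?_⟩
  have hsub : range e ⊆ {x | ∀ p ∈ F n x, (A ∈ p ↔ Iio x ∈ p)} := by
    rintro _ ⟨a, rfl⟩ p hp
    exact hA a p (mem_iUnion.mpr ⟨n, hp⟩)
  have hrc : (range e).Countable := hc.mono hsub
  have : Countable (ℵ_ 1).ord.ToType := by
    have h3 : Countable (range e) := hrc.to_subtype
    exact (Equiv.ofInjective e he).injective.countable
  have h4 := mk_le_aleph0 (α := (ℵ_ 1).ord.ToType)
  rw [m1] at h4
  exact absurd h4 (not_le.mpr l01)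

/-- The negation of the preceding statement: For every compact Hausdorff X, the space of continuous real functions on X with the pointwise topology is submetalindelöf. Every open cover has a sequence of open refining covers such that each point lies in only countably many members of at least one of them. -/
theorem result :
    ¬ (∀ (X : Type) [TopologicalSpace X] [CompactSpace X] [T2Space X],
      ∀ 𝒰 : Set (Set {g : X → ℝ // Continuous g}),
        (∀ U ∈ 𝒰, IsOpen U) → ⋃₀ 𝒰 = Set.univ →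
        ∃ 𝒱 : ℕ → Set (Set {g : X → ℝ // Continuous g}),
          (∀ n, ∀ V ∈ 𝒱 n, IsOpen V ∧ ∃ U ∈ 𝒰, V ⊆ U) ∧
          (∀ n, ⋃₀ 𝒱 n = Set.univ) ∧
          ∀ x : {g : X → ℝ // Continuous g}, ∃ n, {V ∈ 𝒱 n | x ∈ V}.Countable) := by
  intro h
  obtain ⟨κ, 𝒰, h1, h2, h3⟩ := counterexample
  exact h3 (h (Ultrafilter κ) 𝒰 h1 h2)

end Pool.Agent.S12732
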