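-- Proof of the frozen statement S14013 (Okunev 1993): the closure of the set of non-isolated
-- points in the realcompactification is Lindelof Sigma whenever the space of continuous maps
-- into the interval is Lindelof Sigma.
import Pool.Statements.S14013
import Pool.Agent.H69.Okunev

set_option autoImplicit false
open Pool Pool.MP_d57a60_gt

namespace Pool.Agent.S14013

/-- For every Tychonoff X: if C_p(X,[0,1]) is Lindelöf Σ, then the closure of the non-isolated points of X in υX is Lindelöf Σ. Here υX is the closure of X evaluated into ℝ^{C(X)}, and Lindelöf Σ means a countable network modulo a compact cover. -/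
theorem result :
    ∀ (X : Type) [TopologicalSpace X] [T35Space X],
      (∃ 𝓕 : Set (Set {f : X → Set.Icc (0:ℝ) 1 // Continuous f}), 𝓕.Countable ∧
        ∀ g : {f : X → Set.Icc (0:ℝ) 1 // Continuous f},
          ∃ C : Set {f : X → Set.Icc (0:ℝ) 1 // Continuous f},
            IsCompact C ∧ g ∈ C ∧
              ∀ U : Set {f : X → Set.Icc (0:ℝ) 1 // Continuous f},
                IsOpen U → C ⊆ U → ∃ F ∈ 𝓕, C ⊆ F ∧ F ⊆ U) →
      (∃ 𝓕 : Set (Set ↥(closure ((fun x : X => fun f : C(X, ℝ) => f x) ''
                {x : X | ¬ IsOpen ({x} : Set X)}))), 𝓕.Countable ∧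
        ∀ g : ↥(closure ((fun x : X => fun f : C(X, ℝ) => f x) ''
                {x : X | ¬ IsOpen ({x} : Set X)})),
          ∃ C : Set ↥(closure ((fun x : X => fun f : C(X, ℝ) => f x) ''
                {x : X | ¬ IsOpen ({x} : Set X)})),
            IsCompact C ∧ g ∈ C ∧
              ∀ U : Set ↥(closure ((fun x : X => fun f : C(X, ℝ) => f x) ''
                {x : X | ¬ IsOpen ({x} : Set X)})),
                IsOpen U → C ⊆ U → ∃ F ∈ 𝓕, C ⊆ F ∧ F ⊆ U) := by
  intro X _ _ H
  obtain ⟨E, hE⟩ := Pool.Agent.H69.Okunev.exists_family H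
  exact Pool.Agent.H69.Okunev.sigma_of_family E hE

end Pool.Agent.S14013
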