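import Pool.Statements.S14615
import Pool.Agent.H90.REPrim
import Pool.Agent.H90.CompMach
import Pool.Agent.H90.Ceer

set_option autoImplicit false
open Pool Pool.MP_3d45c4_lc

namespace Pool.Agent.S14615

/-- Isomorphism of finitely presented groups, as a relation on codes of finite presentations, is computably enumerable, and every c.e. equivalence relation on ℕ computably reduces to it. -/
theorem result :
    ∀ E : ℕ × List (List (ℕ × Bool)) → ℕ × List (List (ℕ × Bool)) → Prop,
      (∀ a b, E a b ↔ Nonempty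
        (PresentedGroup {g : FreeGroup (Fin a.1) | ∃ w ∈ a.2, g = FreeGroup.mk
            (w.filterMap (fun q => if h : q.1 < a.1 then some ((⟨q.1, h⟩ : Fin a.1), q.2) else none))}
          ≃* PresentedGroup {g : FreeGroup (Fin b.1) | ∃ w ∈ b.2, g = FreeGroup.mk
            (w.filterMap (fun q => if h : q.1 < b.1 then some ((⟨q.1, h⟩ : Fin b.1), q.2) else none))})) →
      REPred (fun p : (ℕ × List (List (ℕ × Bool))) × (ℕ × List (List (ℕ × Bool))) => E p.1 p.2) ∧
      ∀ R : ℕ → ℕ → Prop, Equivalence R → REPred (fun p : ℕ × ℕ => R p.1 p.2) →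
        ∃ f : ℕ → ℕ × List (List (ℕ × Bool)), Computable f ∧ ∀ x y, R x y ↔ E (f x) (f y) := by
  intro E hE
  have hE' : ∀ a b, E a b ↔ Nonempty (H90.GP a ≃* H90.GP b) := hE
  refine ⟨H90.iso_re.of_eq (fun p => (hE' p.1 p.2).symm), ?_⟩
  intro R hR hre
  obtain ⟨g, hg, hgR⟩ := H90.exists_dyn R hR hre
  obtain ⟨M, d1, d0, m, hd1, hM⟩ := H90.exists_mach g hg
  have hNN : Primrec (H90.NN d1 d0 m) := by
    have h1 : Primrec (fun n : ℕ => (Nat.rec 0 (fun _ r => d0 + m * r) n : ℕ)) :=
      Primrec.nat_rec₁ 0 (H90.mk₂ (Primrec.nat_add.comp (Primrec.const d0)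
        (Primrec.nat_mul.comp (Primrec.const m) Primrec.snd)))
    exact Primrec.nat_add.comp (Primrec.const d1)
      (Primrec.nat_mul.comp (Primrec.const m) (h1.comp Primrec.succ))
  refine ⟨fun x => M.code (H90.NN d1 d0 m x), ((H90.primrec_code M).comp hNN).to_comp, ?_⟩
  intro x y
  rw [hE', H90.iso_iff M _ _ (by unfold H90.NN; omega), hM, hgR]

end Pool.Agent.S14615
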