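import Pool.Statements.S14833
import Pool.Agent.H91.CD.ASM
import Pool.Agent.H91.CD.LineE

set_option autoImplicit false
open Pool Pool.MP_67a3ab_lc

namespace Pool.Agent.S14833

/-- Some field algebraic over its prime subfield has n ≥ 2 computable copies on ℕ, pairwise not computably isomorphic, with every computable copy computably isomorphic to one of them: finite computable dimension above 1. -/
theorem result :
    ∃ (K : Type) (_ : Field K), Algebra.IsAlgebraic (⊥ : Subfield K) K ∧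
      ∃ n : ℕ, 2 ≤ n ∧ ∃ (A M : Fin n → ℕ → ℕ → ℕ),
        (∀ i, Computable₂ (A i) ∧ Computable₂ (M i) ∧
            ∃ e : ℕ ≃ K, ∀ x y : ℕ, e (A i x y) = e x + e y ∧ e (M i x y) = e x * e y) ∧
        (∀ i j : Fin n, i ≠ j →
            ¬ ∃ f : ℕ ≃ ℕ, Computable (⇑f) ∧
              ∀ x y : ℕ, f (A i x y) = A j (f x) (f y) ∧ f (M i x y) = M j (f x) (f y)) ∧
        (∀ a m : ℕ → ℕ → ℕ, Computable₂ a → Computable₂ m →
            (∃ e : ℕ ≃ K, ∀ x y : ℕ, e (a x y) = e x + e y ∧ e (m x y) = e x * e y) →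
            ∃ i : Fin n, ∃ f : ℕ ≃ ℕ, Computable (⇑f) ∧
              ∀ x y : ℕ, f (a x y) = A i (f x) (f y) ∧ f (m x y) = M i (f x) (f y)) := by
  exact Pool.Agent.H91.CD.assemble Pool.Agent.H91.CD.dynamics

end Pool.Agent.S14833
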