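import Pool.Statements.S15099
import Pool.Agent.H75.Mfd.Main

set_option autoImplicit false
open Pool Pool.MP_996a67_lc

namespace Pool.Agent.S15099

/-- There is a Borel map from metric codes on ℕ to graphs on ℕ such that, for codes whose completions are 3-manifolds without boundary, the outputs are simple graphs, isomorphic exactly when the two completions are homeomorphic. -/
theorem result :
    ∃ f : (ℕ → ℕ → ℝ) → (ℕ → ℕ → Bool), Measurable f ∧
      ∀ (X Y : Type) [MetricSpace X] [CompleteSpace X] [MetricSpace Y] [CompleteSpace Y]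
        [ChartedSpace (EuclideanSpace ℝ (Fin 3)) X] [ChartedSpace (EuclideanSpace ℝ (Fin 3)) Y]
        (η η' : ℕ → ℕ → ℝ) (e : ℕ → X) (e' : ℕ → Y),
        Function.Injective e → Function.Injective e' →
        DenseRange e → DenseRange e' →
        (∀ i j, dist (e i) (e j) = η i j) →
        (∀ i j, dist (e' i) (e' j) = η' i j) →
        ((∀ i j, f η i j = f η j i) ∧ (∀ i, f η i i = false) ∧
          (Nonempty (X ≃ₜ Y) ↔
            ∃ σ : Equiv.Perm ℕ, ∀ i j, f η (σ i) (σ j) = f η' i j)) :=
  Pool.Agent.H75.Mfd.frozen_form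

end Pool.Agent.S15099
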