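import Pool.Statements.S15122
import Pool.Agent.H94.WRRA4

set_option autoImplicit false
open Pool Pool.MP_9e3e1a_lc

namespace Pool.Agent.S15122

open Pool.Agent.H94.WRRA in
/-- The relation algebra axioms hold on every family of fixed elements. -/
theorem axioms_of_inv {I : Type} [DecidableEq I] [Countable I] {i0 i1 : I} (h01 : i0 ≠ i1)
    (x y z : Set (At I)) (hx : Inv i0 i1 x) (hy : Inv i0 i1 y) (hz : Inv i0 i1 z) :
    comp (comp x y) z = comp x (comp y z) ∧
    comp (x ⊔ y) z = comp x z ⊔ comp y z ∧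
    comp x {At.one} = x ∧
    (fun t => t) ((fun t => t) x) = x ∧
    (fun t => t) (x ⊔ y) = (fun t => t) x ⊔ (fun t => t) y ∧
    (fun t => t) (comp x y) = comp ((fun t => t) y) ((fun t => t) x) ∧
    comp ((fun t => t) x) (comp x y)ᶜ ≤ yᶜ := by
  obtain ⟨h, hinj, hbot, hone, hmeet, hconv, hcomp⟩ := exists_rep h01
  refine ⟨?_, ?_, ?_, rfl, rfl, ?_, ?_⟩
  · apply hinj (inv_comp (inv_comp hx hy) hz) (inv_comp hx (inv_comp hy hz))
    rw [hcomp _ _ (inv_comp hx hy) hz, hcomp _ _ hx (inv_comp hy hz), hcomp _ _ hx hy,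
      hcomp _ _ hy hz]
    ext ⟨M, N⟩
    constructor
    · rintro ⟨w, ⟨w', h1, h2⟩, h3⟩
      exact ⟨w', h1, w, h2, h3⟩
    · rintro ⟨w, h1, w', h2, h3⟩
      exact ⟨w', ⟨w, h1, h2⟩, h3⟩
  · ext t
    constructor
    · rintro ⟨r, hr | hr, s, hs, hok⟩
      · exact Or.inl ⟨r, hr, s, hs, hok⟩
      · exact Or.inr ⟨r, hr, s, hs, hok⟩
    · rintro (⟨r, hr, s, hs, hok⟩ | ⟨r, hr, s, hs, hok⟩)
      · exact ⟨r, Or.inl hr, s, hs, hok⟩
      · exact ⟨r, Or.inr hr, s, hs, hok⟩
  · apply hinj (inv_comp hx (inv_one i0 i1)) hx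
    rw [hcomp _ _ hx (inv_one i0 i1), hone]
    ext ⟨M, N⟩
    constructor
    · rintro ⟨w, h1, h2⟩
      have : w = N := h2
      subst this
      exact h1
    · intro h1
      exact ⟨N, h1, rfl⟩
  · ext t
    constructor
    · rintro ⟨r, hr, s, hs, hok⟩
      exact ⟨s, hs, r, hr, hok.swap12⟩
    · rintro ⟨r, hr, s, hs, hok⟩
      exact ⟨s, hs, r, hr, hok.swap12⟩
  · rintro t ⟨r, hr, s, hs, hok⟩ hty
    exact hs ⟨r, hr, t, hty, hok.swap23⟩

open Pool.Agent.H94.WRRA in
/-- The negation of the preceding statement: There is n such that any Boolean algebra with composition, converse and identity whose n-generated subalgebras are all weakly representable relation algebras is itself one, i.e. wRRA has an n-variable equational basis. -/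
theorem result :
    ¬ (∃ n : ℕ, ∀ (A : Type) [BooleanAlgebra A] (c : A → A → A) (v : A → A) (e : A)
      (W : Set A → Prop),
      (∀ S : Set A, W S ↔
        ((∀ x ∈ S, ∀ y ∈ S, ∀ z ∈ S,
            c (c x y) z = c x (c y z) ∧
            c (x ⊔ y) z = c x z ⊔ c y z ∧
            c x e = x ∧
            v (v x) = x ∧
            v (x ⊔ y) = v x ⊔ v y ∧
            v (c x y) = c (v y) (v x) ∧
            c (v x) (c x y)ᶜ ≤ yᶜ) ∧
         ∃ (U : Type) (h : A → Set (U × U)),
            Set.InjOn h S ∧ h ⊥ = ∅ ∧ h e = {p : U × U | p.1 = p.2} ∧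
            ∀ x ∈ S, ∀ y ∈ S,
              h (x ⊓ y) = h x ∩ h y ∧
              h (c x y) = {p : U × U | ∃ w : U, (p.1, w) ∈ h x ∧ (w, p.2) ∈ h y} ∧
              h (v x) = {p : U × U | (p.2, p.1) ∈ h x})) →
      (∀ g : Fin n → A,
        W {a : A | ∀ T : Set A, Set.range g ⊆ T →
          (∀ x ∈ T, ∀ y ∈ T, x ⊔ y ∈ T ∧ xᶜ ∈ T ∧ c x y ∈ T ∧ v x ∈ T) →
          e ∈ T → a ∈ T}) →
      W Set.univ) := by
  classical
  rintro ⟨n, hn⟩
  let I : Type := Fin (4 ^ n + 1)
  have key := hn (Set (At I)) comp (fun t => t) {At.one} _ (fun S => Iff.rfl) ?_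
  · obtain ⟨-, U, h, hinj, hbot, -, hrep⟩ := key
    refine no_rep U h hinj hbot (fun x y => (hrep x trivial y trivial).1)
      (fun x y => (hrep x trivial y trivial).2.1) (fun x => (hrep x trivial x trivial).2.2)
  · intro g
    -- two indices not distinguished by the generators
    obtain ⟨i0, i1, h01, hcol⟩ := Fintype.exists_ne_map_eq_of_card_lt
      (fun i : I => fun j : Fin n => (decide (At.c i ∈ g j), decide (At.a i ∈ g j)))
      (by simp [I])
    have hg : ∀ j, Inv i0 i1 (g j) := by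
      intro j
      have := congrFun hcol j
      simp only [Prod.mk.injEq, decide_eq_decide] at this
      exact this
    have hsub : ∀ x ∈ {a : Set (At I) | ∀ T : Set (Set (At I)), Set.range g ⊆ T →
          (∀ x ∈ T, ∀ y ∈ T, x ⊔ y ∈ T ∧ xᶜ ∈ T ∧ comp x y ∈ T ∧ (fun t => t) x ∈ T) →
          {At.one} ∈ T → a ∈ T}, Inv i0 i1 x := by
      intro x hx
      apply hx {x | Inv i0 i1 x}
      · rintro _ ⟨j, rfl⟩
        exact hg j
      · intro x hx y hy
        exact ⟨inv_union hx hy, inv_compl hx, inv_comp hx hy, hx⟩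
      · exact inv_one i0 i1
    refine ⟨?_, ?_⟩
    · intro x hx y hy z hz
      exact axioms_of_inv h01 x y z (hsub x hx) (hsub y hy) (hsub z hz)
    · obtain ⟨h, hinj, hbot, hone, hmeet, hconv, hcomp⟩ := exists_rep h01
      refine ⟨ℕ, h, hinj.mono hsub, hbot, hone, ?_⟩
      intro x hx y hy
      exact ⟨hmeet x y, hcomp x y (hsub x hx) (hsub y hy), hconv x⟩

end Pool.Agent.S15122
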