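import Pool.Statements.S15316
import Pool.Agent.H94.Stab.Main
import Pool.Agent.H96.DPRM.Main

set_option autoImplicit false
open Pool Pool.MP_c22137_lc

namespace Pool.Agent.S15316

/-- The negation of the preceding statement: For every dimension n and degree d, some algorithm decides, given a rational polynomial vector field of degree at most d on R^n vanishing at the origin, whether the origin is Lyapunov stable. -/
theorem result :
    ¬ (∀ n d : ℕ, ComputablePred
      (fun L : List (Fin n × (Fin n → ℕ) × (ℤ × ℕ)) =>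
        ∀ ε : ℝ, 0 < ε → ∃ δ : ℝ, 0 < δ ∧
          ∀ T : ℝ, 0 ≤ T → ∀ γ : ℝ → (Fin n → ℝ),
            ‖γ 0‖ < δ →
            (∀ t ∈ Set.Icc (0 : ℝ) T,
              HasDerivWithinAt γ
                (fun i : Fin n =>
                  (L.map (fun p : Fin n × (Fin n → ℕ) × (ℤ × ℕ) =>
                    if p.1 = i ∧ 0 < ∑ j, p.2.1 j ∧ ∑ j, p.2.1 j ≤ d then
                      ((p.2.2.1 : ℝ) / ((p.2.2.2 : ℝ) + 1)) * ∏ j, (γ t j) ^ (p.2.1 j)
                    else 0)).sum)
                (Set.Icc (0 : ℝ) T) t) →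
            ∀ t ∈ Set.Icc (0 : ℝ) T, ‖γ t‖ < ε)) := by
  intro h
  obtain ⟨k, P, hP⟩ := Pool.Agent.H96.DPRM.exists_poly_not_computable
  have hund : ¬ ComputablePred (fun n : ℕ => ∃ y : Fin (k + 1) → ℕ, y 0 = n ∧
      MvPolynomial.eval (fun i => (y i : ℤ)) P = 0) := by
    intro hc
    apply hP
    refine hc.of_eq ?_
    intro n
    constructor
    · rintro ⟨y, hy0, hy⟩
      refine ⟨fun i => y i.succ, ?_⟩
      have e : (Fin.cons (n : ℤ) (fun i : Fin k => ((y i.succ : ℕ) : ℤ)) : Fin (k + 1) → ℤ) =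
          fun i => (y i : ℤ) := by
        funext i
        refine Fin.cases ?_ (fun j => ?_) i
        · simp [hy0]
        · simp
      rw [e]; exact hy
    · rintro ⟨x, hx⟩
      refine ⟨Fin.cons n x, by simp, ?_⟩
      have e : (Fin.cons (n : ℤ) (fun i : Fin k => ((x i : ℕ) : ℤ)) : Fin (k + 1) → ℤ) =
          fun i => (((Fin.cons n x : Fin (k + 1) → ℕ) i : ℕ) : ℤ) := by
        funext i
        refine Fin.cases ?_ (fun j => ?_) i
        · simp
        · simp
      rw [e] at hx; exact hx
  obtain ⟨N, D, hND⟩ := Pool.Agent.H94.Stab.undecidable_of_dioph P 0 hund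
  exact hND (h N D)

end Pool.Agent.S15316
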