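import Pool.Statements.S15376
import Pool.Agent.H97.Main5

set_option autoImplicit false
open FirstOrder FirstOrder.Language
open Pool Pool.MP_cfda27_lc

namespace Pool.Agent.S15376

/-- The negation of the preceding statement: For every field k there is a first-order theory, in the language of k-algebras with a predicate P for a subalgebra, such that for every free unital k-algebra F and unital subalgebra A, A is free iff (F,A) satisfies that theory. -/
theorem result :
    ¬ (∀ (k : Type) [Field k],
    ∃ T : (⟨fun n => {_b : Bool // n = 2} ⊕ {_c : k // n = 0},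
            fun n => {_u : Unit // n = 1}⟩ : FirstOrder.Language.{0, 0}).Theory,
    ∀ (F : Type) [Ring F] [Algebra k F],
      (∃ X : Type, Nonempty (F ≃ₐ[k] FreeAlgebra k X)) →
      ∀ A : Subalgebra k F,
        ((∃ Y : Type, Nonempty (A ≃ₐ[k] FreeAlgebra k Y)) ↔
          ∀ [S : (⟨fun n => {_b : Bool // n = 2} ⊕ {_c : k // n = 0},
                   fun n => {_u : Unit // n = 1}⟩ : FirstOrder.Language.{0, 0}).Structure F],
            S = { funMap := fun {n} f xs =>
                    Sum.elim
                      (fun b : {_b : Bool // n = 2} =>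
                        if b.1 then xs (Fin.cast b.2.symm 0) + xs (Fin.cast b.2.symm 1)
                        else xs (Fin.cast b.2.symm 0) * xs (Fin.cast b.2.symm 1))
                      (fun c : {_c : k // n = 0} => algebraMap k F c.1) f,
                  RelMap := fun {n} _ xs => ∀ i, xs i ∈ A } →
            F ⊨ T)) := by
  intro h
  obtain ⟨T, hT⟩ := h ℚ
  have h2 : @Theory.Model (H97.LL ℚ) (H97.FE ℚ) (H97.SS ℚ (H97.FE ℚ) (H97.AE' ℚ)) T := by
    have h1 := (hT (H97.FE ℚ) ⟨_, H97.FE_free ℚ⟩ (H97.AE' ℚ)).1 ⟨_, H97.AE'_free ℚ⟩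
      (S := H97.SS ℚ (H97.FE ℚ) (H97.AE' ℚ)) rfl
    exact h1
  have h3 := (H97.pair_model_iff ℚ T).1 h2
  obtain ⟨Y, ⟨e⟩⟩ := (hT (H97.FF ℚ) ⟨_, ⟨AlgEquiv.refl⟩⟩ (H97.AA ℚ)).2 (by
    intro S hS
    subst hS
    exact h3)
  exact (H97.AA_not_free ℚ Y).false e

end Pool.Agent.S15376
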