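-- Copy of Pool/Templates/S15386.lean.txt with the proof.
import Pool.Statements.S15386
import Pool.Agent.H75.MX.Final

set_option autoImplicit false
open Pool Pool.MP_d109f1_lc

namespace Pool.Agent.S15386

/-- The negation of the preceding statement: There is an algorithm that, given a finite list of 2x2 integer matrices, decides whether the semigroup they generate under multiplication contains a matrix whose top-left entry is 0. -/
theorem result :
    ¬ (ComputablePred (fun L : List (ℤ × ℤ × ℤ × ℤ) =>
      ∃ M ∈ Subsemigroup.closure
          {N : Matrix (Fin 2) (Fin 2) ℤ |
            ∃ x ∈ L, N = !![x.1, x.2.1; x.2.2.1, x.2.2.2]},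
        M 0 0 = 0)) := by
  exact Pool.Agent.H75.MX.main_undecidable

end Pool.Agent.S15386
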