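import Pool.Statements.S16992
import Pool.Agent.H5.W.Final2

set_option autoImplicit false
open Pool Pool.MP_559555_nt

namespace Pool.Agent.S16992

/-- The negation of the preceding statement: Let W(n) be the sum over the prime powers p^a exactly dividing n of n/p^a. The number of distinct values W(n) takes for 1 ≤ n ≤ x, divided by x, tends to 0 as x tends to infinity. -/
theorem result :
    ¬ (Filter.Tendsto
      (fun x : ℕ =>
        (((Finset.Icc 1 x).image
            (fun n : ℕ => ∑ p ∈ n.primeFactors, n / p ^ (n.factorization p))).card : ℝ)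
          / (x : ℝ))
      Filter.atTop (nhds 0)) := by
  intro hT
  obtain ⟨c, hc, J0, hJ0⟩ := Pool.Agent.H5.W.main_lower
  have h1 : Filter.Tendsto (fun J : ℕ => J ^ 400) Filter.atTop Filter.atTop :=
    Filter.tendsto_pow_atTop (by norm_num)
  have h2 := hT.comp h1
  have h3 := (h2.eventually (gt_mem_nhds hc)).and (Filter.eventually_ge_atTop (max 1 J0))
  obtain ⟨J, hJ, hJ'⟩ := h3.exists
  have hJ1 : 1 ≤ J := le_trans (le_max_left _ _) hJ'
  have h4 := hJ0 J (le_trans (le_max_right _ _) hJ')
  have hpos : (0 : ℝ) < ((J ^ 400 : ℕ) : ℝ) := by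
    have : 0 < J ^ 400 := by positivity
    exact_mod_cast this
  simp only [Function.comp] at hJ
  rw [div_lt_iff₀ hpos] at hJ
  have h5 : ((((Finset.Icc 1 (J ^ 400)).image Pool.Agent.H5.W.W).card : ℕ) : ℝ) =
      (((Finset.Icc 1 (J ^ 400)).image
        (fun n : ℕ => ∑ p ∈ n.primeFactors, n / p ^ (n.factorization p))).card : ℝ) := rfl
  rw [h5] at h4
  push_cast at hJ h4
  linarith

end Pool.Agent.S16992
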