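import Pool.Statements.S18742
import Pool.Agent.H10.Disc4

set_option autoImplicit false
open Classical
open Pool Pool.MP_e1a649_nt

namespace Pool.Agent.S18742

/-- The negation of the preceding statement: For every p ≥ 1 and d ≥ 1 there is C > 0 such that every N-point family in [0,1)^d has periodic L_p discrepancy (over wrap-around boxes) at most C times its star L_p discrepancy (over anchored boxes). -/
theorem result :
    ¬ (∀ p : ℝ, 1 ≤ p → ∀ d : ℕ, 1 ≤ d → ∃ C : ℝ, 0 < C ∧
      ∀ N : ℕ, ∀ P : Fin N → Fin d → ℝ, (∀ i j, 0 ≤ P i j ∧ P i j < 1) →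
        (∫ x in Set.Icc (0 : Fin d → ℝ) 1, ∫ y in Set.Icc (0 : Fin d → ℝ) 1,
            |((Finset.univ.filter (fun i : Fin N => ∀ j : Fin d,
                  if x j ≤ y j then (x j ≤ P i j ∧ P i j < y j)
                  else (P i j < y j ∨ x j ≤ P i j))).card : ℝ)
              - (N : ℝ) * ∏ j : Fin d, (if x j ≤ y j then y j - x j else 1 - x j + y j)| ^ p)
          ^ (1 / p)
        ≤ C * (∫ t in Set.Icc (0 : Fin d → ℝ) 1,
            |((Finset.univ.filter (fun i : Fin N => ∀ j : Fin d, P i j < t j)).card : ℝ)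
              - (N : ℝ) * ∏ j : Fin d, t j| ^ p) ^ (1 / p)) := by
  intro h
  obtain ⟨C, hC, hall⟩ := h 1 le_rfl 2 (by norm_num)
  obtain ⟨N, P, _, hP, hlt⟩ := Pool.Agent.H10.Disc.unbounded 1 le_rfl 0 C hC
  have := hall N P hP
  unfold Pool.Agent.H10.Disc.starInt Pool.Agent.H10.Disc.perInt at hlt
  exact absurd (lt_of_lt_of_le hlt this) (lt_irrefl _)

end Pool.Agent.S18742
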