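import Pool.Statements.S18875
import Pool.Agent.H11.Smyth.Limit
import Pool.Agent.H11.Smyth.Conv
import Pool.Agent.H11.Smyth.Roots
import Pool.Agent.H11.Smyth.Realize

set_option autoImplicit false
open scoped NumberField
open Pool Pool.MP_ed3ef1_nt

namespace Pool.Agent.S18875

/-- For every number field K and tuple a in O_K^n: some nonzero K-conjugates α_i (repeats allowed) satisfy Σ a_i α_i = 0 iff the strong archimedean and nonarchimedean absolute value criteria hold, or Σ a_i ω_i = 0 for some roots of unity ω_i. -/
theorem result :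
  ∀ (K : Type) [Field K] [NumberField K] (n : ℕ) (a : Fin n → 𝓞 K),
    (∃ α : Fin n → AlgebraicClosure K,
        (∀ i, α i ≠ 0) ∧ (∀ i j, minpoly K (α i) = minpoly K (α j)) ∧
        ∑ i, algebraMap K (AlgebraicClosure K) (a i : K) * α i = 0) ↔
    (((∀ v : NumberField.InfinitePlace K, ∀ i : Fin n,
          v (a i : K) < ∑ j ∈ Finset.univ.erase i, v (a j : K)) ∧
      (∀ v : IsDedekindDomain.HeightOneSpectrum (𝓞 K), ∀ i : Fin n,
          ∃ j : Fin n, j ≠ i ∧ v.valuation K (a i : K) ≤ v.valuation K (a j : K))) ∨
     ∃ ω : Fin n → AlgebraicClosure K,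
        (∀ i, ∃ m : ℕ, 0 < m ∧ ω i ^ m = 1) ∧
        ∑ i, algebraMap K (AlgebraicClosure K) (a i : K) * ω i = 0) := by
  intro K _ _ n a
  have hnormal : Normal K (AlgebraicClosure K) := IsAlgClosure.normal K (AlgebraicClosure K)
  constructor
  · rintro ⟨α, hα, hconj, hsum⟩
    by_cases harch : ∀ v : NumberField.InfinitePlace K, ∀ i : Fin n,
        v (a i : K) < ∑ j ∈ Finset.univ.erase i, v (a j : K)
    · left
      refine ⟨harch, fun v i => ?_⟩
      have hex : ∃ j, j ≠ i := by
        by_contra hcon
        push Not at hcon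
        obtain ⟨w⟩ : Nonempty (NumberField.InfinitePlace K) := inferInstance
        have h1 := harch w i
        have h2 : ∑ j ∈ Finset.univ.erase i, w (a j : K) = 0 := by
          refine Finset.sum_eq_zero fun j hj => ?_
          exact absurd (hcon j) (Finset.ne_of_mem_erase hj)
        rw [h2] at h1
        exact absurd h1 (not_lt.mpr (apply_nonneg w _))
      exact Pool.Agent.H11.Smyth.nonarch (v.valuation K) (fun i => (a i : K)) α hα hconj hsum i hex
    · right
      push Not at harch
      obtain ⟨v, i, hvi⟩ := harch
      rcases Pool.Agent.H11.Smyth.arch_or_roots (fun i => (a i : K)) α hα hconj hsum v i with h | h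
      · exact absurd h (not_lt.mpr hvi)
      · exact h
  · rintro (⟨harch, hna⟩ | ⟨ω, hω, hsum⟩)
    · rcases Nat.eq_zero_or_pos n with hn | hn
      · subst hn
        exact ⟨fun i => i.elim0, fun i => i.elim0, fun i => i.elim0, by simp⟩
      · have harch' : ∀ φ : K →+* ℂ, ∀ i, ‖φ (a i : K)‖ <
            ∑ j ∈ Finset.univ.erase i, ‖φ (a j : K)‖ := by
          intro φ i
          have := harch (NumberField.InfinitePlace.mk φ) i
          simpa only [NumberField.InfinitePlace.apply] using this
        have hna' : ∀ i, ∃ c : Fin n → 𝓞 K, c i = 1 ∧ ∑ j, a j * c j = 0 := by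
          intro i
          apply Pool.Agent.H11.Smyth.unit_coord K a i _ (fun v => hna v i)
          by_contra hcon
          push Not at hcon
          obtain ⟨w⟩ : Nonempty (NumberField.InfinitePlace K) := inferInstance
          have h1 := harch w i
          have h2 : ∑ j ∈ Finset.univ.erase i, w (a j : K) = 0 := by
            refine Finset.sum_eq_zero fun j hj => ?_
            rw [hcon j (Finset.ne_of_mem_erase hj)]
            simp
          rw [h2] at h1
          exact absurd h1 (not_lt.mpr (apply_nonneg w _))
        obtain ⟨N, x, hx1, ⟨k, i, hki⟩, hx3⟩ :=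
          Pool.Agent.H11.Smyth.exists_equal_marg K hn a harch' hna'
        refine Pool.Agent.H11.Smyth.realize K (AlgebraicClosure K) (fun i => (a i : K)) N
          (fun k i => (x k i : K)) (fun k => ?_) ⟨k, i, ?_⟩ (fun i j => ?_)
        · have h1 := congrArg (algebraMap (𝓞 K) K) (hx1 k)
          rw [map_sum, map_zero] at h1
          simp only [map_mul] at h1
          exact h1
        · exact_mod_cast hki
        · obtain ⟨π, hπ⟩ := hx3 i j
          exact ⟨π, fun k => by
            show ((x k i : 𝓞 K) : K) = ((x (π k) j : 𝓞 K) : K)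
            rw [hπ k]⟩
    · exact Pool.Agent.H11.Smyth.of_roots (fun i => (a i : K)) ω hω hsum

end Pool.Agent.S18875
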