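import Pool.Statements.S19711
import Pool.Agent.H40.WM.Fin

set_option autoImplicit false
open Classical
open Pool Pool.MP_e9d30c_pr

namespace Pool.Agent.S19711

/-- For the n×n square-flip chain (add a random square's 4 edges w.p. λ if none present, remove them if all present), there is λ₀∈(0,1] so that for 0<λ<λ₀, after C·n^k steps the laws from any two reachable starts are within TV 1/4. -/
theorem result :
  ∀ (sq : ℕ → ℕ → Finset (ℕ × ℕ × ℕ)),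
    (∀ i j : ℕ, sq i j = {(0, i, j), (0, i, j + 1), (1, i, j), (1, i + 1, j)}) →
  ∀ (P : ℝ → ℕ → Finset (ℕ × ℕ × ℕ) → Finset (ℕ × ℕ × ℕ) → ℝ),
    (∀ (lam : ℝ) (n : ℕ) (γ γ' : Finset (ℕ × ℕ × ℕ)),
      P lam n γ γ' = ∑ c ∈ Finset.range n ×ˢ Finset.range n,
        (1 / ((n : ℝ) ^ 2)) *
          (if sq c.1 c.2 ∩ γ = ∅ then
            (lam * (if γ' = γ ∪ sq c.1 c.2 then (1 : ℝ) else 0)
              + (1 - lam) * (if γ' = γ then (1 : ℝ) else 0))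
          else if sq c.1 c.2 ⊆ γ then
            (if γ' = γ \ sq c.1 c.2 then (1 : ℝ) else 0)
          else (if γ' = γ then (1 : ℝ) else 0))) →
  ∀ (mu : ℝ → ℕ → Finset (ℕ × ℕ × ℕ) → ℕ → Finset (ℕ × ℕ × ℕ) → ℝ),
    (∀ (lam : ℝ) (n : ℕ) (γ0 γ : Finset (ℕ × ℕ × ℕ)),
      mu lam n γ0 0 γ = if γ = γ0 then (1 : ℝ) else 0) →
    (∀ (lam : ℝ) (n : ℕ) (γ0 : Finset (ℕ × ℕ × ℕ)) (t : ℕ) (γ' : Finset (ℕ × ℕ × ℕ)),
      mu lam n γ0 (t + 1) γ' =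
        ∑ γ ∈ ((Finset.range n ×ˢ Finset.range n).biUnion (fun c => sq c.1 c.2)).powerset,
          mu lam n γ0 t γ * P lam n γ γ') →
  ∃ lam0 : ℝ, 0 < lam0 ∧ lam0 ≤ 1 ∧ ∀ lam : ℝ, 0 < lam → lam < lam0 →
    ∃ C : ℝ, ∃ k : ℕ, ∀ n : ℕ, 1 ≤ n → ∀ t : ℕ, C * (n : ℝ) ^ k ≤ (t : ℝ) →
      ∀ γ0 γ1 : Finset (ℕ × ℕ × ℕ),
        (∃ s : ℕ, 0 < mu lam n ∅ s γ0) → (∃ s : ℕ, 0 < mu lam n ∅ s γ1) →
        (1 / 2 : ℝ) *
          ∑ γ ∈ ((Finset.range n ×ˢ Finset.range n).biUnion (fun c => sq c.1 c.2)).powerset,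
            |mu lam n γ0 t γ - mu lam n γ1 t γ| ≤ 1 / 4 := by
  exact Pool.Agent.H40.WM.frozen_of_ladders (1 / 36 ^ 2000) (by positivity)
    (by
      rw [div_le_one (by positivity)]
      exact one_le_pow₀ (by norm_num)) Pool.Agent.H40.WM.all_ladders

end Pool.Agent.S19711
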